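import Pool.Agent.Helper17.SL.Defs

set_option autoImplicit false

/-!
Two-way multihead deterministic finite automata (in the model of the frozen statements of
MP_4e849b_lc) and padded words.
-/

namespace Pool.Agent.Helper17.UL

/-- Transition function of a two-way `k`-head deterministic finite automaton with states `P` and
input letters `β`: from the state and what each head sees (is it on the left endmarker, and the
letter under it if any) it gives the new state and a movement for each head (`0` left, `1` stay,
`2` right). -/
abbrev FDTrans (β P : Type) (k : ℕ) : Type :=
  P → (Fin k → Bool × Option β) → P × (Fin k → Fin 3)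

/-- One move on the word `w` from the configuration (state, head positions); position `0` is the
left endmarker and position `w.length + 1` the right endmarker. -/
def fdStep {β P : Type} {k : ℕ} (η : FDTrans β P k) (w : List β) (c : P × (Fin k → ℕ)) :
    P × (Fin k → ℕ) :=
  ((η c.1 (fun j => (decide (c.2 j = 0), w[c.2 j - 1]?))).1,
    (fun i => if (η c.1 (fun j => (decide (c.2 j = 0), w[c.2 j - 1]?))).2 i = 0
      then c.2 i - 1
      else if (η c.1 (fun j => (decide (c.2 j = 0), w[c.2 j - 1]?))).2 i = 1
      then c.2 i
      else min (c.2 i + 1) (w.length + 1)))

/-- The finite automaton reaches a state of `G` on the word `w`. -/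
def FDAccepts {β P : Type} {k : ℕ} (η : FDTrans β P k) (p₀ : P) (G : Set P) (w : List β) :
    Prop :=
  ∃ m : ℕ, ((fdStep η w)^[m] (p₀, fun _ => 0)).1 ∈ G

/-- The word `u` followed by `m` blanks (`none`). -/
def padW {α : Type} (u : List α) (m : ℕ) : List (Option α) := u.map some ++ List.replicate m none

end Pool.Agent.Helper17.UL
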