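import Pool.Agent.Helper17.UL.MachBd
import Pool.Agent.Helper17.UL.AutDefs
import Pool.Agent.Helper7.UL.PhiVal

set_option autoImplicit false

/-!
Uniform version: the answer of the pushdown automaton is read from the value of the scheme.
-/

namespace Pool.Agent.Helper17.UL

open Pool.Agent.Helper17.SL

section

variable {α Q Γ : Type} [Fintype α] [Fintype Q] [Fintype Γ] {k R : ℕ} [Fintype (Pend Γ R)]

/-- The initial tuple. -/
noncomputable def a0 (k : ℕ) (q₀ : Q) (Γ : Type) [Fintype Γ] (R : ℕ) [Fintype (Pend Γ R)]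
    (i : Fin (k + 4 + 2)) : ℕ :=
  if (i : ℕ) = 3 then fc q₀
  else if (i : ℕ) = 4 then fc (⟨[], Nat.zero_le _⟩ : Pend Γ R) else 0

theorem cV_init {n T N : ℕ} (q₀ : Q) :
    cV (valOf N 0 ((clamp T 0, q₀, fun _ => ⟨0, by omega⟩, ⟨[], Nat.zero_le _⟩), []) :
      VT Q Γ k n T R N) = a0 k q₀ Γ R := by
  funext i
  revert i
  apply idx_cases
  · rw [cV_0]; simp [valOf, clamp, a0]
  · rw [cV_1]; simp [valOf, clamp, a0]
  · rw [cV_2]; simp [valOf, clamp, a0]
  · rw [cV_3]; simp [valOf, a0]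
  · rw [cV_4]; simp [valOf, a0]
  · rw [cV_5]; simp [valOf, a0, oc]
  · intro j
    rw [cV_pj]
    have h3 : ((pj j : Fin (k + 4 + 2)) : ℕ) ≠ 3 := by simp [pj]
    have h4 : ((pj j : Fin (k + 4 + 2)) : ℕ) ≠ 4 := by simp [pj]
    simp [valOf, a0, h3, h4]

theorem a0_lt {n T N B : ℕ} (h : BOK Q Γ n T R N B) (q₀ : Q) (i : Fin (k + 4 + 2)) :
    a0 k q₀ Γ R i < B := by
  have h2 := h.h2
  unfold a0
  split_ifs
  · exact (fc_lt _).trans h.hQ
  · exact (fc_lt _).trans h.hP
  · omega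

theorem answer (δ : PDTrans α Q Γ k) (q₀ : Q) (F : Q → Bool)
    (hR : ∀ q v X, (δ q v X).2.2.length ≤ R) (u : List α) {T D : ℕ} (p : Prm)
    (hM : 0 < p.M) (hN : T * (R + 1) ≤ p.M ^ D) (hB : BOK Q Γ u.length T R (p.M ^ D) p.B)
    (hmB : p.m < p.B) (hm : p.m = 4 * p.M + 6)
    (hb : 2 ^ p.b = p.B ^ Fintype.card (CI (k + 4))) {r : ℕ} (hmr : p.m ≤ r)
    (hr : 2 ^ (2 * p.b) ≤ r ^ p.t2)
    (phi0N : (Fin (k + 4 + 2) → ℕ) → (Fin (k + 4 + 2) → ℕ) → RI (k + 4) → ℕ)
    (hphi : ∀ g x : VT Q Γ k u.length T R (p.M ^ D),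
      phi0N (cV g) (cV x) = cRes cV (phi0 (wstp δ F u) g x)) (nn : ℕ) (hnn : D * p.Del ≤ nn) :
    tabF F (decI p.B ((PhiS p phi0N).val nn (mkN 1 D 0 0 0 (a0 k q₀ Γ R) (a0 k q₀ Γ R)))
      (RI.x (⟨3, by omega⟩ : Fin (k + 4 + 2)))) = 1 ↔ AcceptsIn δ q₀ {q | F q = true} T u := by
  set c0 : Ctl Q Γ k u.length T R × List Γ := ((clamp T 0, q₀,
    fun _ => (⟨0, by omega⟩ : Fin (u.length + 2)), ⟨[], Nat.zero_le _⟩), []) with hc0
  obtain ⟨u', hu'⟩ := phi_run (wstp (n := u.length) (T := T) (R := R) δ F u) c0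
    (M := p.M) (D := D) (N := p.M ^ D) hM rfl rfl
  have hval := PhiS_val (cV (n := u.length) (T := T) (R := R) (N := p.M ^ D)) vtm vht
    (fun v => rfl) (fun v => rfl) p phi0N (D := D) (cV_lt hB) hB.h2 hmB hm hb hmr hr
    (phi0 (wstp δ F u)) (fun g x _ => hphi g x) D le_rfl nn hnn (valOf (p.M ^ D) 0 c0)
    (valOf (p.M ^ D) 0 c0)
  rw [hu', hc0, cV_init] at hval
  rw [hval]
  have hlt : ∀ i, cRes cV (Res.done (valOf (p.M ^ D) (p.M ^ D)
      (crun (wstp (n := u.length) (T := T) (R := R) δ F u) c0 (p.M ^ D))) u') i < p.B := by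
    intro i
    cases i with
    | tag => exact hB.h2
    | x i => exact cV_lt hB _ _
    | u i => exact cV_lt hB _ _
  have hdec := congrFun (decI_encI _ hlt) (RI.x (⟨3, by omega⟩ : Fin (k + 4 + 2)))
  rw [hdec]
  have hc : cRes cV (Res.done (valOf (p.M ^ D) (p.M ^ D)
      (crun (wstp (n := u.length) (T := T) (R := R) δ F u) c0 (p.M ^ D))) u')
      (RI.x (⟨3, by omega⟩ : Fin (k + 4 + 2))) =
      fc (crun (wstp (n := u.length) (T := T) (R := R) δ F u) c0 (p.M ^ D)).1.2.1 := rfl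
  rw [hc, tabF, ptab_code fc_injective]
  have hans := wstp_answer (n := u.length) (T := T) (R := R) δ F u rfl hR q₀ hN
  rw [← hans]
  cases F (crun (wstp (n := u.length) (T := T) (R := R) δ F u) c0 (p.M ^ D)).1.2.1 <;> simp

/-! ### padded words -/

omit [Fintype α] in
theorem padW_length (u : List α) (m : ℕ) : (padW u m).length = u.length + m := by
  simp [padW]

omit [Fintype α] in
theorem padW_lead (u : List α) (m : ℕ) :
    ((padW u m).takeWhile Option.isSome).length = u.length := by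
  have h : (padW u m).takeWhile Option.isSome = u.map some := by
    unfold padW
    induction u with
    | nil => cases m <;> simp [List.replicate_succ]
    | cons a u ih => simp [ih]
  rw [h, List.length_map]

omit [Fintype α] in
theorem padW_get (u : List α) (m : ℕ) (i : ℕ) :
    ((padW u m)[i]?).join = u[i]? := by
  unfold padW
  rcases lt_or_ge i u.length with h | h
  · rw [List.getElem?_append_left (by simpa using h)]
    simp [h]
  · rw [List.getElem?_append_right (by simpa using h), List.getElem?_replicate,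
      List.getElem?_eq_none h]
    split_ifs <;> rfl

end

end Pool.Agent.Helper17.UL
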