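import Pool.Agent.Helper17.UL.EvDefs
import Pool.Agent.Helper68.UL.Arith

set_option autoImplicit false

/-!
E2b: the coefficient of a selector is computable.
-/

namespace Pool.Agent.Helper17.UL

open Pool.Agent.Helper17.SL Pool.Agent.Helper6

section Pre

variable {β V : Type} [Finite V]

theorem FL.ofEmpty7 {f : List β → ℕ} (hf : FL β Empty (fun w _ => f w)) :
    FL β V (fun w _ => f w) :=
  FL.comp hf (g := fun e => nomatch e) (fun e => nomatch e)

/-- bounded iteration of a single value with an index -/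
theorem FL.iterIdx1 {F : List β → ℕ → ℕ → (V → ℕ) → ℕ}
    (hF : FL β (Unit ⊕ (V ⊕ Unit)) (fun w z =>
      F w (z (Sum.inl ())) (z (Sum.inr (Sum.inr ()))) (fun v => z (Sum.inr (Sum.inl v)))))
    {i c : List β → (V → ℕ) → ℕ} (hi : FL β V i) (hc : FL β V c) :
    FL β V (fun w x => Nat.rec (motive := fun _ => ℕ) (i w x) (fun m y => F w y m x) (c w x)) := by
  have h := FL.iterIdx (U := Unit) (V := V) (F := fun _ w z =>
      F w (z (Sum.inl ())) (z (Sum.inr (Sum.inr ()))) (fun v => z (Sum.inr (Sum.inl v))))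
    (fun _ => hF) (init := fun _ => i) (fun _ => hi) hc ()
  refine FL.congr h ?_
  intro w x _
  generalize c w x = n
  have key : ∀ n : ℕ, (Nat.rec (motive := fun _ => ℕ) (i w x) (fun m y => F w y m x) n : ℕ) =
      (Nat.rec (motive := fun _ => Unit → ℕ) (fun _ => i w x)
        (fun m y _ => F w (y ()) m x) n : Unit → ℕ) () := by
    intro n
    induction n with
    | zero => rfl
    | succ n ih =>
      show F w _ n x = F w _ n x
      rw [ih]
  exact key n

end Pre

/-! ### Arithmetic -/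

theorem digit_sum7 (f : ℕ) (hf : 0 < f) : ∀ (b : ℕ) (c : Fin b → ℕ), (∀ i, c i < f) →
    ∀ j : Fin b, (∑ i : Fin b, c i * f ^ (i : ℕ)) / f ^ (j : ℕ) % f = c j
  | 0, _, _, j => j.elim0
  | b + 1, c, hc, j => by
    rw [Fin.sum_univ_succ]
    have h1 : ∑ i : Fin b, c i.succ * f ^ ((i.succ : Fin (b + 1)) : ℕ) =
        f * ∑ i : Fin b, c i.succ * f ^ (i : ℕ) := by
      rw [Finset.mul_sum]
      refine Finset.sum_congr rfl (fun i _ => ?_)
      rw [Fin.val_succ, pow_succ]
      ring
    rw [h1]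
    refine Fin.cases ?_ (fun j => ?_) j
    · simp only [Fin.val_zero, pow_zero, mul_one, Nat.div_one, Nat.add_mul_mod_self_left]
      exact Nat.mod_eq_of_lt (hc 0)
    · have ih := digit_sum7 f hf b (fun i => c i.succ) (fun i => hc _) j
      have h2 : (c 0 * f ^ ((0 : Fin (b + 1)) : ℕ) + f * ∑ i : Fin b, c i.succ * f ^ (i : ℕ)) / f =
          ∑ i : Fin b, c i.succ * f ^ (i : ℕ) := by
        simp only [Fin.val_zero, pow_zero, mul_one]
        rw [Nat.add_mul_div_left _ _ hf, Nat.div_eq_of_lt (hc 0), zero_add]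
      rw [Fin.val_succ, pow_succ', ← Nat.div_div_eq_div_mul, h2]
      exact ih

theorem blkNum_digit {f b : ℕ} [NeZero f] (x : Blk (ZMod f) b) (j : Fin b) :
    blkNum x / f ^ (j : ℕ) % f = (x j).val :=
  digit_sum7 f (NeZero.pos f) b (fun i => (x i).val) (fun i => ZMod.val_lt _) j

theorem val_of_cast {f : ℕ} {z : ZMod f} {n : ℕ} (h : (n : ZMod f) = z) : z.val = n % f := by
  rw [← h, ZMod.val_natCast]

/-- The factor number `i` of the indicator polynomial. -/
def facN (f len u X i : ℕ) : ℕ :=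
  if u / min (2 ^ i) (len + 1) % min 2 (len + 1) = 1 then X / min (f ^ i) (len + 1) % f
  else min (1 + f) (len + 1) - X / min (f ^ i) (len + 1) % f

/-- The indicator polynomial. -/
def dlN (f b len u X : ℕ) : ℕ :=
  Nat.rec (motive := fun _ => ℕ) 1 (fun i P => min (P * facN f len u X i) (len + 1) % f) b

/-- The term number `m` of the coefficient. -/
def termN (f b len : ℕ) (sel : ℕ → ℕ → ℕ) (s X Y m : ℕ) : ℕ :=
  if sel (m / min (2 ^ b) (len + 1)) (m % min (2 ^ b) (len + 1)) = s then
    min (dlN f b len (m / min (2 ^ b) (len + 1)) X * dlN f b len (m % min (2 ^ b) (len + 1)) Y)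
      (len + 1) % f
  else 0

/-- The coefficient. -/
def coefN (f b len : ℕ) (sel : ℕ → ℕ → ℕ) (s X Y : ℕ) : ℕ :=
  Nat.rec (motive := fun _ => ℕ) 0
    (fun m acc => min (acc + termN f b len sel s X Y m) (len + 1) % f)
    (min (min (2 ^ b) (len + 1) * min (2 ^ b) (len + 1)) (len + 1))

section Sem

variable {f b len : ℕ}

theorem LongFor.two_le (h : LongFor len f b) : 2 ≤ f := h.pr.two_le

theorem LongFor.four_le (h : LongFor len f b) : 4 ≤ len := by
  have := h.ff
  have := h.two_le
  nlinarith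

theorem LongFor.pow_le (h : LongFor len f b) {i : ℕ} (hi : i < b) : f ^ i ≤ len :=
  le_trans (Nat.pow_le_pow_right (by have := h.two_le; omega) hi.le) h.fb

theorem LongFor.pow2_le (h : LongFor len f b) {i : ℕ} (hi : i ≤ 2 * b) : 2 ^ i ≤ len :=
  le_trans (Nat.pow_le_pow_right (by norm_num) hi) h.bb

theorem facN_cast (h : LongFor len f b) (u : ℕ) (x : Blk (ZMod f) b) (i : Fin b) :
    (facN f len u (blkNum x) i : ZMod f) = (if u / 2 ^ (i : ℕ) % 2 = 1 then x i else 1 - x i) ∧
      facN f len u (blkNum x) i ≤ 1 + f := by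
  have : NeZero f := ⟨by have := h.two_le; omega⟩
  have h1 := h.pow_le i.2
  have h2 := h.pow2_le (i := (i : ℕ)) (by have := i.2; omega)
  have h3 := h.four_le
  have h4 := h.ff
  have h5 := h.two_le
  have h6 : 1 + f ≤ len + 1 := by nlinarith
  have h7 := ZMod.val_lt (x i)
  unfold facN
  rw [min_eq_left (show 2 ^ (i : ℕ) ≤ len + 1 by omega), min_eq_left (show 2 ≤ len + 1 by omega),
    min_eq_left (show f ^ (i : ℕ) ≤ len + 1 by omega), min_eq_left h6, blkNum_digit]
  by_cases h8 : u / 2 ^ (i : ℕ) % 2 = 1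
  · rw [if_pos h8, if_pos h8]
    exact ⟨ZMod.natCast_zmod_val _, by omega⟩
  · rw [if_neg h8, if_neg h8]
    refine ⟨?_, by omega⟩
    rw [Nat.cast_sub (by omega)]
    push_cast
    rw [ZMod.natCast_self, ZMod.natCast_zmod_val]
    ring

theorem dlN_eq (h : LongFor len f b) (u : ℕ) (x : Blk (ZMod f) b) :
    dlN f b len u (blkNum x) = (dlB f b u x).val := by
  have : NeZero f := ⟨by have := h.two_le; omega⟩
  have : Fact (1 < f) := ⟨by have := h.two_le; omega⟩
  have h4 := h.ff
  have h5 := h.two_le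
  let fa : ℕ → ZMod f := fun i => if hi : i < b then
    (if u / 2 ^ i % 2 = 1 then x ⟨i, hi⟩ else 1 - x ⟨i, hi⟩) else 1
  have key : ∀ k ≤ b, (Nat.rec (motive := fun _ => ℕ) 1
      (fun i P => min (P * facN f len u (blkNum x) i) (len + 1) % f) k : ℕ) =
      (∏ i ∈ Finset.range k, fa i).val := by
    intro k
    induction k with
    | zero =>
      intro _
      rw [Finset.range_zero, Finset.prod_empty, ZMod.val_one]
      rfl
    | succ k ih =>
      intro hk
      show min (_ * facN f len u (blkNum x) k) (len + 1) % f = _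
      rw [ih (by omega), Finset.prod_range_succ]
      obtain ⟨h6, h7⟩ := facN_cast h u x ⟨k, by omega⟩
      have h8 := ZMod.val_lt (∏ i ∈ Finset.range k, fa i)
      have h9 : (∏ i ∈ Finset.range k, fa i).val * facN f len u (blkNum x) k ≤ len + 1 := by
        have : (∏ i ∈ Finset.range k, fa i).val * facN f len u (blkNum x) k ≤ (f - 1) * (1 + f) :=
          Nat.mul_le_mul (by omega) h7
        have h10 : (f - 1) * (1 + f) ≤ f ^ 2 := by
          obtain ⟨m, rfl⟩ : ∃ m, f = m + 1 := ⟨f - 1, by omega⟩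
          simp only [Nat.add_sub_cancel]
          nlinarith
        omega
      rw [min_eq_left h9]
      symm
      apply val_of_cast
      rw [Nat.cast_mul, ZMod.natCast_zmod_val]
      congr 1
      rw [h6]
      simp only [fa, dif_pos (show k < b by omega)]
  unfold dlN dlB
  rw [key b le_rfl, Finset.prod_range]
  congr 1
  refine Finset.prod_congr rfl (fun i _ => ?_)
  simp only [fa, dif_pos i.2]

theorem sum_range_mul' {M : Type} [AddCommMonoid M] (g : ℕ → ℕ → M) (a c : ℕ) (hc : 0 < c) :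
    ∑ m ∈ Finset.range (a * c), g (m / c) (m % c) =
      ∑ i ∈ Finset.range a, ∑ j ∈ Finset.range c, g i j := by
  induction a with
  | zero => simp
  | succ a ih =>
    rw [Nat.succ_mul, Finset.sum_range_add, ih, Finset.sum_range_succ]
    congr 1
    refine Finset.sum_congr rfl (fun j hj => ?_)
    rw [Finset.mem_range] at hj
    rw [mul_comm a c, Nat.mul_add_div hc, Nat.div_eq_of_lt hj, Nat.mul_add_mod,
      Nat.mod_eq_of_lt hj, add_zero]

theorem coefN_eq (h : LongFor len f b) {A : Type} (S : Scheme A) (a : A) (s : ℕ)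
    (x y : Blk (ZMod f) b) :
    coefN f b len (S.sel a) s (blkNum x) (blkNum y) = (coef S f b a s x y).val := by
  have : NeZero f := ⟨by have := h.two_le; omega⟩
  have h4 := h.ff
  have h5 := h.two_le
  have hD : 2 ^ b ≤ len := h.pow2_le (by omega)
  have hD2 : 2 ^ b * 2 ^ b ≤ len := by
    have := h.bb
    rwa [two_mul, pow_add] at this
  have hD0 : 0 < 2 ^ b := Nat.pow_pos (by norm_num)
  let T : ℕ → ZMod f := fun m => if S.sel a (m / 2 ^ b) (m % 2 ^ b) = s then
    dlB f b (m / 2 ^ b) x * dlB f b (m % 2 ^ b) y else 0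
  have hT : ∀ m, termN f b len (S.sel a) s (blkNum x) (blkNum y) m = (T m).val := by
    intro m
    unfold termN
    simp only [T]
    rw [min_eq_left (show 2 ^ b ≤ len + 1 by omega)]
    by_cases h6 : S.sel a (m / 2 ^ b) (m % 2 ^ b) = s
    · rw [if_pos h6, if_pos h6, dlN_eq h, dlN_eq h]
      have h7 := ZMod.val_lt (dlB f b (m / 2 ^ b) x)
      have h8 := ZMod.val_lt (dlB f b (m % 2 ^ b) y)
      rw [min_eq_left, ZMod.val_mul]
      have : (dlB f b (m / 2 ^ b) x).val * (dlB f b (m % 2 ^ b) y).val ≤ f * f :=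
        Nat.mul_le_mul h7.le h8.le
      nlinarith
    · rw [if_neg h6, if_neg h6, ZMod.val_zero]
  have key : ∀ k : ℕ, (Nat.rec (motive := fun _ => ℕ) 0 (fun m acc =>
      min (acc + termN f b len (S.sel a) s (blkNum x) (blkNum y) m) (len + 1) % f) k : ℕ) =
      (∑ m ∈ Finset.range k, T m).val := by
    intro k
    induction k with
    | zero =>
      rw [Finset.range_zero, Finset.sum_empty, ZMod.val_zero]
      rfl
    | succ k ih =>
      show min (_ + termN f b len (S.sel a) s (blkNum x) (blkNum y) k) (len + 1) % f = _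
      rw [ih, Finset.sum_range_succ, hT]
      have h7 := ZMod.val_lt (∑ m ∈ Finset.range k, T m)
      have h8 := ZMod.val_lt (T k)
      rw [min_eq_left, ZMod.val_add]
      nlinarith
  unfold coefN coef
  rw [min_eq_left (show 2 ^ b ≤ len + 1 by omega), min_eq_left (show 2 ^ b * 2 ^ b ≤ len + 1 by
    omega), key]
  congr 1
  exact sum_range_mul' (fun u₁ u₂ => if S.sel a u₁ u₂ = s then
    dlB f b u₁ x * dlB f b u₂ y else 0) _ _ hD0

end Sem

section FLs

variable {β U V : Type} [Finite U] [Finite V] {f b : List β → ℕ}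

theorem facN_FL (hf : FL β Empty (fun w _ => f w)) {u X i : List β → (V → ℕ) → ℕ}
    (hu : FL β V u) (hX : FL β V X) (hi : FL β V i) :
    FL β V (fun w z => facN (f w) w.length (u w z) (X w z) (i w z)) := by
  have hf' : FL β V (fun w _ => f w) := FL.ofEmpty7 hf
  have h1 : FL β V (fun w z => X w z / min (f w ^ i w z) (w.length + 1) % f w) :=
    (hX.div (hf'.pow hi)).mod hf'
  exact FL.ite (R := fun w z => u w z / min (2 ^ i w z) (w.length + 1) %
      min 2 (w.length + 1) = 1)
    (isL_eq ((hu.div hi.pow2).mod (FL.const 2)) FL.one) h1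
    ((FL.add FL.one hf').sub h1)

theorem dlN_FL (hf : FL β Empty (fun w _ => f w)) (hb : FL β Empty (fun w _ => b w))
    {u X : List β → (V → ℕ) → ℕ} (hu : FL β V u) (hX : FL β V X) :
    FL β V (fun w z => dlN (f w) (b w) w.length (u w z) (X w z)) := by
  have h : FL β Bool (fun w z => dlN (f w) (b w) w.length (z false) (z true)) :=
    FL.iterIdx1 (V := Bool) (F := fun w P i z =>
        min (P * facN (f w) w.length (z false) (z true) i) (w.length + 1) % f w)
      (((FL.proj _).mul (facN_FL hf (FL.proj _) (FL.proj _) (FL.proj _))).mod (FL.ofEmpty7 hf))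
      FL.one (FL.ofEmpty7 hb)
  exact FL.comp h (g := fun c => bif c then X else u) (by rintro (_ | _) <;> assumption)

theorem coef_FL (S : List β → Scheme (U → ℕ)) (hS : SchemeFL β U S)
    (hf : FL β Empty (fun w _ => f w)) (hb : FL β Empty (fun w _ => b w)) :
    ∃ g : List β → (U → ℕ) → ℕ → ℕ → ℕ → ℕ,
      FL β (U ⊕ Fin 3) (fun w z =>
        g w (z ∘ Sum.inl) (z (Sum.inr 0)) (z (Sum.inr 1)) (z (Sum.inr 2))) ∧
      ∀ w, LongFor w.length (f w) (b w) → ∀ (a : U → ℕ) (s : ℕ)
        (x y : Blk (ZMod (f w)) (b w)), (∀ u, a u ≤ w.length + 1) → s ≤ w.length + 1 →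
        g w a s (blkNum x) (blkNum y) = (coef (S w) (f w) (b w) a s x y).val := by
  refine ⟨fun w a s X Y => coefN (f w) (b w) w.length ((S w).sel a) s X Y, ?_,
    fun w h a s x y _ _ => coefN_eq h (S w) a s x y⟩
  have hD : ∀ {V : Type} [Finite V], FL β V (fun w _ => min (2 ^ b w) (w.length + 1)) :=
    fun {V} _ => (FL.ofEmpty7 hb).pow2
  refine FL.iterIdx1 (V := U ⊕ Fin 3) (F := fun w acc m z =>
      min (acc + termN (f w) (b w) w.length ((S w).sel (z ∘ Sum.inl)) (z (Sum.inr 0))
        (z (Sum.inr 1)) (z (Sum.inr 2)) m) (w.length + 1) % f w) ?_ FL.zero (hD.mul hD)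
  refine FL.mod (FL.add (FL.proj _) ?_) (FL.ofEmpty7 hf)
  have hm : FL β (Unit ⊕ ((U ⊕ Fin 3) ⊕ Unit)) (fun _ z => z (Sum.inr (Sum.inr ()))) :=
    FL.proj _
  have h1 := hm.div hD
  have h2 := hm.mod hD
  have h3 : FL β (Unit ⊕ ((U ⊕ Fin 3) ⊕ Unit)) (fun w z =>
      (S w).sel (fun u => z (Sum.inr (Sum.inl (Sum.inl u))))
        (z (Sum.inr (Sum.inr ())) / min (2 ^ b w) (w.length + 1))
        (z (Sum.inr (Sum.inr ())) % min (2 ^ b w) (w.length + 1))) :=
    FL.comp hS.sel (g := fun v w z => match v with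
      | Sum.inl u => z (Sum.inr (Sum.inl (Sum.inl u)))
      | Sum.inr false => z (Sum.inr (Sum.inr ())) / min (2 ^ b w) (w.length + 1)
      | Sum.inr true => z (Sum.inr (Sum.inr ())) % min (2 ^ b w) (w.length + 1)) (by
        rintro (u | _ | _)
        · exact FL.proj _
        · exact h1
        · exact h2)
  exact FL.ite (isL_eq h3 (FL.proj _))
    ((FL.mul (dlN_FL hf hb h1 (FL.proj _)) (dlN_FL hf hb h2 (FL.proj _))).mod (FL.ofEmpty7 hf))
    FL.zero

end FLs

end Pool.Agent.Helper17.UL
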