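import Pool.Agent.Helper17.SL.Gadget

set_option autoImplicit false

/-!
Uniform version: schemes (masked recursion with a selection), their values, the list of
instructions generated by a scheme, and its numeric form.
-/

namespace Pool.Agent.Helper17.UL

open Pool.Agent.Helper17.SL

/-- A recursion scheme on nonterminals `A`, with values in `ℕ` (below `2 ^ b`):
a leaf has the value `leafVal`; otherwise the value of `a` is that of
`kap a (sel a u₁ u₂)`, where `u₁`, `u₂` are the values of `c1 a`, `c2 a`. The selector has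
`dig a` digits in radix `r`. -/
structure Scheme (A : Type) where
  isLeaf : A → Prop
  leafVal : A → ℕ
  c1 : A → A
  c2 : A → A
  sel : A → ℕ → ℕ → ℕ
  kap : A → ℕ → A
  dig : A → ℕ

open Classical in
/-- Value, with fuel. -/
noncomputable def Scheme.val {A : Type} (S : Scheme A) : ℕ → A → ℕ
  | 0, a => S.leafVal a
  | n + 1, a => if S.isLeaf a then S.leafVal a
      else S.val n (S.kap a (S.sel a (S.val n (S.c1 a)) (S.val n (S.c2 a))))

/-- `dep` bounds the depth on the good nonterminals `G`; values are below `2 ^ b`, selectors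
below `r ^ dig`. -/
structure Scheme.Ok {A : Type} (S : Scheme A) (G : A → Prop) (dep : A → ℕ) (b r : ℕ) : Prop where
  leaf_lt : ∀ a, G a → S.isLeaf a → S.leafVal a < 2 ^ b
  g1 : ∀ a, G a → ¬ S.isLeaf a → G (S.c1 a)
  g2 : ∀ a, G a → ¬ S.isLeaf a → G (S.c2 a)
  gk : ∀ a, G a → ¬ S.isLeaf a → ∀ s < r ^ S.dig a, G (S.kap a s)
  d1 : ∀ a, G a → ¬ S.isLeaf a → dep (S.c1 a) + 1 ≤ dep a
  d2 : ∀ a, G a → ¬ S.isLeaf a → dep (S.c2 a) + 1 ≤ dep a
  dk : ∀ a, G a → ¬ S.isLeaf a → ∀ s < r ^ S.dig a, dep (S.kap a s) + S.dig a + 2 ≤ dep a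
  sel_lt : ∀ a, G a → ¬ S.isLeaf a → ∀ u₁ < 2 ^ b, ∀ u₂ < 2 ^ b, S.sel a u₁ u₂ < r ^ S.dig a

/-- Items: nonterminals of the grammar of instructions and instructions. Tags: `0` add the value
of `a` to the block `j`; `1` the sum over selectors (`t` digits to come, `s` the digits so far);
`2` add a leaf value; `3` scale the blocks `j + 1`, `j + 2` by `s`; `4` scale them by the inverse
of `s`; `5` add the coefficient of `s` times the block `j + 3` to the block `j`; `6` nothing.
`sg = 0` is the sign `+`, other values of `sg` the sign `-`. -/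
structure Item (A : Type) where
  tag : ℕ
  sg : ℕ
  j : ℕ
  t : ℕ
  s : ℕ
  a : A

open Classical in
/-- The `c`-th item of the expansion of `it`. -/
noncomputable def rule {A : Type} (S : Scheme A) (r f : ℕ) (it : Item A) (c : ℕ) : Item A :=
  if it.tag = 0 then
    if S.isLeaf it.a then (if c = 0 then ⟨2, it.sg, it.j, 0, 0, it.a⟩ else ⟨6, 0, 0, 0, 0, it.a⟩)
    else if f ≤ c / 7 + 1 then ⟨6, 0, 0, 0, 0, it.a⟩
    else if c % 7 = 0 then ⟨3, 0, it.j, 0, c / 7 + 1, it.a⟩
    else if c % 7 = 1 then ⟨0, 0, (it.j + 1) % 4, 0, 0, S.c1 it.a⟩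
    else if c % 7 = 2 then ⟨0, 0, (it.j + 2) % 4, 0, 0, S.c2 it.a⟩
    else if c % 7 = 3 then ⟨1, it.sg, it.j, S.dig it.a, 0, it.a⟩
    else if c % 7 = 4 then ⟨0, 1, (it.j + 2) % 4, 0, 0, S.c2 it.a⟩
    else if c % 7 = 5 then ⟨0, 1, (it.j + 1) % 4, 0, 0, S.c1 it.a⟩
    else ⟨4, 0, it.j, 0, c / 7 + 1, it.a⟩
  else if it.tag = 1 then
    if it.t = 0 then
      if c = 0 then ⟨5, it.sg, it.j, 0, it.s, it.a⟩
      else if c = 1 then ⟨0, 0, (it.j + 3) % 4, 0, 0, S.kap it.a it.s⟩
      else if c = 2 then ⟨5, 1 - it.sg, it.j, 0, it.s, it.a⟩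
      else if c = 3 then ⟨0, 1, (it.j + 3) % 4, 0, 0, S.kap it.a it.s⟩
      else ⟨6, 0, 0, 0, 0, it.a⟩
    else ⟨1, it.sg, it.j, it.t - 1, it.s * r + c, it.a⟩
  else if c = 0 then it
  else ⟨6, 0, 0, 0, 0, it.a⟩

/-- The items at depth `n` below `it`. -/
noncomputable def gen {A : Type} (S : Scheme A) (r f : ℕ) : ℕ → Item A → List (Item A)
  | 0, it => [it]
  | n + 1, it => (List.range r).flatMap (fun c => gen S r f n (rule S r f it c))

/-- The item number `pc` of `gen n it`. -/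
noncomputable def walk {A : Type} (S : Scheme A) (r f : ℕ) : ℕ → Item A → ℕ → Item A
  | 0, it, _ => it
  | n + 1, it, pc => walk S r f n (rule S r f it (pc / r ^ n)) (pc % r ^ n)

/-- The block with number `j`. -/
def f4 (j : ℕ) : Fin 4 := ⟨j % 4, Nat.mod_lt _ (by norm_num)⟩

/-- The bits of `v` as a block. -/
def nb (f b v : ℕ) : Blk (ZMod f) b := fun i => ((v / 2 ^ (i : ℕ) % 2 : ℕ) : ZMod f)

/-- The indicator polynomial of `u`. -/
def dlB (f b u : ℕ) (x : Blk (ZMod f) b) : ZMod f :=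
  ∏ i : Fin b, if u / 2 ^ (i : ℕ) % 2 = 1 then x i else 1 - x i

/-- The coefficient of the selector `s`. -/
def coef {A : Type} (S : Scheme A) (f b : ℕ) (a : A) (s : ℕ) (x y : Blk (ZMod f) b) : ZMod f :=
  ∑ u₁ ∈ Finset.range (2 ^ b), ∑ u₂ ∈ Finset.range (2 ^ b),
    if S.sel a u₁ u₂ = s then dlB f b u₁ x * dlB f b u₂ y else 0

/-- The sign. -/
def sgn (f sg : ℕ) : ZMod f := if sg = 0 then 1 else -1

/-- Effect of an item on the registers (items with tags `0`, `1` and `6` have none). -/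
def exec {A : Type} (S : Scheme A) (f b : ℕ) (it : Item A) (R : Reg (ZMod f) b) :
    Reg (ZMod f) b :=
  if it.tag = 2 then Function.update R (f4 it.j)
    (R (f4 it.j) + sgn f it.sg • nb f b (S.leafVal it.a))
  else if it.tag = 3 then
    fun k => if k = f4 it.j + 1 ∨ k = f4 it.j + 2 then (it.s : ZMod f) • R k else R k
  else if it.tag = 4 then
    fun k => if k = f4 it.j + 1 ∨ k = f4 it.j + 2 then (it.s : ZMod f)⁻¹ • R k
      else R k
  else if it.tag = 5 then Function.update R (f4 it.j)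
    (R (f4 it.j) + (sgn f it.sg * coef S f b it.a it.s (R (f4 it.j + 1))
      (R (f4 it.j + 2))) • R (f4 it.j + 3))
  else R

/-- Run a list of items. -/
def runL {A : Type} (S : Scheme A) (f b : ℕ) (l : List (Item A)) (R : Reg (ZMod f) b) :
    Reg (ZMod f) b :=
  l.foldl (fun R it => exec S f b it R) R

end Pool.Agent.Helper17.UL
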