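import Pool.Agent.Helper17.UL.FLDef
import Pool.Agent.Helper17.UL.SchemeDef

set_option autoImplicit false

/-!
Uniform version: schemes whose functions are computable by two-way multihead deterministic
finite automata.
-/

namespace Pool.Agent.Helper17.UL

open Pool.Agent.Helper17.SL Pool.Agent.Helper6

/-- The functions of the scheme `S w` on number tuples are computable. -/
structure SchemeFL (β U : Type) (S : List β → Scheme (U → ℕ)) : Prop where
  isLeaf : IsL β U (fun w a => (S w).isLeaf a)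
  leafVal : FL β U (fun w a => (S w).leafVal a)
  c1 : ∀ u, FL β U (fun w a => (S w).c1 a u)
  c2 : ∀ u, FL β U (fun w a => (S w).c2 a u)
  sel : FL β (U ⊕ Bool) (fun w z =>
    (S w).sel (z ∘ Sum.inl) (z (Sum.inr false)) (z (Sum.inr true)))
  kap : ∀ u, FL β (U ⊕ Unit) (fun w z => (S w).kap (z ∘ Sum.inl) (z (Sum.inr ())) u)
  dig : FL β U (fun w a => (S w).dig a)

/-- Two schemes agree on the good nonterminals. -/
structure Scheme.Agree {A : Type} (S S' : Scheme A) (G : A → Prop) (b r : ℕ) : Prop where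
  isLeaf : ∀ a, G a → (S.isLeaf a ↔ S'.isLeaf a)
  leafVal : ∀ a, G a → S'.isLeaf a → S.leafVal a = S'.leafVal a
  c1 : ∀ a, G a → ¬ S'.isLeaf a → S.c1 a = S'.c1 a
  c2 : ∀ a, G a → ¬ S'.isLeaf a → S.c2 a = S'.c2 a
  dig : ∀ a, G a → ¬ S'.isLeaf a → S.dig a = S'.dig a
  sel : ∀ a, G a → ¬ S'.isLeaf a → ∀ u₁ < 2 ^ b, ∀ u₂ < 2 ^ b, S.sel a u₁ u₂ = S'.sel a u₁ u₂
  kap : ∀ a, G a → ¬ S'.isLeaf a → ∀ s < r ^ S'.dig a, S.kap a s = S'.kap a s

/-- Computable on a domain. -/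
def FLon (β V : Type) (D : List β → (V → ℕ) → Prop) (f : List β → (V → ℕ) → ℕ) : Prop :=
  ∃ g, FL β V g ∧ ∀ w x, (∀ v, x v ≤ w.length + 1) → D w x → g w x = f w x

end Pool.Agent.Helper17.UL
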