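import Pool.Agent.Helper17.UL.SchemeDef
import Pool.Agent.Helper17.SL.Sim

set_option autoImplicit false

/-!
Uniform version: numeric form of the functions `Phi`, and their recursion scheme on number
tuples. A value is a tuple of `c + 2` numbers, the first one its time, the second one its height.
-/

namespace Pool.Agent.Helper17.UL

open Pool.Agent.Helper17.SL

/-! ### codes of tuples by numbers -/

/-- Position of an index. -/
noncomputable def pos {I : Type} [Fintype I] (i : I) : ℕ := Fintype.equivFin I i

/-- The tuple `a` as a number in base `B`. -/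
noncomputable def encI {I : Type} [Fintype I] (B : ℕ) (a : I → ℕ) : ℕ := ∑ i, a i * B ^ pos i

/-- The tuple coded by `s` in base `B`. -/
noncomputable def decI {I : Type} [Fintype I] (B : ℕ) (s : ℕ) (i : I) : ℕ := s / B ^ pos i % B

/-- Components of a result: `tag` is `0` (none), `1` (popped `x`), `2` (done `x` `u`). -/
inductive RI (c : ℕ) where
  | tag
  | x (i : Fin (c + 2))
  | u (i : Fin (c + 2))
  deriving DecidableEq, Fintype

/-- Components of a cell: phase, current value, tag (`0` none, `1` some) and value of the best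
value, result, height of the macro stack, tag and value of the entry. -/
inductive CI (c : ℕ) where
  | ph
  | cur (i : Fin (c + 2))
  | bt
  | best (i : Fin (c + 2))
  | ft
  | fx (i : Fin (c + 2))
  | fu (i : Fin (c + 2))
  | len
  | et
  | en (i : Fin (c + 2))
  deriving DecidableEq, Fintype

/-- Components of a nonterminal. -/
inductive NI (c : ℕ) where
  | tag
  | d
  | i
  | l
  | s
  | g (j : Fin (c + 2))
  | x (j : Fin (c + 2))
  deriving DecidableEq, Fintype

section numeric

variable {c : ℕ}

/-- The result `popped v`. -/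
def nPopped (v : Fin (c + 2) → ℕ) : RI c → ℕ
  | .tag => 1
  | .x i => v i
  | .u _ => 0

/-- Numeric form of `cellComb`. -/
def nComb (P : ℕ) (g x : Fin (c + 2) → ℕ) (m l : ℕ) (a : CI c → ℕ) (r : RI c → ℕ) : CI c → ℕ :=
  fun q =>
  if a .ft ≠ 0 then a q
  else if a .ph = 0 ∧ blk P (g 0) ≤ a (.cur 0) then
    (match q with
      | .ph => 1
      | .cur i => x i
      | q => a q)
  else if a .ph = 1 ∧ blk P (x 0) ≤ a (.cur 0) then
    (match q with
      | .ft => 2
      | .fx i => a (.cur i)
      | .fu i => if a .bt = 0 then a (.cur i) else a (.best i)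
      | q => a q)
  else if r .tag = 0 then
    (match q with
      | .ft => 1
      | .fx i => a (.cur i)
      | .fu _ => 0
      | q => a q)
  else if r .tag = 1 then
    (match q with
      | .cur i => r (.x i)
      | .len => a .len - 1
      | .et => if l + 1 = a .len then 0 else a .et
      | .en i => if l + 1 = a .len then 0 else a (.en i)
      | q => a q)
  else
    (match q with
      | .cur i => r (.x i)
      | .bt => if a .ph = 1 then 1 else 0
      | .best i => if a .ph = 1 then
          (if a .bt = 0 ∨ r (.u 1) ≤ a (.best 1) then r (.u i) else a (.best i)) else 0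
      | .len => min (a .len + 1) m
      | .et => if l = a .len then 1 else a .et
      | .en i => if l = a .len then r (.u i) else a (.en i)
      | q => a q)

/-- The initial cell. -/
def nInit (g x : Fin (c + 2) → ℕ) (l : ℕ) : CI c → ℕ
  | .ph => if g 0 = x 0 then 1 else 0
  | .cur i => if g 0 = x 0 then x i else g i
  | .len => 1
  | .et => if l = 0 then 1 else 0
  | .en i => if l = 0 then g i else 0
  | _ => 0

/-- A nonterminal. -/
def mkN (tag d i l s : ℕ) (g x : Fin (c + 2) → ℕ) : NI c → ℕ
  | .tag => tag
  | .d => d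
  | .i => i
  | .l => l
  | .s => s
  | .g j => g j
  | .x j => x j

/-- Parameters: base `B` of the codes, number of bits `b`, branching `M`, size `m` of the macro
tableau, number `t2` of digits of the selectors. -/
structure Prm where
  B : ℕ
  b : ℕ
  M : ℕ
  m : ℕ
  t2 : ℕ

/-- The recursion scheme of `Phi`. Nonterminals: tag `0` the constant `s`; tag `1`
`Phi d g x`; tag `2` the cell `l` at macro time `i` in the call of `Phi (d + 1) g x`; tag `3` the
answer to the call of the macro machine at macro time `i`; tag `4` the cell with the top entry. -/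
noncomputable def PhiS (p : Prm) (phi0N : (Fin (c + 2) → ℕ) → (Fin (c + 2) → ℕ) → RI c → ℕ) :
    Scheme (NI c → ℕ) where
  isLeaf a := a .tag = 0 ∨ (a .tag = 1 ∧ (a .d = 0 ∨ a (.x 1) < a (.g 1))) ∨
    (a .tag = 2 ∧ a .i = 0) ∨ 4 < a .tag
  leafVal a :=
    if a .tag = 0 then a .s % 2 ^ p.b
    else if a .tag = 1 then
      (if a (.x 1) < a (.g 1) then encI p.B (nPopped fun j => a (.x j))
        else encI p.B (phi0N (fun j => a (.g j)) (fun j => a (.x j)))) % 2 ^ p.b
    else if a .tag = 2 then
      encI p.B (nInit (fun j => a (.g j)) (fun j => a (.x j)) (a .l)) % 2 ^ p.b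
    else 0
  c1 a :=
    if a .tag = 1 then mkN 2 (a .d - 1) (4 * p.M + 4) 0 0 (fun j => a (.g j)) (fun j => a (.x j))
    else if a .tag = 2 then
      mkN 2 (a .d) (a .i - 1) (a .l) 0 (fun j => a (.g j)) (fun j => a (.x j))
    else if a .tag = 3 then mkN 4 (a .d) (a .i) 0 0 (fun j => a (.g j)) (fun j => a (.x j))
    else mkN 2 (a .d) (a .i) 0 0 (fun j => a (.g j)) (fun j => a (.x j))
  c2 a :=
    if a .tag = 2 then mkN 3 (a .d) (a .i - 1) 0 0 (fun j => a (.g j)) (fun j => a (.x j))
    else mkN 0 0 0 0 0 0 0
  sel a u₁ u₂ :=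
    if a .tag = 2 then u₁ + 2 ^ p.b * u₂
    else if a .tag = 4 then min (decI p.B u₁ (CI.len : CI c) - 1) (p.m - 1)
    else u₁
  kap a s :=
    if a .tag = 1 then
      mkN 0 0 0 0 (encI p.B (fun r : RI c => match r with
        | .tag => decI p.B s (CI.ft : CI c)
        | .x i => decI p.B s (CI.fx i)
        | .u i => decI p.B s (CI.fu i)) % 2 ^ p.b) 0 0
    else if a .tag = 2 then
      mkN 0 0 0 0 (encI p.B (nComb (p.M ^ (a .d + 1)) (fun j => a (.g j)) (fun j => a (.x j)) p.m
        (a .l) (decI p.B (s % 2 ^ p.b)) (decI p.B (s / 2 ^ p.b % 2 ^ p.b))) % 2 ^ p.b) 0 0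
    else if a .tag = 3 then
      if decI p.B s (CI.et : CI c) = 0 then mkN 0 0 0 0 0 0 0
      else mkN 1 (a .d) 0 0 0 (fun j => decI p.B s (CI.en j)) (fun j => decI p.B s (CI.cur j))
    else mkN 2 (a .d) (a .i) s 0 (fun j => a (.g j)) (fun j => a (.x j))
  dig a := if a .tag = 4 then 1 else p.t2

/-- The depth added by one scale. -/
def Prm.Del (p : Prm) : ℕ := 20 * p.M + 24 + p.t2

/-- The depth of a nonterminal. -/
def PhiDep (p : Prm) (a : NI c → ℕ) : ℕ :=
  if a .tag = 1 then a .d * p.Del
  else if a .tag = 2 then 5 * a .i + p.t2 + 3 + a .d * p.Del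
  else if a .tag = 3 then 5 * a .i + p.t2 + 7 + a .d * p.Del
  else if a .tag = 4 then 5 * a .i + p.t2 + 6 + a .d * p.Del
  else 0

/-- The good nonterminals. -/
def PhiG (p : Prm) (D r : ℕ) (a : NI c → ℕ) : Prop :=
  a .tag ≤ 4 ∧ a .d ≤ D ∧ a .i ≤ 4 * p.M + 4 ∧ a .l < r ∧ a .s < 2 ^ p.b ∧
    ∀ j, a (.g j) < p.B ∧ a (.x j) < p.B

end numeric

/-! ### codes of the abstract values -/

section codes

variable {c : ℕ} {V : Type} (cV : V → Fin (c + 2) → ℕ)

/-- Components of a result. -/
def cRes : Res V → RI c → ℕ
  | .none => fun _ => 0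
  | .popped x => nPopped (cV x)
  | .done z u => fun r => match r with
    | .tag => 2
    | .x i => cV z i
    | .u i => cV u i

/-- Components of a cell. -/
def cCell {m : ℕ} (a : Cell V m) : CI c → ℕ
  | .ph => if a.1.ph then 1 else 0
  | .cur i => cV a.1.cur i
  | .bt => if a.1.best.isSome then 1 else 0
  | .best i => match a.1.best with
    | none => 0
    | some v => cV v i
  | .ft => cRes cV a.1.fin .tag
  | .fx i => cRes cV a.1.fin (.x i)
  | .fu i => cRes cV a.1.fin (.u i)
  | .len => (a.2.1 : ℕ)
  | .et => if a.2.2.isSome then 1 else 0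
  | .en i => match a.2.2 with
    | none => 0
    | some v => cV v i

end codes

end Pool.Agent.Helper17.UL
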