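import Pool.Agent.Helper17.UL.MachEq

set_option autoImplicit false

/-!
Uniform version: bounds for the numeric form of the stack machine.
-/

namespace Pool.Agent.Helper17.UL

open Pool.Agent.Helper17.SL

section

variable {α Q Γ : Type} [Fintype α] [Fintype Q] [Fintype Γ] {k : ℕ}
variable {n T R N : ℕ} [Fintype (Pend Γ R)] {B : ℕ}

theorem ptab_lt {X Y : Type} (c : X → Y) (g : X → ℕ) (p : Y) (hg : ∀ x, g x < B) (hB : 0 < B) :
    ptab c g p < B := by
  unfold ptab
  split_ifs
  · exact hg _
  · exact hB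

/-- The base is large enough. -/
structure BOK (Q Γ : Type) [Fintype Q] [Fintype Γ] (n T R N : ℕ) [Fintype (Pend Γ R)] (B : ℕ) :
    Prop where
  hN : N < B
  hT : T < B
  hn : n + 1 < B
  hQ : Fintype.card Q < B
  hP : Fintype.card (Pend Γ R) < B
  hG : Fintype.card Γ + 1 < B
  h2 : 2 < B

theorem cV_lt (h : BOK Q Γ n T R N B) (v : VT Q Γ k n T R N) (i : Fin (k + 4 + 2)) :
    cV v i < B := by
  revert i
  apply idx_cases
  · rw [cV_0]; have := h.hN; have := v.1.isLt; omega
  · rw [cV_1]; have := h.hN; have := v.2.1.isLt; omega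
  · rw [cV_2]; have := h.hT; have := v.2.2.1.1.isLt; omega
  · rw [cV_3]; have := h.hQ; have := fc_lt v.2.2.1.2.1; omega
  · rw [cV_4]; have := h.hP; have := fc_lt v.2.2.1.2.2.2; omega
  · rw [cV_5]; have := h.hG; have := oc_lt v.2.2.2; omega
  · intro j
    rw [cV_pj]; have := h.hn; have := (v.2.2.1.2.2.1 j).isLt; omega

theorem newc_lt (h : BOK Q Γ n T R N B) (δ : PDTrans α Q Γ k) (F : Q → Bool) (lt : Fin k → ℕ)
    (g x : Fin (k + 4 + 2) → ℕ) (hg : ∀ j, g j < B) (hx : ∀ j, x j < B) (i : Fin (k + 4 + 2)) :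
    newc δ F R N T n lt g x i < B := by
  have h2 := h.h2
  revert i
  apply idx_cases
  · rw [newc_0]; exact lt_of_le_of_lt (min_le_right _ _) h.hN
  · rw [newc_1]
    split_ifs
    · exact lt_of_le_of_lt (min_le_right _ _) h.hN
    · exact hx _
    · exact lt_of_le_of_lt (min_le_right _ _) h.hN
  · rw [newc_2]
    split_ifs
    · exact hx _
    · exact lt_of_le_of_lt (min_le_right _ _) h.hT
  · rw [newc_3]
    split_ifs
    · exact hx _
    · exact ptab_lt _ _ _ (fun y => (fc_lt _).trans h.hQ) (by omega)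
  · rw [newc_4]
    split_ifs
    · exact ptab_lt _ _ _ (fun y => (fc_lt _).trans h.hP) (by omega)
    · exact hx _
    · exact ptab_lt _ _ _ (fun y => (fc_lt _).trans h.hP) (by omega)
  · rw [newc_5]
    split_ifs
    · exact ptab_lt _ _ _ (fun y => (oc_lt _).trans h.hG) (by omega)
    · exact hx _
    · exact hg _
  · intro j
    rw [newc_pj]
    split_ifs
    · exact hx _
    · exact lt_of_le_of_lt (min_le_right _ _) h.hn

theorem phi0num_lt (h : BOK Q Γ n T R N B) (δ : PDTrans α Q Γ k) (F : Q → Bool)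
    (lt : Fin k → ℕ) (g x : Fin (k + 4 + 2) → ℕ) (hg : ∀ j, g j < B) (hx : ∀ j, x j < B)
    (q : RI (k + 4)) : phi0num δ F R N T n lt g x q < B := by
  have h2 := h.h2
  cases q with
  | tag => simp only [phi0num]; split_ifs <;> omega
  | x i =>
    simp only [phi0num]
    split_ifs
    · exact hx _
    · exact newc_lt h δ F lt g x hg hx i
  | u i =>
    simp only [phi0num]
    split_ifs
    · omega
    · exact hx _

end

end Pool.Agent.Helper17.UL
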