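import Pool.Agent.Helper17.UL.Defs3

set_option autoImplicit false

/-!
Uniform version: numeric forms of items and registers.
-/

namespace Pool.Agent.Helper17.UL

open Pool.Agent.Helper17.SL Pool.Agent.Helper6

/-- Components of an item. -/
inductive TI (U : Type) where
  | tag
  | sg
  | j
  | t
  | s
  | a (u : U)

/-- Components of an item. -/
def codeIt {U : Type} (it : Item (U → ℕ)) : TI U → ℕ
  | .tag => it.tag
  | .sg => it.sg
  | .j => it.j
  | .t => it.t
  | .s => it.s
  | .a u => it.a u

instance {U : Type} [Finite U] : Finite (TI U) := by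
  have : Function.Injective (fun x : TI U => (match x with
    | .tag => Sum.inl 0
    | .sg => Sum.inl 1
    | .j => Sum.inl 2
    | .t => Sum.inl 3
    | .s => Sum.inl 4
    | .a u => Sum.inr u : Fin 5 ⊕ U)) := by
    intro x y h
    cases x <;> cases y <;> simp_all
  exact Finite.of_injective _ this

/-- The item with the given components. -/
def itemOf {U : Type} (x : TI U → ℕ) : Item (U → ℕ) :=
  ⟨x .tag, x .sg, x .j, x .t, x .s, fun u => x (.a u)⟩

theorem itemOf_codeIt {U : Type} (it : Item (U → ℕ)) : itemOf (codeIt it) = it := rfl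

/-- Code of a block in base `f`. -/
def blkNum {f b : ℕ} (x : Blk (ZMod f) b) : ℕ := ∑ i : Fin b, (x i).val * f ^ (i : ℕ)

/-- The word is long enough for the parameters `f`, `b`. -/
structure LongFor (len f b : ℕ) : Prop where
  pr : f.Prime
  fb : f ^ b ≤ len
  ff : f ^ 2 ≤ len
  bb : 2 ^ (2 * b) ≤ len

end Pool.Agent.Helper17.UL
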