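import Pool.Agent.Helper17.UL.Sem

set_option autoImplicit false

/-!
Uniform version: semantics of the generated instructions, main induction.
-/

namespace Pool.Agent.Helper17.UL

open Pool.Agent.Helper17.SL

variable {A : Type}

section

variable (S : Scheme A) {r f b : ℕ} {G : A → Prop} {dep : A → ℕ}

/-- The term of the selector `s`. -/
noncomputable def trm (S : Scheme A) (f b : ℕ) (dep : A → ℕ) (a : A) (sg : ℕ)
    (x y : Blk (ZMod f) b) (s : ℕ) : Blk (ZMod f) b :=
  (sgn f sg * coef S f b a s x y) • nb f b (S.vv dep (S.kap a s))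

/-- Statement for items which add a value. -/
def P0 (S : Scheme A) (r f b : ℕ) (G : A → Prop) (dep : A → ℕ) (n : ℕ) : Prop :=
  ∀ a, G a → dep a + 1 ≤ n → ∀ (sg j t s : ℕ) (R : Reg (ZMod f) b),
    eff S r f b n ⟨0, sg, j, t, s, a⟩ R = upd R (f4 j) (sgn f sg • nb f b (S.vv dep a))

/-- Statement for the sums over selectors. -/
def P1 (S : Scheme A) (r f b : ℕ) (G : A → Prop) (dep : A → ℕ) (n : ℕ) : Prop :=
  ∀ a, G a → ¬ S.isLeaf a → ∀ t ≤ S.dig a,
    (∀ s' < r ^ S.dig a, dep (S.kap a s') + t + 2 ≤ n) → ∀ s < r ^ (S.dig a - t),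
    ∀ (sg j : ℕ) (R : Reg (ZMod f) b),
    eff S r f b n ⟨1, sg, j, t, s, a⟩ R = upd R (f4 j)
      (∑ i ∈ Finset.range (r ^ t),
        -(trm S f b dep a sg (R (f4 j + 1)) (R (f4 j + 2)) (s * r ^ t + i)))

theorem exec_five (sg j t s : ℕ) (a : A) (R : Reg (ZMod f) b) :
    exec S f b ⟨5, sg, j, t, s, a⟩ R = upd R (f4 j)
      ((sgn f sg * coef S f b a s (R (f4 j + 1)) (R (f4 j + 2))) • R (f4 j + 3)) := by
  unfold exec upd
  simp

theorem P1_zero (hS : S.Ok G dep b r) (hr7 : 7 ≤ r) {n : ℕ} (h0 : P0 S r f b G dep n) {a : A}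
    (ha : G a) (hl : ¬ S.isLeaf a)
    (hd : ∀ s' < r ^ S.dig a, dep (S.kap a s') + 2 ≤ n + 1) {s : ℕ} (hs : s < r ^ S.dig a)
    (sg j : ℕ) (R : Reg (ZMod f) b) :
    eff S r f b (n + 1) ⟨1, sg, j, 0, s, a⟩ R = upd R (f4 j)
      (-(trm S f b dep a sg (R (f4 j + 1)) (R (f4 j + 2)) s)) := by
  rw [eff_succ, foldl_ge _ 4 r (by omega)]
  · have e0 : rule S r f ⟨1, sg, j, 0, s, a⟩ 0 = ⟨5, sg, j, 0, s, a⟩ := by
      unfold rule
      simp
    have e1 : rule S r f ⟨1, sg, j, 0, s, a⟩ 1 = ⟨0, 0, (j + 3) % 4, 0, 0, S.kap a s⟩ := by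
      unfold rule
      simp
    have e2 : rule S r f ⟨1, sg, j, 0, s, a⟩ 2 = ⟨5, 1 - sg, j, 0, s, a⟩ := by
      unfold rule
      simp
    have e3 : rule S r f ⟨1, sg, j, 0, s, a⟩ 3 = ⟨0, 1, (j + 3) % 4, 0, 0, S.kap a s⟩ := by
      unfold rule
      simp
    have hg := hS.gk a ha hl s hs
    have hdep := hd s hs
    simp only [List.range_succ, List.range_zero, List.nil_append, List.cons_append,
      List.foldl_cons, List.foldl_nil, e0, e1, e2, e3]
    rw [h0 _ hg (by omega), h0 _ hg (by omega), eff_instr S r f b (by omega) n _ (by simp)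
      (by simp), eff_instr S r f b (by omega) n _ (by simp) (by simp), exec_five, exec_five,
      f4_add3]
    funext l
    have n1 := fin4_ne1 (f4 j)
    have n2 := fin4_ne2 (f4 j)
    have n3 := fin4_ne3 (f4 j)
    have n13 := fin4_ne13 (f4 j)
    have n23 := fin4_ne23 (f4 j)
    have hs1 : (sgn f 1 : ZMod f) = -1 := by simp [sgn]
    have hs0 : (sgn f 0 : ZMod f) = 1 := by simp [sgn]
    rw [sgn_one_sub, hs1, hs0]
    by_cases hl3 : l = f4 j + 3
    · subst hl3
      rw [upd_same, upd_ne _ n3, upd_same, upd_ne _ n3, upd_ne _ n3]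
      simp
    · rw [upd_ne _ hl3]
      by_cases hl0 : l = f4 j
      · subst hl0
        rw [upd_same, upd_ne _ n3.symm, upd_same, upd_same, upd_same, upd_ne _ n13,
          upd_ne _ n23, upd_ne _ n1, upd_ne _ n2, upd_ne _ n3]
        unfold trm
        funext i
        simp only [Pi.add_apply, Pi.smul_apply, Pi.neg_apply, smul_eq_mul, one_smul]
        ring
      · rw [upd_ne _ hl0, upd_ne _ hl3, upd_ne _ hl0, upd_ne _ hl0]
  · intro R c hc _
    have : rule S r f ⟨1, sg, j, 0, s, a⟩ c = ⟨6, 0, 0, 0, 0, a⟩ := by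
      unfold rule
      simp only [if_true, one_ne_zero, if_false]
      rw [if_neg (by omega), if_neg (by omega), if_neg (by omega), if_neg (by omega)]
    rw [this, eff_six]

theorem P1_succ {n : ℕ} (h1 : P1 S r f b G dep n) {a : A}
    (ha : G a) (hl : ¬ S.isLeaf a) {t : ℕ} (ht : t + 1 ≤ S.dig a)
    (hd : ∀ s' < r ^ S.dig a, dep (S.kap a s') + (t + 1) + 2 ≤ n + 1) {s : ℕ}
    (hs : s < r ^ (S.dig a - (t + 1))) (sg j : ℕ) (R : Reg (ZMod f) b) :
    eff S r f b (n + 1) ⟨1, sg, j, t + 1, s, a⟩ R = upd R (f4 j)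
      (∑ i ∈ Finset.range (r ^ (t + 1)),
        -(trm S f b dep a sg (R (f4 j + 1)) (R (f4 j + 2)) (s * r ^ (t + 1) + i))) := by
  have hsc : ∀ c < r, s * r + c < r ^ (S.dig a - t) := by
    intro c hc
    have e : S.dig a - t = (S.dig a - (t + 1)) + 1 := by omega
    rw [e, pow_succ]
    calc s * r + c < s * r + r := by omega
      _ = (s + 1) * r := by ring
      _ ≤ _ := Nat.mul_le_mul_right _ hs
  rw [eff_succ, foldl_upd (f4 j) (fun R c => ∑ i ∈ Finset.range (r ^ t),
    -(trm S f b dep a sg (R (f4 j + 1)) (R (f4 j + 2)) ((s * r + c) * r ^ t + i)))]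
  · congr 1
    rw [pow_succ, mul_comm (r ^ t) r, sum_range_mul]
    refine Finset.sum_congr rfl fun c _ => Finset.sum_congr rfl fun i _ => ?_
    congr 2
    ring
  · intro R v c
    have n1 := fin4_ne1 (f4 j)
    have n2 := fin4_ne2 (f4 j)
    simp only [upd_ne _ n1, upd_ne _ n2]
  · intro R c hc
    have e : rule S r f ⟨1, sg, j, t + 1, s, a⟩ c = ⟨1, sg, j, t, s * r + c, a⟩ := by
      unfold rule
      simp
    rw [e]
    exact h1 a ha hl t (by omega) (fun s' hs' => by have := hd s' hs'; omega) _ (hsc c hc) sg j R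

theorem P1_all (hS : S.Ok G dep b r) (hr7 : 7 ≤ r) {n : ℕ} (h0 : P0 S r f b G dep n)
    (h1 : P1 S r f b G dep n) : P1 S r f b G dep (n + 1) := by
  intro a ha hl t ht hd s hs sg j R
  cases t with
  | zero =>
    rw [P1_zero S hS hr7 h0 ha hl (by simpa using hd) (by simpa using hs)]
    simp
  | succ t => exact P1_succ S h1 ha hl ht hd hs sg j R

theorem P1_base (hr : 0 < r) : P1 S r f b G dep 0 := by
  intro a ha hl t ht hd
  have := hd 0 (by positivity)
  omega

/-! ### the sum over the nonzero scalars -/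

/-- The code of a number by its bits. -/
instance codeFin (b : ℕ) : Code b (Fin (2 ^ b)) where
  emb := ⟨fun u i => decide ((u : ℕ) / 2 ^ (i : ℕ) % 2 = 1), by
    intro u v h
    apply Fin.ext
    apply Nat.eq_of_testBit_eq
    intro i
    by_cases hi : i < b
    · have := congrFun h ⟨i, hi⟩
      simp only [decide_eq_decide] at this
      rw [Nat.testBit_eq_decide_div_mod_eq, Nat.testBit_eq_decide_div_mod_eq]
      simp only [this]
    · rw [Nat.testBit_lt_two_pow (lt_of_lt_of_le u.isLt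
        (Nat.pow_le_pow_right (by norm_num) (by omega))),
        Nat.testBit_lt_two_pow (lt_of_lt_of_le v.isLt
        (Nat.pow_le_pow_right (by norm_num) (by omega)))]⟩

theorem enc_eq_nb [Fact f.Prime] (u : Fin (2 ^ b)) : enc (ZMod f) u = nb f b u := by
  funext i
  unfold enc nb
  have h : (Code.emb (b := b) u i = true) ↔ ((u : ℕ) / 2 ^ (i : ℕ) % 2 = 1) :=
    decide_eq_true_iff
  by_cases h1 : (u : ℕ) / 2 ^ (i : ℕ) % 2 = 1
  · rw [if_pos (h.mpr h1), h1]; simp
  · rw [if_neg (fun h' => h1 (h.mp h'))]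
    have : (u : ℕ) / 2 ^ (i : ℕ) % 2 = 0 := by omega
    rw [this]; simp

theorem dl_eq_dlB [Fact f.Prime] (u : Fin (2 ^ b)) (x : Blk (ZMod f) b) :
    dl u x = dlB f b u x := by
  unfold dl dlB
  refine Finset.prod_congr rfl fun i _ => ?_
  have h : (Code.emb (b := b) u i = true) ↔ ((u : ℕ) / 2 ^ (i : ℕ) % 2 = 1) :=
    decide_eq_true_iff
  by_cases h1 : (u : ℕ) / 2 ^ (i : ℕ) % 2 = 1
  · rw [if_pos (h.mpr h1), if_pos h1]
  · rw [if_neg (fun h' => h1 (h.mp h')), if_neg h1]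

/-- Sum of the terms over the selectors. -/
theorem sum_trm (a : A) (sg : ℕ) (hsel : ∀ u₁ < 2 ^ b, ∀ u₂ < 2 ^ b,
    S.sel a u₁ u₂ < r ^ S.dig a) (x y : Blk (ZMod f) b) :
    ∑ i ∈ Finset.range (r ^ S.dig a), trm S f b dep a sg x y i =
      ∑ u₁ ∈ Finset.range (2 ^ b), ∑ u₂ ∈ Finset.range (2 ^ b),
        (dlB f b u₁ x * dlB f b u₂ y) • (sgn f sg • nb f b (S.vv dep (S.kap a (S.sel a u₁ u₂)))) := by
  have h1 : ∀ i, trm S f b dep a sg x y i =
      ∑ u₁ ∈ Finset.range (2 ^ b), ∑ u₂ ∈ Finset.range (2 ^ b),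
        if S.sel a u₁ u₂ = i then (dlB f b u₁ x * dlB f b u₂ y) •
          (sgn f sg • nb f b (S.vv dep (S.kap a (S.sel a u₁ u₂)))) else 0 := by
    intro i
    unfold trm coef
    rw [Finset.mul_sum, Finset.sum_smul]
    refine Finset.sum_congr rfl fun u₁ _ => ?_
    rw [Finset.mul_sum, Finset.sum_smul]
    refine Finset.sum_congr rfl fun u₂ _ => ?_
    split_ifs with h
    · rw [h, smul_smul, mul_comm]
    · simp
  simp only [h1]
  rw [Finset.sum_comm]
  refine Finset.sum_congr rfl fun u₁ hu₁ => ?_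
  rw [Finset.sum_comm]
  refine Finset.sum_congr rfl fun u₂ hu₂ => ?_
  rw [Finset.sum_ite_eq, if_pos]
  exact Finset.mem_range.mpr (hsel _ (Finset.mem_range.mp hu₁) _ (Finset.mem_range.mp hu₂))

theorem sum_scalars [Fact f.Prime] (hfb : 2 * b < f - 1) (a : A) (sg : ℕ)
    (hsel : ∀ u₁ < 2 ^ b, ∀ u₂ < 2 ^ b, S.sel a u₁ u₂ < r ^ S.dig a)
    {u₁ u₂ : ℕ} (hu₁ : u₁ < 2 ^ b) (hu₂ : u₂ < 2 ^ b) (x y : Blk (ZMod f) b) :
    ∑ q ∈ Finset.range (f - 1), ∑ i ∈ Finset.range (r ^ S.dig a),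
      -(trm S f b dep a sg (((q + 1 : ℕ) : ZMod f) • x + nb f b u₁)
        (((q + 1 : ℕ) : ZMod f) • y + nb f b u₂) i) =
      sgn f sg • nb f b (S.vv dep (S.kap a (S.sel a u₁ u₂))) := by
  classical
  have hcard : Fintype.card (ZMod f) = f := ZMod.card f
  have key := sum_dl (F := ZMod f) (b := b) (A := Fin (2 ^ b)) (B := Fin (2 ^ b))
    (by rw [hcard]; exact hfb) x y ⟨u₁, hu₁⟩ ⟨u₂, hu₂⟩
    (fun v₁ v₂ => sgn f sg • nb f b (S.vv dep (S.kap a (S.sel a v₁ v₂))))
  simp only [enc_eq_nb, dl_eq_dlB] at key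
  rw [← key]
  -- reindex the scalars
  have hre : ∀ g : ZMod f → Blk (ZMod f) b, ∑ q ∈ Finset.range (f - 1), g ((q + 1 : ℕ) : ZMod f) =
      ∑ ω ∈ Finset.univ.erase (0 : ZMod f), g ω := by
    intro g
    refine Finset.sum_bij (fun q _ => ((q + 1 : ℕ) : ZMod f)) ?_ ?_ ?_ ?_
    · intro q hq
      have hq' := Finset.mem_range.mp hq
      refine Finset.mem_erase.mpr ⟨?_, Finset.mem_univ _⟩
      intro h
      rw [ZMod.natCast_eq_zero_iff] at h
      have := Nat.le_of_dvd (by omega) h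
      omega
    · intro q hq q' hq' h
      have h1 := Finset.mem_range.mp hq
      have h2 := Finset.mem_range.mp hq'
      rw [ZMod.natCast_eq_natCast_iff', Nat.mod_eq_of_lt (by omega),
        Nat.mod_eq_of_lt (by omega)] at h
      omega
    · intro ω hω
      have h1 := (Finset.mem_erase.mp hω).1
      have h2 := ZMod.val_lt ω
      have h3 : ω.val ≠ 0 := by
        intro h
        exact h1 ((ZMod.val_eq_zero ω).mp h)
      refine ⟨ω.val - 1, Finset.mem_range.mpr (by omega), ?_⟩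
      have : ω.val - 1 + 1 = ω.val := by omega
      rw [this, ZMod.natCast_zmod_val]
    · intro q _
      rfl
  rw [hre (fun ω => ∑ i ∈ Finset.range (r ^ S.dig a),
      -(trm S f b dep a sg (ω • x + nb f b u₁) (ω • y + nb f b u₂) i))]
  refine Finset.sum_congr rfl fun ω _ => ?_
  rw [Finset.sum_neg_distrib, sum_trm S a sg hsel, Fintype.sum_prod_type]
  rw [← Finset.sum_neg_distrib, ← Fin.sum_univ_eq_sum_range (fun u₁ => -∑ u₂ ∈ Finset.range (2 ^ b),
        (dlB f b u₁ (ω • x + nb f b _) * dlB f b u₂ (ω • y + nb f b _)) •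
          (sgn f sg • nb f b (S.vv dep (S.kap a (S.sel a u₁ u₂)))))]
  refine Finset.sum_congr rfl fun v₁ _ => ?_
  rw [← Finset.sum_neg_distrib, ← Fin.sum_univ_eq_sum_range (fun u₂ =>
        -((dlB f b v₁ (ω • x + nb f b _) * dlB f b u₂ (ω • y + nb f b _)) •
          (sgn f sg • nb f b (S.vv dep (S.kap a (S.sel a v₁ u₂))))))]
  refine Finset.sum_congr rfl fun v₂ _ => ?_
  rw [neg_smul]
  rfl

/-! ### items which add a value -/

theorem exec_three (j t s sg : ℕ) (a : A) (R : Reg (ZMod f) b) (l : Fin 4) :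
    exec S f b ⟨3, sg, j, t, s, a⟩ R l =
      if l = f4 j + 1 ∨ l = f4 j + 2 then (s : ZMod f) • R l else R l := by
  unfold exec
  simp

theorem exec_four (j t s sg : ℕ) (a : A) (R : Reg (ZMod f) b) (l : Fin 4) :
    exec S f b ⟨4, sg, j, t, s, a⟩ R l =
      if l = f4 j + 1 ∨ l = f4 j + 2 then (s : ZMod f)⁻¹ • R l else R l := by
  unfold exec
  simp

/-- Effect of the seven items of the scalar `q + 1`. -/
theorem eff_scalar [Fact f.Prime] (hS : S.Ok G dep b r) (hr7 : 7 ≤ r) {n : ℕ}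
    (h0 : P0 S r f b G dep n) (h1 : P1 S r f b G dep n) {a : A} (ha : G a)
    (hl : ¬ S.isLeaf a) (hn : dep a ≤ n) {q : ℕ} (hq : q < f - 1) (sg j t s : ℕ)
    (R : Reg (ZMod f) b) :
    eff S r f b n (rule S r f ⟨0, sg, j, t, s, a⟩ (7 * q + 6))
      (eff S r f b n (rule S r f ⟨0, sg, j, t, s, a⟩ (7 * q + 5))
      (eff S r f b n (rule S r f ⟨0, sg, j, t, s, a⟩ (7 * q + 4))
      (eff S r f b n (rule S r f ⟨0, sg, j, t, s, a⟩ (7 * q + 3))
      (eff S r f b n (rule S r f ⟨0, sg, j, t, s, a⟩ (7 * q + 2))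
      (eff S r f b n (rule S r f ⟨0, sg, j, t, s, a⟩ (7 * q + 1))
      (eff S r f b n (rule S r f ⟨0, sg, j, t, s, a⟩ (7 * q)) R)))))) =
    upd R (f4 j) (∑ i ∈ Finset.range (r ^ S.dig a),
      -(trm S f b dep a sg (((q + 1 : ℕ) : ZMod f) • R (f4 j + 1) + nb f b (S.vv dep (S.c1 a)))
        (((q + 1 : ℕ) : ZMod f) • R (f4 j + 2) + nb f b (S.vv dep (S.c2 a))) i)) := by
  have hle : ∀ c, c / 7 = q → ¬ f ≤ c / 7 + 1 := by intro c hc; omega
  have d0 : 7 * q / 7 = q := by omega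
  have d1 : (7 * q + 1) / 7 = q := by omega
  have d2 : (7 * q + 2) / 7 = q := by omega
  have d3 : (7 * q + 3) / 7 = q := by omega
  have d4 : (7 * q + 4) / 7 = q := by omega
  have d5 : (7 * q + 5) / 7 = q := by omega
  have d6 : (7 * q + 6) / 7 = q := by omega
  have m0 : 7 * q % 7 = 0 := by omega
  have m1 : (7 * q + 1) % 7 = 1 := by omega
  have m2 : (7 * q + 2) % 7 = 2 := by omega
  have m3 : (7 * q + 3) % 7 = 3 := by omega
  have m4 : (7 * q + 4) % 7 = 4 := by omega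
  have m5 : (7 * q + 5) % 7 = 5 := by omega
  have m6 : (7 * q + 6) % 7 = 6 := by omega
  have hq1 : ¬ f ≤ q + 1 := by omega
  have e0 : rule S r f ⟨0, sg, j, t, s, a⟩ (7 * q) = ⟨3, 0, j, 0, q + 1, a⟩ := by
    unfold rule
    rw [if_pos rfl, if_neg hl, d0, m0, if_neg hq1, if_pos rfl]
  have e1 : rule S r f ⟨0, sg, j, t, s, a⟩ (7 * q + 1) =
      ⟨0, 0, (j + 1) % 4, 0, 0, S.c1 a⟩ := by
    unfold rule
    rw [if_pos rfl, if_neg hl, d1, m1, if_neg hq1, if_neg (by omega), if_pos rfl]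
  have e2 : rule S r f ⟨0, sg, j, t, s, a⟩ (7 * q + 2) =
      ⟨0, 0, (j + 2) % 4, 0, 0, S.c2 a⟩ := by
    unfold rule
    rw [if_pos rfl, if_neg hl, d2, m2, if_neg hq1, if_neg (by omega), if_neg (by omega),
      if_pos rfl]
  have e3 : rule S r f ⟨0, sg, j, t, s, a⟩ (7 * q + 3) = ⟨1, sg, j, S.dig a, 0, a⟩ := by
    unfold rule
    rw [if_pos rfl, if_neg hl, d3, m3, if_neg hq1, if_neg (by omega), if_neg (by omega),
      if_neg (by omega), if_pos rfl]
  have e4 : rule S r f ⟨0, sg, j, t, s, a⟩ (7 * q + 4) =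
      ⟨0, 1, (j + 2) % 4, 0, 0, S.c2 a⟩ := by
    unfold rule
    rw [if_pos rfl, if_neg hl, d4, m4, if_neg hq1, if_neg (by omega), if_neg (by omega),
      if_neg (by omega), if_neg (by omega), if_pos rfl]
  have e5 : rule S r f ⟨0, sg, j, t, s, a⟩ (7 * q + 5) =
      ⟨0, 1, (j + 1) % 4, 0, 0, S.c1 a⟩ := by
    unfold rule
    rw [if_pos rfl, if_neg hl, d5, m5, if_neg hq1, if_neg (by omega), if_neg (by omega),
      if_neg (by omega), if_neg (by omega), if_neg (by omega), if_pos rfl]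
  have e6 : rule S r f ⟨0, sg, j, t, s, a⟩ (7 * q + 6) = ⟨4, 0, j, 0, q + 1, a⟩ := by
    unfold rule
    rw [if_pos rfl, if_neg hl, d6, m6, if_neg hq1, if_neg (by omega), if_neg (by omega),
      if_neg (by omega), if_neg (by omega), if_neg (by omega), if_neg (by omega)]
  have g1 := hS.g1 a ha hl
  have g2 := hS.g2 a ha hl
  have k1 := hS.d1 a ha hl
  have k2 := hS.d2 a ha hl
  rw [e0, e1, e2, e3, e4, e5, e6]
  rw [eff_instr S r f b (by omega) n ⟨3, _, _, _, _, _⟩ (by simp) (by simp),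
    eff_instr S r f b (by omega) n ⟨4, _, _, _, _, _⟩ (by simp) (by simp),
    h0 _ g1 (by omega), h0 _ g2 (by omega), h0 _ g1 (by omega), h0 _ g2 (by omega),
    f4_add1, f4_add2]
  have hP1 := fun R' => h1 a ha hl (S.dig a) le_rfl
    (fun s' hs' => by have := hS.dk a ha hl s' hs'; omega) 0
    (by simp) sg j R'
  rw [hP1]
  simp only [zero_mul, zero_add]
  have hs1 : (sgn f 1 : ZMod f) = -1 := by simp [sgn]
  have hs0 : (sgn f 0 : ZMod f) = 1 := by simp [sgn]
  rw [hs1, hs0]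
  have n1 := fin4_ne1 (f4 j)
  have n2 := fin4_ne2 (f4 j)
  have n12 := fin4_ne12 (f4 j)
  have hne : ((q + 1 : ℕ) : ZMod f) ≠ 0 := by
    intro h
    rw [ZMod.natCast_eq_zero_iff] at h
    have := Nat.le_of_dvd (by omega) h
    omega
  set R0 := exec S f b ⟨3, 0, j, 0, q + 1, a⟩ R with hR0
  have r1 : R0 (f4 j + 1) = ((q + 1 : ℕ) : ZMod f) • R (f4 j + 1) := by
    rw [hR0, exec_three, if_pos (Or.inl rfl)]
  have r2 : R0 (f4 j + 2) = ((q + 1 : ℕ) : ZMod f) • R (f4 j + 2) := by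
    rw [hR0, exec_three, if_pos (Or.inr rfl)]
  have r3 : ∀ l, l ≠ f4 j + 1 → l ≠ f4 j + 2 → R0 l = R l := by
    intro l h1 h2
    rw [hR0, exec_three, if_neg (by tauto)]
  set v1 : Blk (ZMod f) b := nb f b (S.vv dep (S.c1 a)) with hv1
  set v2 : Blk (ZMod f) b := nb f b (S.vv dep (S.c2 a)) with hv2
  have hx : upd (upd R0 (f4 j + 1) ((1 : ZMod f) • v1)) (f4 j + 2) ((1 : ZMod f) • v2)
      (f4 j + 1) = ((q + 1 : ℕ) : ZMod f) • R (f4 j + 1) + v1 := by
    rw [upd_ne _ n12, upd_same, r1, one_smul]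
  have hy : upd (upd R0 (f4 j + 1) ((1 : ZMod f) • v1)) (f4 j + 2) ((1 : ZMod f) • v2)
      (f4 j + 2) = ((q + 1 : ℕ) : ZMod f) • R (f4 j + 2) + v2 := by
    rw [upd_same, upd_ne _ n12.symm, r2, one_smul]
  rw [hx, hy]
  generalize (∑ i ∈ Finset.range (r ^ S.dig a),
      -(trm S f b dep a sg (((q + 1 : ℕ) : ZMod f) • R (f4 j + 1) + v1)
        (((q + 1 : ℕ) : ZMod f) • R (f4 j + 2) + v2) i)) = Z
  funext l
  rw [exec_four]
  by_cases hl1 : l = f4 j + 1
  · subst hl1
    rw [if_pos (Or.inl rfl), upd_same, upd_ne _ n12, upd_ne _ n1, upd_ne _ n12, upd_same, r1,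
      upd_ne _ n1, one_smul, neg_one_smul, add_neg_cancel_right, smul_smul,
      inv_mul_cancel₀ hne, one_smul]
  · by_cases hl2 : l = f4 j + 2
    · subst hl2
      rw [if_pos (Or.inr rfl), upd_ne _ n12.symm, upd_same, upd_ne _ n2, upd_same,
        upd_ne _ n12.symm, r2, upd_ne _ n2, one_smul, neg_one_smul, add_neg_cancel_right,
        smul_smul, inv_mul_cancel₀ hne, one_smul]
    · rw [if_neg (by tauto), upd_ne _ hl1, upd_ne _ hl2]
      by_cases hl0 : l = f4 j
      · subst hl0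
        rw [upd_same, upd_same, upd_ne _ n2.symm, upd_ne _ n1.symm, r3 _ hl1 hl2]
      · rw [upd_ne _ hl0, upd_ne _ hl0, upd_ne _ hl2, upd_ne _ hl1, r3 _ hl1 hl2]

theorem P0_succ [Fact f.Prime] (hS : S.Ok G dep b r) (hfb : 2 * b < f - 1) (hr : 7 * f ≤ r)
    {n : ℕ} (h0 : P0 S r f b G dep n) (h1 : P1 S r f b G dep n) :
    P0 S r f b G dep (n + 1) := by
  have hf2 : 2 ≤ f := (Fact.out : f.Prime).two_le
  intro a ha hn sg j t s R
  by_cases hl : S.isLeaf a
  · rw [eff_succ, foldl_ge _ 1 r (by omega)]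
    · have e0 : rule S r f ⟨0, sg, j, t, s, a⟩ 0 = ⟨2, sg, j, 0, 0, a⟩ := by
        unfold rule
        rw [if_pos rfl, if_pos hl, if_pos rfl]
      simp only [List.range_one, List.foldl_cons, List.foldl_nil, e0]
      rw [eff_instr S r f b (by omega) n _ (by simp) (by simp), S.vv_leaf dep a hl]
      unfold exec upd
      simp
    · intro R c hc _
      have : rule S r f ⟨0, sg, j, t, s, a⟩ c = ⟨6, 0, 0, 0, 0, a⟩ := by
        unfold rule
        rw [if_pos rfl, if_pos hl, if_neg (by omega)]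
      rw [this, eff_six]
  · have k1 := hS.d1 a ha hl
    rw [eff_succ, foldl_ge _ (7 * (f - 1)) r (by omega)]
    · rw [foldl_seven, foldl_upd (f4 j) (fun R q => ∑ i ∈ Finset.range (r ^ S.dig a),
        -(trm S f b dep a sg
          (((q + 1 : ℕ) : ZMod f) • R (f4 j + 1) + nb f b (S.vv dep (S.c1 a)))
          (((q + 1 : ℕ) : ZMod f) • R (f4 j + 2) + nb f b (S.vv dep (S.c2 a))) i))]
      · rw [sum_scalars (u₁ := S.vv dep (S.c1 a)) (u₂ := S.vv dep (S.c2 a)) S hfb a sg
          (fun u₁ hu₁ u₂ hu₂ => hS.sel_lt a ha hl u₁ hu₁ u₂ hu₂)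
          (S.val_lt hS _ _ (hS.g1 a ha hl) le_rfl) (S.val_lt hS _ _ (hS.g2 a ha hl) le_rfl),
          S.vv_step hS a ha hl]
      · intro R v c
        have n1 := fin4_ne1 (f4 j)
        have n2 := fin4_ne2 (f4 j)
        simp only [upd_ne _ n1, upd_ne _ n2]
      · intro R q hq
        exact eff_scalar S hS (by omega) h0 h1 ha hl (by omega) hq sg j t s R
    · intro R c hc _
      have : rule S r f ⟨0, sg, j, t, s, a⟩ c = ⟨6, 0, 0, 0, 0, a⟩ := by
        unfold rule
        rw [if_pos rfl, if_neg hl, if_pos (by omega)]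
      rw [this, eff_six]

theorem P01 [Fact f.Prime] (hS : S.Ok G dep b r) (hfb : 2 * b < f - 1) (hr : 7 * f ≤ r)
    (n : ℕ) : P0 S r f b G dep n ∧ P1 S r f b G dep n := by
  have hf2 : 2 ≤ f := (Fact.out : f.Prime).two_le
  induction n with
  | zero => exact ⟨fun a _ hn => by omega, P1_base S (by omega)⟩
  | succ n ih => exact ⟨P0_succ S hS hfb hr ih.1 ih.2, P1_all S hS (by omega) ih.1 ih.2⟩

/-- The program generated by `add` adds the value to the block `j`. -/
theorem runL_gen [Fact f.Prime] (hS : S.Ok G dep b r) (hfb : 2 * b < f - 1) (hr : 7 * f ≤ r)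
    (n : ℕ) (a : A) (ha : G a) (hn : dep a + 1 ≤ n) (sg j t s : ℕ) (R : Reg (ZMod f) b) :
    runL S f b (gen S r f n ⟨0, sg, j, t, s, a⟩) R =
      Function.update R (f4 j) (R (f4 j) + sgn f sg • nb f b (S.val n a)) := by
  have h := (P01 S hS hfb hr n).1 a ha hn sg j t s R
  have e : S.val n a = S.vv dep a := S.val_stable hS n _ a ha (by omega) le_rfl
  rw [e]
  exact h

/-! ### the run as an iteration -/

theorem foldl_mul {X : Type} (F : X → ℕ → X) (q c : ℕ) (R : X) :
    (List.range (c * q)).foldl F R = (List.range c).foldl (fun R k =>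
      (List.range q).foldl (fun R i => F R (k * q + i)) R) R := by
  induction c with
  | zero => simp
  | succ c ih =>
    rw [add_mul, one_mul, List.range_succ, List.foldl_append, ← ih]
    have : List.range (c * q + q) =
        List.range (c * q) ++ (List.range q).map (fun i => c * q + i) := by
      rw [List.range_add]
    rw [this, List.foldl_append, List.foldl_map]
    rfl

theorem foldl_eq_rec {X : Type} (F : ℕ → X → X) (m : ℕ) (R : X) :
    (List.range m).foldl (fun R i => F i R) R =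
      Nat.rec (motive := fun _ => X) R (fun i R => F i R) m := by
  induction m with
  | zero => rfl
  | succ m ih => rw [List.range_succ, List.foldl_append, ih]; rfl

theorem runL_eq_foldl (S : Scheme A) (f b r n : ℕ) (hr : 0 < r) (it : Item A)
    (R : Reg (ZMod f) b) :
    runL S f b (gen S r f n it) R =
      (List.range (r ^ n)).foldl (fun R pc => exec S f b (walk S r f n it pc) R) R := by
  induction n generalizing it R with
  | zero => rfl
  | succ n ih =>
    have h1 : runL S f b (gen S r f (n + 1) it) R =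
        (List.range r).foldl (fun R c => runL S f b (gen S r f n (rule S r f it c)) R) R := by
      unfold runL
      rw [gen, List.foldl_flatMap]
    rw [h1, pow_succ, mul_comm (r ^ n) r, foldl_mul]
    apply List.foldl_ext
    intro R c hc
    rw [ih]
    apply List.foldl_ext
    intro R i hi
    have hi' := List.mem_range.mp hi
    have hpos : 0 < r ^ n := by positivity
    have e1 : (c * r ^ n + i) / r ^ n = c := by
      rw [mul_comm, Nat.mul_add_div hpos, Nat.div_eq_of_lt hi', add_zero]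
    have e2 : (c * r ^ n + i) % r ^ n = i := by
      rw [mul_comm, Nat.mul_add_mod, Nat.mod_eq_of_lt hi']
    rw [walk, e1, e2]

/-- The same as an iteration. -/
theorem runL_eq_rec (S : Scheme A) (f b r n : ℕ) (hr : 0 < r) (it : Item A)
    (R : Reg (ZMod f) b) :
    runL S f b (gen S r f n it) R =
      Nat.rec (motive := fun _ => Reg (ZMod f) b) R
        (fun pc R => exec S f b (walk S r f n it pc) R) (r ^ n) := by
  rw [runL_eq_foldl S f b r n hr]
  exact foldl_eq_rec (fun pc R => exec S f b (walk S r f n it pc) R) _ _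

/-! ### agreement -/

theorem Scheme.Agree.ok {A : Type} {S S' : Scheme A} {G : A → Prop} {dep : A → ℕ} {b r : ℕ}
    (h : S.Agree S' G b r) (hS : S'.Ok G dep b r) : S.Ok G dep b r := by
  refine ⟨?_, ?_, ?_, ?_, ?_, ?_, ?_, ?_⟩
  · intro a ha hl
    have hl' := (h.isLeaf a ha).mp hl
    rw [h.leafVal a ha hl']
    exact hS.leaf_lt a ha hl'
  · intro a ha hl
    have hl' := fun h' => hl ((h.isLeaf a ha).mpr h')
    rw [h.c1 a ha hl']
    exact hS.g1 a ha hl'
  · intro a ha hl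
    have hl' := fun h' => hl ((h.isLeaf a ha).mpr h')
    rw [h.c2 a ha hl']
    exact hS.g2 a ha hl'
  · intro a ha hl s hs
    have hl' := fun h' => hl ((h.isLeaf a ha).mpr h')
    rw [h.dig a ha hl'] at hs
    rw [h.kap a ha hl' s hs]
    exact hS.gk a ha hl' s hs
  · intro a ha hl
    have hl' := fun h' => hl ((h.isLeaf a ha).mpr h')
    rw [h.c1 a ha hl']
    exact hS.d1 a ha hl'
  · intro a ha hl
    have hl' := fun h' => hl ((h.isLeaf a ha).mpr h')
    rw [h.c2 a ha hl']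
    exact hS.d2 a ha hl'
  · intro a ha hl s hs
    have hl' := fun h' => hl ((h.isLeaf a ha).mpr h')
    rw [h.dig a ha hl'] at hs ⊢
    rw [h.kap a ha hl' s hs]
    exact hS.dk a ha hl' s hs
  · intro a ha hl u₁ hu₁ u₂ hu₂
    have hl' := fun h' => hl ((h.isLeaf a ha).mpr h')
    rw [h.dig a ha hl', h.sel a ha hl' u₁ hu₁ u₂ hu₂]
    exact hS.sel_lt a ha hl' u₁ hu₁ u₂ hu₂

theorem Scheme.Agree.val_eq {A : Type} {S S' : Scheme A} {G : A → Prop} {dep : A → ℕ}
    {b r : ℕ} (h : S.Agree S' G b r) (hS : S'.Ok G dep b r) (n : ℕ) (a : A) (ha : G a)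
    (hn : dep a ≤ n) : S.val n a = S'.val n a := by
  induction n generalizing a with
  | zero =>
    have hl : S'.isLeaf a := by
      by_contra hl
      have := hS.d1 a ha hl
      omega
    exact h.leafVal a ha hl
  | succ n ih =>
    rw [Scheme.val, Scheme.val]
    by_cases hl : S'.isLeaf a
    · rw [if_pos hl, if_pos ((h.isLeaf a ha).mpr hl), h.leafVal a ha hl]
    · rw [if_neg hl, if_neg (fun h' => hl ((h.isLeaf a ha).mp h'))]
      have h1 := hS.d1 a ha hl
      have h2 := hS.d2 a ha hl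
      have g1 := hS.g1 a ha hl
      have g2 := hS.g2 a ha hl
      rw [h.c1 a ha hl, h.c2 a ha hl, ih _ g1 (by omega), ih _ g2 (by omega)]
      have v1 := S'.val_lt hS n _ g1 (by omega)
      have v2 := S'.val_lt hS n _ g2 (by omega)
      have hs := hS.sel_lt a ha hl _ v1 _ v2
      rw [h.sel a ha hl _ v1 _ v2, h.kap a ha hl _ hs]
      exact ih _ (hS.gk a ha hl _ hs) (by have := hS.dk a ha hl _ hs; omega)

end

end Pool.Agent.Helper17.UL
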