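import Mathlib

set_option autoImplicit false

/-!
Uniform version: explicit choice of the parameters for the time bound `T`; `κ` is a constant of
the machine and `K` the number of components of a cell.
-/

namespace Pool.Agent.Helper17.UL

def pY (T : ℕ) : ℕ := Nat.log 2 T

def pZ (T : ℕ) : ℕ := Nat.log 2 (pY T)

def pM (T : ℕ) : ℕ := pY T / pZ T + 2

def pD (κ T : ℕ) : ℕ := 2 * ((pY T + 2 + Nat.log 2 κ) / pZ T + 1)

def pB0 (κ T : ℕ) : ℕ := (pZ T + 1) * pD κ T + Nat.log 2 κ + 1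

def pb (κ K T : ℕ) : ℕ := pB0 κ T * K

/-- The least prime above `2 b + 2`. -/
noncomputable def pf (κ K T : ℕ) : ℕ := Nat.find (Nat.exists_infinite_primes (2 * pb κ K T + 3))

noncomputable def pr (κ K T : ℕ) : ℕ := 7 * pf κ K T + (4 * pM T + 6)

noncomputable def pt2 (κ K T : ℕ) : ℕ := 2 * pb κ K T / Nat.log 2 (pr κ K T) + 1

noncomputable def pn (κ K T : ℕ) : ℕ := pD κ T * (20 * pM T + 24 + pt2 κ K T) + 1

end Pool.Agent.Helper17.UL
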