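import Pool.Agent.Helper17.UL.Good
import Pool.Agent.Helper4.UL.Prm

set_option autoImplicit false

/-!
Uniform version: the parameters are computable on the good words.
-/

namespace Pool.Agent.Helper17.UL

open Pool.Agent.Helper6

variable {β : Type}

/-- The sizes of the parameters. -/
noncomputable def sizes (κ K T : ℕ) : Set ℕ :=
  {pr κ K T ^ pn κ K T, pf κ K T ^ pb κ K T, pf κ K T ^ 2, 2 ^ (2 * pb κ K T),
      2 ^ pB0 κ T + pM T ^ (pD κ T + 1), 4 * pM T + 6, pr κ K T, κ * T}

/-- The good words for the time bound `T w`. -/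
def GoodW (κ K : ℕ) (T : List β → ℕ) (w : List β) : Prop :=
  16 ≤ T w ∧ ∀ s ∈ sizes κ K (T w), s ≤ w.length

section

variable {κ K : ℕ} {T : List β → ℕ}

theorem GoodW.all {w : List β} (h : GoodW κ K T w) :
    16 ≤ T w ∧ pr κ K (T w) ^ pn κ K (T w) ≤ w.length ∧
    pf κ K (T w) ^ pb κ K (T w) ≤ w.length ∧ pf κ K (T w) ^ 2 ≤ w.length ∧
    2 ^ (2 * pb κ K (T w)) ≤ w.length ∧
    2 ^ pB0 κ (T w) + pM (T w) ^ (pD κ (T w) + 1) ≤ w.length ∧ 4 * pM (T w) + 6 ≤ w.length ∧
    pr κ K (T w) ≤ w.length ∧ κ * T w ≤ w.length := by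
  obtain ⟨h1, h2⟩ := h
  refine ⟨h1, h2 _ ?_, h2 _ ?_, h2 _ ?_, h2 _ ?_, h2 _ ?_, h2 _ ?_, h2 _ ?_, h2 _ ?_⟩ <;>
    simp [sizes]

theorem pM_two (T : ℕ) : 2 ≤ pM T := Nat.le_add_left 2 _

theorem pZ_pos {T : ℕ} (hT : 16 ≤ T) : 2 ≤ pZ T := by
  unfold pZ pY
  have h1 : 4 ≤ Nat.log 2 T := Nat.le_log_of_pow_le (by norm_num) (by norm_num; exact hT)
  exact Nat.le_log_of_pow_le (by norm_num) (by norm_num; exact h1)

theorem pY_le (T : ℕ) : pY T ≤ T := Nat.log_le_self 2 T

theorem pD_le_pow (κ T : ℕ) : pD κ T ≤ pM T ^ (pD κ T + 1) := by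
  calc pD κ T ≤ 2 ^ pD κ T := Nat.lt_two_pow_self.le
    _ ≤ 2 ^ (pD κ T + 1) := Nat.pow_le_pow_right (by norm_num) (by omega)
    _ ≤ pM T ^ (pD κ T + 1) := Nat.pow_le_pow_left (pM_two T) _

variable (hκ : 10 ≤ κ) (hK : 0 < K) (hT : FLG (GoodW κ K T) T)

include hκ in
theorem T_le {w : List β} (h : GoodW κ K T w) : T w + κ + 10 ≤ w.length := by
  obtain ⟨h1, _, _, _, _, _, _, _, h2⟩ := h.all
  nlinarith

theorem flg_pY : FLG (GoodW κ K T) T → FLG (GoodW κ K T) (fun w => pY (T w)) := fun h => h.log2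

theorem flg_pZ : FLG (GoodW κ K T) T → FLG (GoodW κ K T) (fun w => pZ (T w)) :=
  fun h => (flg_pY h).log2

include hκ hT in
theorem flg_pM : FLG (GoodW κ K T) (fun w => pM (T w)) := by
  refine ((flg_pY hT).div (flg_pZ hT)).add (FLG.const 2 fun w hw => ?_) fun w hw => ?_
  · have := T_le hκ hw
    omega
  · have := hw.all.2.2.2.2.2.2.1
    unfold pM at this
    omega

include hκ hT in
theorem flg_pD : FLG (GoodW κ K T) (fun w => pD κ (T w)) := by
  have h1 : FLG (GoodW κ K T) (fun w => pY (T w) + 2) :=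
    (flg_pY hT).add (FLG.const 2 fun w hw => by have := T_le hκ hw; omega) fun w hw => by
      have := T_le hκ hw
      have := pY_le (T w)
      omega
  have h2 : FLG (GoodW κ K T) (fun w => pY (T w) + 2 + Nat.log 2 κ) :=
    h1.add (FLG.const _ fun w hw => by
      have := T_le hκ hw
      have := Nat.log_le_self 2 κ
      omega) fun w hw => by
      have := T_le hκ hw
      have := pY_le (T w)
      have := Nat.log_le_self 2 κ
      omega
  have hb : ∀ w, GoodW κ K T w → pD κ (T w) ≤ w.length := fun w hw => by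
    have h1 := (Nat.le_add_left _ _).trans hw.all.2.2.2.2.2.1
    exact (pD_le_pow κ (T w)).trans h1
  have h3 : FLG (GoodW κ K T) (fun w => (pY (T w) + 2 + Nat.log 2 κ) / pZ (T w) + 1) :=
    (h2.div (flg_pZ hT)).add (FLG.const 1 fun w hw => by have := T_le hκ hw; omega)
      fun w hw => by
      have := hb w hw
      unfold pD at this
      omega
  refine (FLG.const 2 fun w hw => by have := T_le hκ hw; omega).mul h3 fun w hw => ?_
  have := hb w hw
  unfold pD at this
  omega

theorem pD_pos (κ T : ℕ) : 1 ≤ pD κ T := by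
  unfold pD
  generalize (pY T + 2 + Nat.log 2 κ) / pZ T = a
  omega

include hκ hT in
theorem flg_pB0 : FLG (GoodW κ K T) (fun w => pB0 κ (T w)) := by
  have hb : ∀ w, GoodW κ K T w → pB0 κ (T w) ≤ w.length := fun w hw => by
    have h1 := hw.all.2.2.2.2.2.1
    have h2 : pB0 κ (T w) < 2 ^ pB0 κ (T w) := Nat.lt_two_pow_self
    omega
  have hc : FLG (GoodW κ K T) (fun _ => 1) :=
    FLG.const 1 fun w hw => by have := T_le hκ hw; omega
  have h1 : FLG (GoodW κ K T) (fun w => pZ (T w) + 1) :=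
    (flg_pZ hT).add hc fun w hw => by
      have := hb w hw
      have h3 := pD_pos κ (T w)
      unfold pB0 at this
      have : pZ (T w) + 1 ≤ (pZ (T w) + 1) * pD κ (T w) := Nat.le_mul_of_pos_right _ h3
      omega
  have h2 : FLG (GoodW κ K T) (fun w => (pZ (T w) + 1) * pD κ (T w)) :=
    h1.mul (flg_pD hκ hT) fun w hw => by
      have := hb w hw
      unfold pB0 at this
      omega
  have h3 : FLG (GoodW κ K T) (fun w => (pZ (T w) + 1) * pD κ (T w) + Nat.log 2 κ) :=
    h2.add (FLG.const _ fun w hw => by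
      have := T_le hκ hw
      have := Nat.log_le_self 2 κ
      omega) fun w hw => by
      have := hb w hw
      unfold pB0 at this
      omega
  exact h3.add hc fun w hw => by
    have := hb w hw
    unfold pB0 at this
    omega

theorem pB0_pos (κ T : ℕ) : 1 ≤ pB0 κ T := by unfold pB0; omega

theorem two_pb_le {w : List β} (hw : GoodW κ K T w) : 2 * pb κ K (T w) < w.length := by
  have h1 := hw.all.2.2.2.2.1
  have h2 : 2 * pb κ K (T w) < 2 ^ (2 * pb κ K (T w)) := Nat.lt_two_pow_self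
  omega

include hκ hT in
theorem flg_pb : FLG (GoodW κ K T) (fun w => pb κ K (T w)) := by
  refine (flg_pB0 hκ hT).mul (FLG.const K fun w hw => ?_) fun w hw => ?_
  · have h1 := two_pb_le hw
    have h2 : K ≤ pb κ K (T w) := Nat.le_mul_of_pos_left _ (pB0_pos κ (T w))
    omega
  · have h1 := two_pb_le hw
    unfold pb at h1
    omega

include hκ hK hT in
theorem flg_pf : FLG (GoodW κ K T) (fun w => pf κ K (T w)) := by
  have h1 : FLG (GoodW κ K T) (fun w => 2 * pb κ K (T w)) :=
    (FLG.const 2 fun w hw => by have := T_le hκ hw; omega).mul (flg_pb hκ hT) fun w hw => by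
      have := two_pb_le hw
      omega
  have hb : ∀ w, GoodW κ K T w → pf κ K (T w) ≤ w.length := fun w hw => by
    have h1 := hw.all.2.2.2.1
    have h2 := (prm_exact κ K (T w) (by omega) hK hw.all.1).2.2.2.2.1
    have h3 : pf κ K (T w) ≤ pf κ K (T w) ^ 2 := Nat.le_self_pow (by norm_num) _
    omega
  have h2 : FLG (GoodW κ K T) (fun w => 2 * pb κ K (T w) + 3) :=
    h1.add (FLG.const 3 fun w hw => by have := T_le hκ hw; omega) fun w hw => by
      have h3 := (Nat.find_spec (Nat.exists_infinite_primes (2 * pb κ K (T w) + 3))).1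
      have h4 := hb w hw
      unfold pf at h4
      omega
  exact h2.findPrime fun w hw => (hb w hw).trans (Nat.le_succ _)

include hκ hK hT in
theorem flg_pr : FLG (GoodW κ K T) (fun w => pr κ K (T w)) := by
  have hb : ∀ w, GoodW κ K T w → 7 * pf κ K (T w) + (4 * pM (T w) + 6) ≤ w.length :=
    fun w hw => hw.all.2.2.2.2.2.2.2.1
  have hc : ∀ c ≤ 10, FLG (GoodW κ K T) (fun _ => c) := fun c hc =>
    FLG.const c fun w hw => by have := T_le hκ hw; omega
  have h1 : FLG (GoodW κ K T) (fun w => 7 * pf κ K (T w)) :=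
    (hc 7 (by norm_num)).mul (flg_pf hκ hK hT) fun w hw => by have := hb w hw; omega
  have h2 : FLG (GoodW κ K T) (fun w => 4 * pM (T w)) :=
    (hc 4 (by norm_num)).mul (flg_pM hκ hT) fun w hw => by have := hb w hw; omega
  have h3 : FLG (GoodW κ K T) (fun w => 4 * pM (T w) + 6) :=
    h2.add (hc 6 (by norm_num)) fun w hw => by have := hb w hw; omega
  exact h1.add h3 fun w hw => by have := hb w hw; omega

theorem one_lt_pr (κ K T : ℕ) : 14 ≤ pr κ K T := by
  unfold pr
  have := pM_two T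
  omega

theorem pt2_le (κ K T : ℕ) : pt2 κ K T ≤ 2 * pb κ K T + 1 := by
  unfold pt2
  have := Nat.div_le_self (2 * pb κ K T) (Nat.log 2 (pr κ K T))
  omega

include hκ hK hT in
theorem flg_pt2 : FLG (GoodW κ K T) (fun w => pt2 κ K (T w)) := by
  have h1 : FLG (GoodW κ K T) (fun w => 2 * pb κ K (T w)) :=
    (FLG.const 2 fun w hw => by have := T_le hκ hw; omega).mul (flg_pb hκ hT) fun w hw => by
      have := two_pb_le hw
      omega
  exact (h1.div (flg_pr hκ hK hT).log2).add
    (FLG.const 1 fun w hw => by have := T_le hκ hw; omega) fun w hw => by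
    have h2 := pt2_le κ K (T w)
    have h3 := two_pb_le hw
    unfold pt2 at h2
    omega

include hκ hK hT in
theorem flg_pn : FLG (GoodW κ K T) (fun w => pn κ K (T w)) := by
  have hb : ∀ w, GoodW κ K T w →
      pD κ (T w) * (20 * pM (T w) + 24 + pt2 κ K (T w)) + 1 ≤ w.length := fun w hw => by
    have h1 := hw.all.2.1
    have h2 : pn κ K (T w) < 2 ^ pn κ K (T w) := Nat.lt_two_pow_self
    have h3 : 2 ^ pn κ K (T w) ≤ pr κ K (T w) ^ pn κ K (T w) :=
      Nat.pow_le_pow_left (by have := one_lt_pr κ K (T w); omega) _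
    have : pn κ K (T w) ≤ w.length := by omega
    exact this
  have hb2 : ∀ w, GoodW κ K T w → 20 * pM (T w) + 24 + pt2 κ K (T w) ≤ w.length :=
    fun w hw => by
    have h1 := hb w hw
    have h2 := Nat.le_mul_of_pos_left (20 * pM (T w) + 24 + pt2 κ K (T w)) (pD_pos κ (T w))
    omega
  have h1 : FLG (GoodW κ K T) (fun w => 20 * pM (T w)) :=
    (FLG.const 20 fun w hw => by have := hb2 w hw; omega).mul (flg_pM hκ hT)
      fun w hw => by have := hb2 w hw; omega
  have h2 : FLG (GoodW κ K T) (fun w => 20 * pM (T w) + 24) :=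
    h1.add (FLG.const 24 fun w hw => by have := hb2 w hw; omega)
      fun w hw => by have := hb2 w hw; omega
  have h3 : FLG (GoodW κ K T) (fun w => 20 * pM (T w) + 24 + pt2 κ K (T w)) :=
    h2.add (flg_pt2 hκ hK hT) fun w hw => by have := hb2 w hw; omega
  have h4 : FLG (GoodW κ K T)
      (fun w => pD κ (T w) * (20 * pM (T w) + 24 + pt2 κ K (T w))) :=
    (flg_pD hκ hT).mul h3 fun w hw => by have := hb w hw; omega
  exact h4.add (FLG.const 1 fun w hw => by omega) fun w hw => by have := hb w hw; omega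

include hκ hT in
theorem flg_B : FLG (GoodW κ K T) (fun w => 2 ^ pB0 κ (T w)) :=
  (FLG.const 2 fun w hw => by have := T_le hκ hw; omega).pow (flg_pB0 hκ hT) fun w hw => by
    have := hw.all.2.2.2.2.2.1
    omega

include hκ hT in
theorem flg_N : FLG (GoodW κ K T) (fun w => pM (T w) ^ pD κ (T w)) :=
  (flg_pM hκ hT).pow (flg_pD hκ hT) fun w hw => by
    have h1 := (Nat.le_add_left _ _).trans hw.all.2.2.2.2.2.1
    have h2 : pM (T w) ^ pD κ (T w) ≤ pM (T w) ^ (pD κ (T w) + 1) :=
      Nat.pow_le_pow_right (by have := pM_two (T w); omega) (by omega)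
    exact (h2.trans h1).trans (Nat.le_succ _)

include hκ hT in
theorem flg_m : FLG (GoodW κ K T) (fun w => 4 * pM (T w) + 6) := by
  have h2 : FLG (GoodW κ K T) (fun w => 4 * pM (T w)) :=
    (FLG.const 4 fun w hw => by have := T_le hκ hw; omega).mul (flg_pM hκ hT)
      fun w hw => by have := hw.all.2.2.2.2.2.2.1; omega
  exact h2.add (FLG.const 6 fun w hw => by have := T_le hκ hw; omega)
    fun w hw => by have := hw.all.2.2.2.2.2.2.1; omega

end

end Pool.Agent.Helper17.UL
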