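import Pool.Agent.Helper17.UL.TWDef

set_option autoImplicit false

/-!
Uniform version: the largest time bound is computable.
-/

namespace Pool.Agent.Helper17.UL

open Pool.Agent.Helper6

theorem two_mul_le_two_pow (L : ℕ) (hL : 1 ≤ L) : 2 * L ≤ 2 ^ L := by
  induction L, hL using Nat.le_induction with
  | base => norm_num
  | succ L hL ih => rw [pow_succ]; omega

theorem mul_pred_le_two_pow (L : ℕ) : L * (L - 1) ≤ 2 ^ L := by
  induction L with
  | zero => norm_num
  | succ L ih =>
    rcases Nat.eq_zero_or_pos L with h | h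
    · subst h; norm_num
    · have h1 := two_mul_le_two_pow L h
      have h2 : (L + 1) * (L + 1 - 1) = L * (L - 1) + 2 * L := by
        obtain ⟨m, rfl⟩ : ∃ m, L = m + 1 := ⟨L - 1, by omega⟩
        simp only [Nat.add_sub_cancel]
        ring
      rw [h2, pow_succ]
      omega

/-- The capped comparison is exact. -/
theorem cap_iff (C1 len y : ℕ) (hy : y ≤ Nat.log 2 len) :
    min (C1 * y ^ 2) (len + 1) ≤ min (Nat.log 2 len * Nat.log 2 y) (len + 1) ↔
      C1 * y ^ 2 ≤ Nat.log 2 len * Nat.log 2 y := by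
  have h1 : Nat.log 2 len * Nat.log 2 y ≤ len := by
    rcases Nat.eq_zero_or_pos len with h | h
    · subst h; simp
    · have h2 : Nat.log 2 y ≤ Nat.log 2 len - 1 := by
        rcases Nat.eq_zero_or_pos y with h' | h'
        · subst h'; simp
        · have : Nat.log 2 y < y := Nat.log_lt_self 2 (by omega)
          omega
      calc Nat.log 2 len * Nat.log 2 y ≤ Nat.log 2 len * (Nat.log 2 len - 1) :=
            Nat.mul_le_mul_left _ h2
        _ ≤ 2 ^ Nat.log 2 len := mul_pred_le_two_pow _
        _ ≤ len := Nat.pow_log_le_self 2 (by omega)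
  omega

theorem yW_FL {β : Type} (C1 : ℕ) : FL β Empty (fun w _ => yW C1 w.length) := by
  -- the length of the word
  have len : ∀ {V : Type} [Finite V], FL β V (fun w _ => w.length) := by
    intro V _
    exact FL.pred FL.len
  have lg : ∀ {V : Type} [Finite V], FL β V (fun w _ => Nat.log 2 w.length) := by
    intro V _
    exact FL.log2 len
  have hP : ∀ {V : Type} [Finite V] (v : V), IsL β V (fun w x =>
      min (C1 * x v ^ 2) (w.length + 1) ≤
        min (Nat.log 2 w.length * Nat.log 2 (x v)) (w.length + 1)) := by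
    intro V _ v
    have h1 : FL β V (fun w x => min (C1 * x v ^ 2) (w.length + 1)) := by
      have h2 : FL β V (fun w x => min (x v * x v) (w.length + 1)) :=
        FL.mul (FL.proj v) (FL.proj v)
      refine (FL.mul (FL.const C1) h2).congr fun w x _ => ?_
      rw [← sq, min_mul_cap]
      rw [mul_comm, mul_comm C1, min_mul_cap]
    have h3 : FL β V (fun w x =>
        min (Nat.log 2 w.length * Nat.log 2 (x v)) (w.length + 1)) :=
      FL.mul lg (FL.log2 (FL.proj v))
    exact isL_le h1 h3
  have hall : IsL β (Empty ⊕ Unit) (fun w z => ∀ y : Unit → ℕ, (∀ u, y u ≤ w.length + 1) →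
      ¬ (z (Sum.inr ()) < y () ∧ y () ≤ Nat.log 2 w.length ∧
        min (C1 * y () ^ 2) (w.length + 1) ≤
          min (Nat.log 2 w.length * Nat.log 2 (y ())) (w.length + 1))) := by
    have h1 : IsL β ((Empty ⊕ Unit) ⊕ Unit) (fun w z =>
        z (Sum.inl (Sum.inr ())) < z (Sum.inr ())) := isL_lt (FL.proj _) (FL.proj _)
    have h2 : IsL β ((Empty ⊕ Unit) ⊕ Unit) (fun w z =>
        z (Sum.inr ()) ≤ Nat.log 2 w.length) := isL_le (FL.proj _) lg
    have h3 := hP (V := (Empty ⊕ Unit) ⊕ Unit) (Sum.inr ())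
    exact (((h1.and (h2.and h3)).not).all).congr (by
      intro w x hx
      simp only [Sum.elim_inr, Sum.elim_inl])
  have hle : IsL β (Empty ⊕ Unit) (fun w z => z (Sum.inr ()) ≤ Nat.log 2 w.length) :=
    isL_le (FL.proj _) lg
  have h0 : IsL β (Empty ⊕ Unit) (fun w z => z (Sum.inr ()) = 0) := isL_const 0 _
  refine FL.of_unique (hle.and ((h0.or (hP (V := Empty ⊕ Unit) (Sum.inr ()))).and hall)) ?_ ?_
  · intro w x _
    have h1 : yW C1 w.length ≤ Nat.log 2 w.length := Nat.findGreatest_le _
    have h2 := Nat.log_le_self 2 w.length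
    omega
  · intro w x t _ ht
    simp only [Sum.elim_inr]
    constructor
    · rintro ⟨h1, h2, h3⟩
      symm
      unfold yW
      rw [Nat.findGreatest_eq_iff]
      refine ⟨h1, fun ht0 => ?_, fun y hy1 hy2 hy3 => ?_⟩
      · rcases h2 with h2 | h2
        · exact absurd h2 ht0
        · exact (cap_iff C1 w.length t h1).mp h2
      · have hyl : y ≤ w.length + 1 := hy2.trans ((Nat.log_le_self 2 _).trans (Nat.le_succ _))
        exact h3 (fun _ => y) (fun _ => hyl) ⟨hy1, hy2, (cap_iff C1 w.length y hy2).mpr hy3⟩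
    · intro h
      symm at h
      unfold yW at h
      rw [Nat.findGreatest_eq_iff] at h
      obtain ⟨h1, h2, h3⟩ := h
      refine ⟨h1, ?_, ?_⟩
      · by_cases ht0 : t = 0
        · exact Or.inl ht0
        · exact Or.inr ((cap_iff C1 w.length t h1).mpr (h2 ht0))
      · rintro y hy ⟨h4, h5, h6⟩
        exact h3 h4 h5 ((cap_iff C1 w.length (y ()) h5).mp h6)

theorem TW_le (C1 len : ℕ) : TW C1 len ≤ len + 1 := by
  unfold TW yW
  rcases Nat.eq_zero_or_pos len with h | h
  · subst h; simp
  · calc 2 ^ _ ≤ 2 ^ Nat.log 2 len := Nat.pow_le_pow_right (by norm_num) (Nat.findGreatest_le _)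
      _ ≤ len := Nat.pow_log_le_self 2 (by omega)
      _ ≤ len + 1 := Nat.le_succ _

theorem TW_FL {β : Type} (C1 : ℕ) : FL β Empty (fun w _ => TW C1 w.length) :=
  (FL.pow2 (yW_FL C1)).congr fun w _ _ => (min_eq_left (TW_le C1 w.length)).symm

end Pool.Agent.Helper17.UL
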