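import Pool.Agent.Helper6.MHeadF

set_option autoImplicit false

/-!
Uniform version: functions on head positions computable by two-way multihead deterministic
finite automata.
-/

namespace Pool.Agent.Helper17.UL

open Pool.Agent.Helper6

/-- `f` maps tuples of head positions to head positions, and its graph is decided by a halting
two-way multihead deterministic finite automaton. -/
structure FL (β V : Type) (f : List β → (V → ℕ) → ℕ) : Prop where
  bd : ∀ w x, (∀ v, x v ≤ w.length + 1) → f w x ≤ w.length + 1
  isL : IsL β (V ⊕ Unit) (fun w z => z (Sum.inr ()) = f w (z ∘ Sum.inl))

end Pool.Agent.Helper17.UL
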