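import Pool.Agent.Helper68.UL.Arith
import Pool.Agent.Helper17.UL.PrmDef

set_option autoImplicit false

/-!
Uniform version: functions of the word that are computable on the good words.
-/

namespace Pool.Agent.Helper17.UL

open Pool.Agent.Helper6

variable {β : Type}

/-- `f` agrees on the good words with a computable function. -/
def FLG (Good : List β → Prop) (f : List β → ℕ) : Prop :=
  ∃ g : List β → ℕ, FL β Empty (fun w _ => g w) ∧ ∀ w, Good w → g w = f w

namespace FLG

variable {Good : List β → Prop} {f g : List β → ℕ}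

theorem congr (hf : FLG Good f) (h : ∀ w, Good w → g w = f w) : FLG Good g := by
  obtain ⟨f', h1, h2⟩ := hf
  exact ⟨f', h1, fun w hw => (h2 w hw).trans (h w hw).symm⟩

theorem ofFL (hf : FL β Empty (fun w _ => f w)) : FLG Good f := ⟨f, hf, fun _ _ => rfl⟩

theorem const (c : ℕ) (h : ∀ w, Good w → c ≤ w.length + 1) : FLG Good (fun _ => c) :=
  ⟨fun w => min c (w.length + 1), FL.const c, fun w hw => min_eq_left (h w hw)⟩

theorem add (hf : FLG Good f) (hg : FLG Good g)
    (h : ∀ w, Good w → f w + g w ≤ w.length + 1) : FLG Good (fun w => f w + g w) := by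
  obtain ⟨f', h1, h2⟩ := hf
  obtain ⟨g', h3, h4⟩ := hg
  refine ⟨fun w => min (f' w + g' w) (w.length + 1), h1.add h3, fun w hw => ?_⟩
  simp only [h2 w hw, h4 w hw]
  exact min_eq_left (h w hw)

theorem mul (hf : FLG Good f) (hg : FLG Good g)
    (h : ∀ w, Good w → f w * g w ≤ w.length + 1) : FLG Good (fun w => f w * g w) := by
  obtain ⟨f', h1, h2⟩ := hf
  obtain ⟨g', h3, h4⟩ := hg
  refine ⟨fun w => min (f' w * g' w) (w.length + 1), h1.mul h3, fun w hw => ?_⟩
  simp only [h2 w hw, h4 w hw]
  exact min_eq_left (h w hw)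

theorem pow (hf : FLG Good f) (hg : FLG Good g)
    (h : ∀ w, Good w → f w ^ g w ≤ w.length + 1) : FLG Good (fun w => f w ^ g w) := by
  obtain ⟨f', h1, h2⟩ := hf
  obtain ⟨g', h3, h4⟩ := hg
  refine ⟨fun w => min (f' w ^ g' w) (w.length + 1), h1.pow h3, fun w hw => ?_⟩
  simp only [h2 w hw, h4 w hw]
  exact min_eq_left (h w hw)

theorem div (hf : FLG Good f) (hg : FLG Good g) : FLG Good (fun w => f w / g w) := by
  obtain ⟨f', h1, h2⟩ := hf
  obtain ⟨g', h3, h4⟩ := hg
  exact ⟨fun w => f' w / g' w, h1.div h3, fun w hw => by simp only [h2 w hw, h4 w hw]⟩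

theorem log2 (hf : FLG Good f) : FLG Good (fun w => Nat.log 2 (f w)) := by
  obtain ⟨f', h1, h2⟩ := hf
  exact ⟨fun w => Nat.log 2 (f' w), h1.log2, fun w hw => by simp only [h2 w hw]⟩

/-- The least prime above. -/
theorem findPrime (hf : FLG Good f)
    (h : ∀ w, Good w → Nat.find (Nat.exists_infinite_primes (f w)) ≤ w.length + 1) :
    FLG Good (fun w => Nat.find (Nat.exists_infinite_primes (f w))) := by
  obtain ⟨f', h1, h2⟩ := hf
  classical
  refine ⟨fun w => min (Nat.find (Nat.exists_infinite_primes (f' w))) (w.length + 1), ?_,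
    fun w hw => ?_⟩
  · have hlt : IsL β ((Empty ⊕ Unit) ⊕ Unit) (fun w z =>
        z (Sum.inr ()) < z (Sum.inl (Sum.inr ()))) := isL_lt (FL.proj _) (FL.proj _)
    have hf2 : FL β ((Empty ⊕ Unit) ⊕ Unit) (fun w _ => f' w) :=
      FL.comp (U := Empty) h1 (g := fun u => u.elim) (fun u => u.elim)
    have hf3 : FL β (Empty ⊕ Unit) (fun w _ => f' w) :=
      FL.comp (U := Empty) h1 (g := fun u => u.elim) (fun u => u.elim)
    have hle : IsL β ((Empty ⊕ Unit) ⊕ Unit) (fun w z => f' w ≤ z (Sum.inr ())) :=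
      isL_le hf2 (FL.proj _)
    have hpr : IsL β ((Empty ⊕ Unit) ⊕ Unit) (fun w z => (z (Sum.inr ())).Prime) :=
      isL_prime (FL.proj _)
    have hno : IsL β (Empty ⊕ Unit) (fun w z => ∀ y : Unit → ℕ, (∀ u, y u ≤ w.length + 1) →
        ¬ (y () < z (Sum.inr ()) ∧ f' w ≤ y () ∧ (y ()).Prime)) :=
      (((hlt.and (hle.and hpr)).not).all).congr (by
        intro w x hx
        simp only [Sum.elim_inr, Sum.elim_inl])
    have hle3 : IsL β (Empty ⊕ Unit) (fun w z => f' w ≤ z (Sum.inr ())) :=
      isL_le hf3 (FL.proj _)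
    have hpr3 : IsL β (Empty ⊕ Unit) (fun w z => (z (Sum.inr ())).Prime) :=
      isL_prime (FL.proj _)
    have hend : IsL β (Empty ⊕ Unit) (fun w z => z (Sum.inr ()) = w.length + 1) :=
      isL_eq (FL.proj _) FL.len
    refine FL.of_unique (hno.and ((hle3.and hpr3).or hend)) ?_ ?_
    · intro w x _
      exact min_le_right _ _
    · intro w x t _ ht
      simp only [Sum.elim_inr]
      set P := Nat.find (Nat.exists_infinite_primes (f' w)) with hP
      have hPs := Nat.find_spec (Nat.exists_infinite_primes (f' w))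
      rw [← hP] at hPs
      constructor
      · rintro ⟨h3, h4⟩
        rcases h4 with ⟨h4, h5⟩ | h4
        · have h6 : P ≤ t := Nat.find_min' _ ⟨h4, h5⟩
          have h7 : ¬ P < t := by
            intro h8
            exact h3 (fun _ => P) (fun _ => by omega) ⟨h8, hPs.1, hPs.2⟩
          rw [min_eq_left (by omega)]
          omega
        · have h7 : ¬ P < t := by
            intro h8
            exact h3 (fun _ => P) (fun _ => by omega) ⟨h8, hPs.1, hPs.2⟩
          rw [min_eq_right (by omega)]
          exact h4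
      · intro h3
        refine ⟨fun y hy h4 => ?_, ?_⟩
        · have h5 : P ≤ y () := Nat.find_min' _ ⟨h4.2.1, h4.2.2⟩
          have h6 : t ≤ P := by rw [h3]; exact min_le_left _ _
          omega
        · by_cases h4 : P ≤ w.length + 1
          · rw [min_eq_left h4] at h3
            rw [h3]
            exact Or.inl ⟨hPs.1, hPs.2⟩
          · rw [min_eq_right (by omega)] at h3
            exact Or.inr h3
  · simp only [h2 w hw]
    exact min_eq_left (h w hw)

end FLG

end Pool.Agent.Helper17.UL
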