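import Pool.Agent.Helper17.UL.MachN

set_option autoImplicit false

/-!
Uniform version: the numeric form of the stack machine is right.
-/

namespace Pool.Agent.Helper17.UL

open Pool.Agent.Helper17.SL

section

variable {α Q Γ : Type} [Fintype α] [Fintype Q] [Fintype Γ] {k : ℕ}
variable {n T R N : ℕ} [Fintype (Pend Γ R)]

theorem cV_0 (v : VT Q Γ k n T R N) : cV v 0 = (v.1 : ℕ) := rfl
theorem cV_1 (v : VT Q Γ k n T R N) : cV v 1 = (v.2.1 : ℕ) := rfl
theorem cV_2 (v : VT Q Γ k n T R N) : cV v ⟨2, by omega⟩ = (v.2.2.1.1 : ℕ) := rfl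
theorem cV_3 (v : VT Q Γ k n T R N) : cV v ⟨3, by omega⟩ = fc v.2.2.1.2.1 := rfl
theorem cV_4 (v : VT Q Γ k n T R N) : cV v ⟨4, by omega⟩ = fc v.2.2.1.2.2.2 := rfl
theorem cV_5 (v : VT Q Γ k n T R N) : cV v ⟨5, by omega⟩ = oc v.2.2.2 := rfl
theorem cV_pj (v : VT Q Γ k n T R N) (j : Fin k) : cV v (pj j) = (v.2.2.1.2.2.1 j : ℕ) := by
  have h : 6 ≤ ((pj j : Fin (k + 4 + 2)) : ℕ) := by simp [pj]
  unfold cV
  rw [dif_pos h]
  congr 2

/-- Every index is one of the seven kinds. -/
theorem idx_cases {P : Fin (k + 4 + 2) → Prop} (h0 : P 0) (h1 : P 1) (h2 : P ⟨2, by omega⟩)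
    (h3 : P ⟨3, by omega⟩) (h4 : P ⟨4, by omega⟩) (h5 : P ⟨5, by omega⟩)
    (h6 : ∀ j : Fin k, P (pj j)) (i : Fin (k + 4 + 2)) : P i := by
  obtain ⟨i, hi⟩ := i
  by_cases h : 6 ≤ i
  · have := h6 ⟨i - 6, by omega⟩
    have e : (pj ⟨i - 6, by omega⟩ : Fin (k + 4 + 2)) = ⟨i, hi⟩ := by
      apply Fin.ext
      simp [pj]
      omega
    rwa [e] at this
  · have h' : i < 6 := by omega
    interval_cases i
    · exact h0
    · exact h1
    · exact h2
    · exact h3
    · exact h4
    · exact h5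

theorem oc_eq_zero {X : Type} [Fintype X] (x : Option X) : oc x = 0 ↔ x = none := by
  cases x <;> simp [oc]

theorem fc_injective {X : Type} [Fintype X] : Function.Injective (fun x : X => fc x) :=
  fun _ _ h => fc_inj h

theorem nPend_iff (v : VT Q Γ k n T R N) :
    nPend Γ R (cV v) ↔ v.2.2.1.2.2.2.1 ≠ [] := by
  unfold nPend
  rw [cV_4, tabH, ptab_code fc_injective, Ne, oc_eq_zero, List.head?_eq_none_iff]

theorem nHalt_iff (F : Q → Bool) (v : VT Q Γ k n T R N) :
    nHalt F T (cV v) ↔ (F v.2.2.1.2.1 = true ∨ (v.2.2.1.1 : ℕ) = T) := by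
  unfold nHalt
  rw [cV_3, cV_2, tabF, ptab_code fc_injective]
  cases F v.2.2.1.2.1 <;> simp

theorem nFlat_iff (v : VT Q Γ k n T R N) :
    nFlat (cV v) ↔ (v.2.2.2 = none ∨ (v.2.1 : ℕ) = 0) := by
  unfold nFlat
  rw [cV_5, cV_1, oc_eq_zero]

theorem dval_cV (w : List α) (v : VT Q Γ k n T R N) :
    dval (fun j => oc (w[(v.2.2.1.2.2.1 j : ℕ) - 1]?)) (cV v) =
      dcode (v.2.2.1.2.1, (fun j => (decide ((v.2.2.1.2.2.1 j : ℕ) = 0),
        w[(v.2.2.1.2.2.1 j : ℕ) - 1]?)), v.2.2.2) := by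
  funext i
  rcases i with (_ | _) | j | j
  · rfl
  · rfl
  · simp only [dval, dcode, cV_pj]
    by_cases h : (v.2.2.1.2.2.1 j : ℕ) = 0 <;> simp [h]
  · rfl

theorem mvpN_eq (n : ℕ) (d : Fin 3) (x : ℕ) : mvpN n (d : ℕ) x = mvp n d x := by
  unfold mvpN mvp
  have h0 : ((d : ℕ) = 0) ↔ d = 0 := by
    constructor
    · intro h; exact Fin.ext h
    · rintro rfl; rfl
  have h1 : ((d : ℕ) = 1) ↔ d = 1 := by
    constructor
    · intro h; exact Fin.ext h
    · rintro rfl; rfl
  simp only [h0, h1]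

section newc

variable (δ : PDTrans α Q Γ k) (F : Q → Bool) (lt : Fin k → ℕ) (g x : Fin (k + 4 + 2) → ℕ)

theorem newc_0 : newc δ F R N T n lt g x 0 = min (x 0 + 1) N := rfl

open Classical in
theorem newc_1 : newc δ F R N T n lt g x 1 = (if nPend Γ R x then min (x 1 + 1) N
    else if nHalt F T x ∨ nFlat x then x 1 else min (x 1 - 1) N) := rfl

open Classical in
theorem newc_2 : newc δ F R N T n lt g x ⟨2, by omega⟩ =
    (if nPend Γ R x ∨ nHalt F T x then x ⟨2, by omega⟩ else min (x ⟨2, by omega⟩ + 1) T) := rfl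

open Classical in
theorem newc_3 : newc δ F R N T n lt g x ⟨3, by omega⟩ =
    (if nPend Γ R x ∨ nHalt F T x then x ⟨3, by omega⟩ else tabQ δ (dval lt x)) := rfl

open Classical in
theorem newc_4 : newc δ F R N T n lt g x ⟨4, by omega⟩ =
    (if nPend Γ R x then tabT Γ R (x ⟨4, by omega⟩) else if nHalt F T x then x ⟨4, by omega⟩
      else tabP R δ (dval lt x)) := rfl

open Classical in
theorem newc_5 : newc δ F R N T n lt g x ⟨5, by omega⟩ =
    (if nPend Γ R x then tabH Γ R (x ⟨4, by omega⟩)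
      else if nHalt F T x ∨ nFlat x then x ⟨5, by omega⟩ else g ⟨5, by omega⟩) := rfl

open Classical in
theorem newc_pj (j : Fin k) : newc δ F R N T n lt g x (pj j) =
    (if nPend Γ R x ∨ nHalt F T x then x (pj j)
      else min (mvpN n (tabM δ j (dval lt x)) (x (pj j))) (n + 1)) := by
  have h6 : 6 ≤ ((pj j : Fin (k + 4 + 2)) : ℕ) := by simp [pj]
  rw [newc, dif_pos h6]
  rfl

end newc

/-- The new control after a move. -/
def nctl (δ : PDTrans α Q Γ k) (w : List α) (x : VT Q Γ k n T R N) : Ctl Q Γ k n T R :=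
  (clamp T (x.2.2.1.1 + 1),
    (δ x.2.2.1.2.1 (fun j => (decide ((x.2.2.1.2.2.1 j : ℕ) = 0),
      w[(x.2.2.1.2.2.1 j : ℕ) - 1]?)) x.2.2.2).1,
    fun i => ⟨min (mvp n ((δ x.2.2.1.2.1 (fun j => (decide ((x.2.2.1.2.2.1 j : ℕ) = 0),
      w[(x.2.2.1.2.2.1 j : ℕ) - 1]?)) x.2.2.2).2.1 i)
      (x.2.2.1.2.2.1 i)) (n + 1), by omega⟩,
    ⟨((δ x.2.2.1.2.1 (fun j => (decide ((x.2.2.1.2.2.1 j : ℕ) = 0),
      w[(x.2.2.1.2.2.1 j : ℕ) - 1]?)) x.2.2.2).2.2.reverse).take R, by simp⟩)

theorem cV_newc_pend (δ : PDTrans α Q Γ k) (F : Q → Bool) (lt : Fin k → ℕ)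
    (g x : VT Q Γ k n T R N) (y : Γ) (ys : List Γ) (h : ys.length ≤ R)
    (hy : x.2.2.1.2.2.2.1 = y :: ys) :
    cV (N := N) (clamp N (x.1 + 1), clamp N (x.2.1 + 1),
      ((x.2.2.1.1, x.2.2.1.2.1, x.2.2.1.2.2.1, ⟨ys, h⟩) : Ctl Q Γ k n T R), some y) =
      newc δ F R N T n lt (cV g) (cV x) := by
  have hp : nPend Γ R (cV x) := by
    rw [nPend_iff, hy]
    simp
  funext i
  revert i
  apply idx_cases
  · rfl
  · rw [newc_1, if_pos hp]; rfl
  · rw [newc_2, if_pos (Or.inl hp)]; rfl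
  · rw [newc_3, if_pos (Or.inl hp)]; rfl
  · rw [newc_4, if_pos hp, cV_4, cV_4, tabT, ptab_code fc_injective]
    congr 1
    apply Subtype.ext
    simp [hy]
  · rw [newc_5, if_pos hp, cV_4, cV_5, tabH, ptab_code fc_injective, hy]
    rfl
  · intro j
    rw [newc_pj, if_pos (Or.inl hp), cV_pj, cV_pj]

theorem cV_newc_halt (δ : PDTrans α Q Γ k) (F : Q → Bool) (lt : Fin k → ℕ)
    (g x : VT Q Γ k n T R N) (hp : ¬ nPend Γ R (cV x)) (hh : nHalt F T (cV x)) :
    cV (N := N) (clamp N (x.1 + 1), x.2.1, x.2.2.1, x.2.2.2) =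
      newc δ F R N T n lt (cV g) (cV x) := by
  funext i
  revert i
  apply idx_cases
  · rfl
  · rw [newc_1, if_neg hp, if_pos (Or.inl hh)]; rfl
  · rw [newc_2, if_pos (Or.inr hh)]; rfl
  · rw [newc_3, if_pos (Or.inr hh)]; rfl
  · rw [newc_4, if_neg hp, if_pos hh]; rfl
  · rw [newc_5, if_neg hp, if_pos (Or.inl hh)]; rfl
  · intro j
    rw [newc_pj, if_pos (Or.inr hh), cV_pj, cV_pj]

theorem cV_newc_move (δ : PDTrans α Q Γ k) (F : Q → Bool) (w : List α)
    (g x : VT Q Γ k n T R N) (hp : ¬ nPend Γ R (cV x)) (hh : ¬ nHalt F T (cV x)) (fl : Prop)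
    [Decidable fl] (hfl : fl ↔ nFlat (cV x)) :
    cV (N := N) (clamp N (x.1 + 1), if fl then x.2.1 else clamp N (x.2.1 - 1), nctl δ w x,
      if fl then x.2.2.2 else g.2.2.2) =
      newc δ F R N T n (fun j => oc (w[(x.2.2.1.2.2.1 j : ℕ) - 1]?)) (cV g) (cV x) := by
  have hph : ¬ (nPend Γ R (cV x) ∨ nHalt F T (cV x)) := by tauto
  have hcond : (nHalt F T (cV x) ∨ nFlat (cV x)) ↔ fl := by tauto
  funext i
  revert i
  apply idx_cases
  · rfl
  · rw [newc_1, if_neg hp, cV_1]
    by_cases h : fl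
    · rw [if_pos (hcond.mpr h)]
      simp only [if_pos h]
      rfl
    · rw [if_neg (fun h' => h (hcond.mp h'))]
      simp only [if_neg h]
      rfl
  · rw [newc_2, if_neg hph]; rfl
  · rw [newc_3, if_neg hph, dval_cV, tabQ, ptab_code dcode_inj]; rfl
  · rw [newc_4, if_neg hp, if_neg hh, dval_cV, tabP, ptab_code dcode_inj]; rfl
  · rw [newc_5, if_neg hp, cV_5]
    by_cases h : fl
    · rw [if_pos (hcond.mpr h)]
      simp only [if_pos h]
      rfl
    · rw [if_neg (fun h' => h (hcond.mp h'))]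
      simp only [if_neg h]
      rfl
  · intro j
    rw [newc_pj, if_neg hph, cV_pj, cV_pj, dval_cV, tabM, ptab_code dcode_inj, mvpN_eq]
    rfl

theorem phi0_num (δ : PDTrans α Q Γ k) (F : Q → Bool) (w : List α) (g x : VT Q Γ k n T R N) :
    cRes cV (phi0 (N := N) (wstp (n := n) (T := T) (R := R) δ F w) g x) =
      phi0num δ F R N T n (fun j => oc (w[(x.2.2.1.2.2.1 j : ℕ) - 1]?)) (cV g) (cV x) := by
  have key : ∀ z : VT Q Γ k n T R N, ¬ nPop F Γ R T (cV g) (cV x) →
      cV z = newc δ F R N T n (fun j => oc (w[(x.2.2.1.2.2.1 j : ℕ) - 1]?)) (cV g) (cV x) →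
      cRes cV (.done z x) =
      phi0num δ F R N T n (fun j => oc (w[(x.2.2.1.2.2.1 j : ℕ) - 1]?)) (cV g) (cV x) := by
    intro z hz1 hz2
    funext q
    cases q with
    | tag => simp only [phi0num, cRes, if_neg hz1]
    | x i => simp only [phi0num, cRes, if_neg hz1, hz2]
    | u i => simp only [phi0num, cRes, if_neg hz1]
  by_cases hp : nPend Γ R (cV x)
  · have h1 := (nPend_iff x).mp hp
    obtain ⟨t, ht, ⟨a, q, pos, ⟨l, hl⟩⟩, X⟩ := x
    cases l with
    | nil => exact absurd rfl h1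
    | cons y ys =>
      have hys : ys.length ≤ R := by simp at hl; omega
      exact key _ (fun h => h.1 hp) (cV_newc_pend δ F _ g _ y ys hys rfl)
  · have h1 : x.2.2.1.2.2.2.1 = [] := by
      by_contra h
      exact hp ((nPend_iff x).mpr h)
    by_cases hh : nHalt F T (cV x)
    · have hh' := (nHalt_iff F x).mp hh
      have hz := cV_newc_halt δ F (fun j => oc (w[(x.2.2.1.2.2.1 j : ℕ) - 1]?)) g x hp hh
      have hph : phi0 (N := N) (wstp (n := n) (T := T) (R := R) δ F w) g x =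
          .done (clamp N (x.1 + 1), x.2.1, x.2.2.1, x.2.2.2) x := by
        clear hz key hp hh
        obtain ⟨t, ht, ⟨a, q, pos, ⟨l, hl⟩⟩, X⟩ := x
        simp only at h1 hh'
        subst h1
        unfold phi0 wstp mstp
        simp only [if_pos hh']
      rw [hph]
      exact key _ (fun h => h.2.1 hh) hz
    · have hh' := (nHalt_iff F x).not.mp hh
      have hst : wstp (n := n) (T := T) (R := R) δ F w x.2.2.1 x.2.2.2 =
          (nctl δ w x, if x.2.2.2.isNone then .stay else .pop) := by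
        clear key hp hh
        obtain ⟨t, ht, ⟨a, q, pos, ⟨l, hl⟩⟩, X⟩ := x
        simp only at h1 hh'
        subst h1
        unfold wstp mstp nctl
        simp only [if_neg hh']
      by_cases hf : nFlat (cV x)
      · have hf' := (nFlat_iff x).mp hf
        have hz := cV_newc_move δ F w g x hp hh True (by simpa using hf)
        simp only [if_true] at hz
        have hph : phi0 (N := N) (wstp (n := n) (T := T) (R := R) δ F w) g x =
            .done (clamp N (x.1 + 1), x.2.1, nctl δ w x, x.2.2.2) x := by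
          unfold phi0
          rw [hst]
          rcases hf' with h | h
          · simp [h]
          · cases x.2.2.2.isNone <;> simp [h]
        rw [hph]
        exact key _ (fun h => h.2.2.1 hf) hz
      · have hf' := (nFlat_iff x).not.mp hf
        have hX : x.2.2.2.isNone = false := by
          cases h : x.2.2.2 with
          | none => exact absurd (Or.inl h) hf'
          | some y => rfl
        have h0 : ¬ (x.2.1 : ℕ) = 0 := fun h => hf' (Or.inr h)
        by_cases hle : (x.2.1 : ℕ) ≤ g.2.1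
        · have hph : phi0 (N := N) (wstp (n := n) (T := T) (R := R) δ F w) g x = .popped x := by
            unfold phi0
            rw [hst]
            simp [hX, h0, hle]
          rw [hph]
          have hpop : nPop F Γ R T (cV g) (cV x) := ⟨hp, hh, hf, hle⟩
          funext q
          cases q with
          | tag => simp only [phi0num, cRes, nPopped, if_pos hpop]
          | x i => simp only [phi0num, cRes, nPopped, if_pos hpop]
          | u i => simp only [phi0num, cRes, nPopped, if_pos hpop]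
        · have hz := cV_newc_move δ F w g x hp hh False (by simpa using hf)
          simp only [if_false] at hz
          have hph : phi0 (N := N) (wstp (n := n) (T := T) (R := R) δ F w) g x =
              .done (clamp N (x.1 + 1), clamp N (x.2.1 - 1), nctl δ w x, g.2.2.2) x := by
            unfold phi0
            rw [hst]
            simp [hX, h0, hle]
          rw [hph]
          exact key _ (fun h => hle h.2.2.2) hz

end

end Pool.Agent.Helper17.UL
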