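import Pool.Agent.Helper17.UL.PhiSDef
import Pool.Agent.Helper17.SL.Main

set_option autoImplicit false

/-!
Uniform version: numeric form of the stack machine of a pushdown automaton.
-/

namespace Pool.Agent.Helper17.UL

open Pool.Agent.Helper17.SL

/-- Code of an element of a finite type. -/
noncomputable def fc {X : Type} [Fintype X] (x : X) : ℕ := Fintype.equivFin X x

/-- Code of an option. -/
noncomputable def oc {X : Type} [Fintype X] : Option X → ℕ
  | none => 0
  | some x => fc x + 1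

theorem fc_inj {X : Type} [Fintype X] {x y : X} (h : fc x = fc y) : x = y := by
  unfold fc at h
  exact (Fintype.equivFin X).injective (Fin.ext h)

theorem fc_lt {X : Type} [Fintype X] (x : X) : fc x < Fintype.card X :=
  (Fintype.equivFin X x).isLt

theorem oc_inj {X : Type} [Fintype X] {x y : Option X} (h : oc x = oc y) : x = y := by
  cases x <;> cases y <;> simp [oc] at h ⊢
  exact fc_inj h

theorem oc_lt {X : Type} [Fintype X] (x : Option X) : oc x < Fintype.card X + 1 := by
  cases x with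
  | none => simp [oc]
  | some x => simpa [oc] using fc_lt x

open Classical in
/-- A function on codes. -/
noncomputable def ptab {X Y : Type} (c : X → Y) (g : X → ℕ) (p : Y) : ℕ :=
  if h : ∃ x, c x = p then g h.choose else 0

theorem ptab_code {X Y : Type} {c : X → Y} (hc : Function.Injective c) (g : X → ℕ) (x : X) :
    ptab c g (c x) = g x := by
  have h : ∃ y, c y = c x := ⟨x, rfl⟩
  unfold ptab
  rw [dif_pos h]
  exact congrArg g (hc h.choose_spec)

section

variable {α Q Γ : Type} [Fintype α] [Fintype Q] [Fintype Γ] {k : ℕ}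

/-- The data on which a move depends: codes of the state and of the top symbol, and for each head
whether it is at the left end and the code of what it sees. -/
abbrev DI (k : ℕ) : Type := Bool ⊕ (Fin k ⊕ Fin k)

/-- Code of the data. -/
noncomputable def dcode (x : Q × (Fin k → Bool × Option α) × Option Γ) : DI k → ℕ
  | .inl false => fc x.1
  | .inl true => oc x.2.2
  | .inr (.inl j) => if (x.2.1 j).1 then 1 else 0
  | .inr (.inr j) => oc (x.2.1 j).2

theorem dcode_inj : Function.Injective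
    (dcode : Q × (Fin k → Bool × Option α) × Option Γ → DI k → ℕ) := by
  rintro ⟨q, v, X⟩ ⟨q', v', X'⟩ h
  have h1 := congrFun h (.inl false)
  have h2 := congrFun h (.inl true)
  simp only [dcode] at h1 h2
  have h3 : v = v' := by
    funext j
    have e1 := congrFun h (.inr (.inl j))
    have e2 := congrFun h (.inr (.inr j))
    simp only [dcode] at e1 e2
    refine Prod.ext ?_ (oc_inj e2)
    cases h4 : (v j).1 <;> cases h5 : (v' j).1 <;> simp_all
  rw [fc_inj h1, oc_inj h2, h3]

variable {n T R N : ℕ} [Fintype (Pend Γ R)]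

/-- Index of a head position in a value. -/
def pj (j : Fin k) : Fin (k + 4 + 2) := ⟨j + 6, by omega⟩

/-- The value as a tuple: time, height, number of moves, state, pending word, top symbol, head
positions. -/
noncomputable def cV (v : VT Q Γ k n T R N) (i : Fin (k + 4 + 2)) : ℕ :=
  if h : 6 ≤ (i : ℕ) then (v.2.2.1.2.2.1 ⟨i - 6, by omega⟩ : ℕ)
  else if (i : ℕ) = 0 then (v.1 : ℕ)
  else if (i : ℕ) = 1 then (v.2.1 : ℕ)
  else if (i : ℕ) = 2 then (v.2.2.1.1 : ℕ)
  else if (i : ℕ) = 3 then fc v.2.2.1.2.1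
  else if (i : ℕ) = 4 then fc v.2.2.1.2.2.2
  else oc v.2.2.2

/-- Position after a movement. -/
def mvpN (n d x : ℕ) : ℕ := if d = 0 then x - 1 else if d = 1 then x else min (x + 1) (n + 1)

/-- The tuple `dcode` of the data of a value. -/
def dval (lt : Fin k → ℕ) (x : Fin (k + 4 + 2) → ℕ) : DI k → ℕ
  | .inl false => x ⟨3, by omega⟩
  | .inl true => x ⟨5, by omega⟩
  | .inr (.inl j) => if x (pj j) = 0 then 1 else 0
  | .inr (.inr j) => lt j

/-- Tables of the move. -/
noncomputable def tabQ (δ : PDTrans α Q Γ k) : (DI k → ℕ) → ℕ :=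
  ptab (dcode (α := α) (Q := Q) (Γ := Γ)) (fun x => fc (δ x.1 x.2.1 x.2.2).1)
noncomputable def tabM (δ : PDTrans α Q Γ k) (j : Fin k) : (DI k → ℕ) → ℕ :=
  ptab (dcode (α := α) (Q := Q) (Γ := Γ)) (fun x => ((δ x.1 x.2.1 x.2.2).2.1 j : ℕ))
noncomputable def tabP (R : ℕ) [Fintype (Pend Γ R)] (δ : PDTrans α Q Γ k) : (DI k → ℕ) → ℕ :=
  ptab (dcode (α := α) (Q := Q) (Γ := Γ)) (fun x =>
    fc (⟨((δ x.1 x.2.1 x.2.2).2.2.reverse).take R, by simp⟩ : Pend Γ R))

/-- Tables of the pending words: code of the head (`0` if the word is empty), code of the tail. -/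
noncomputable def tabH (Γ : Type) [Fintype Γ] (R : ℕ) [Fintype (Pend Γ R)] : ℕ → ℕ :=
  ptab (fun p : Pend Γ R => fc p) (fun p => oc p.1.head?)
noncomputable def tabT (Γ : Type) [Fintype Γ] (R : ℕ) [Fintype (Pend Γ R)] : ℕ → ℕ :=
  ptab (fun p : Pend Γ R => fc p) (fun p => fc (⟨p.1.tail, by
    have := p.2
    simp only [List.length_tail]
    omega⟩ : Pend Γ R))

/-- Table of the accepting states. -/
noncomputable def tabF (F : Q → Bool) : ℕ → ℕ :=
  ptab (fun q : Q => fc q) (fun q => if F q then 1 else 0)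

/-- Is the pending word nonempty? -/
def nPend (Γ : Type) [Fintype Γ] (R : ℕ) [Fintype (Pend Γ R)] (x : Fin (k + 4 + 2) → ℕ) : Prop :=
  tabH Γ R (x ⟨4, by omega⟩) ≠ 0

/-- Has the machine halted? -/
def nHalt (F : Q → Bool) (T : ℕ) (x : Fin (k + 4 + 2) → ℕ) : Prop :=
  tabF F (x ⟨3, by omega⟩) = 1 ∨ x ⟨2, by omega⟩ = T

/-- Does the machine make a move which does not change the height? -/
def nFlat (x : Fin (k + 4 + 2) → ℕ) : Prop := x ⟨5, by omega⟩ = 0 ∨ x 1 = 0

open Classical in
/-- The new value. -/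
noncomputable def newc (δ : PDTrans α Q Γ k) (F : Q → Bool) (R : ℕ) [Fintype (Pend Γ R)]
    (N T n : ℕ) (lt : Fin k → ℕ) (g x : Fin (k + 4 + 2) → ℕ) (i : Fin (k + 4 + 2)) : ℕ :=
  if h : 6 ≤ (i : ℕ) then
    (if nPend Γ R x ∨ nHalt F T x then x i
      else min (mvpN n (tabM δ ⟨i - 6, by omega⟩ (dval lt x)) (x i)) (n + 1))
  else if (i : ℕ) = 0 then min (x 0 + 1) N
  else if (i : ℕ) = 1 then
    (if nPend Γ R x then min (x 1 + 1) N
      else if nHalt F T x ∨ nFlat x then x 1 else min (x 1 - 1) N)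
  else if (i : ℕ) = 2 then
    (if nPend Γ R x ∨ nHalt F T x then x i else min (x i + 1) T)
  else if (i : ℕ) = 3 then
    (if nPend Γ R x ∨ nHalt F T x then x i else tabQ δ (dval lt x))
  else if (i : ℕ) = 4 then
    (if nPend Γ R x then tabT Γ R (x i) else if nHalt F T x then x i
      else tabP R δ (dval lt x))
  else
    (if nPend Γ R x then tabH Γ R (x ⟨4, by omega⟩)
      else if nHalt F T x ∨ nFlat x then x i else g i)

/-- Is the result `popped`? -/
def nPop (F : Q → Bool) (Γ : Type) [Fintype Γ] (R : ℕ) [Fintype (Pend Γ R)] (T : ℕ)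
    (g x : Fin (k + 4 + 2) → ℕ) : Prop :=
  ¬ nPend Γ R x ∧ ¬ nHalt F T x ∧ ¬ nFlat x ∧ x 1 ≤ g 1

open Classical in
/-- Numeric form of `phi0`. -/
noncomputable def phi0num (δ : PDTrans α Q Γ k) (F : Q → Bool) (R : ℕ) [Fintype (Pend Γ R)]
    (N T n : ℕ) (lt : Fin k → ℕ) (g x : Fin (k + 4 + 2) → ℕ) : RI (k + 4) → ℕ
  | .tag => if nPop F Γ R T g x then 1 else 2
  | .x i => if nPop F Γ R T g x then x i else newc δ F R N T n lt g x i
  | .u i => if nPop F Γ R T g x then 0 else x i

end

end Pool.Agent.Helper17.UL
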