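import Pool.Agent.Helper17.UL.Defs3

set_option autoImplicit false

/-!
Uniform version: semantics of the generated instructions.
-/

namespace Pool.Agent.Helper17.UL

open Pool.Agent.Helper17.SL

variable {A : Type}

/-! ### values -/

theorem Scheme.val_lt (S : Scheme A) {G : A → Prop} {dep : A → ℕ} {b r : ℕ}
    (hS : S.Ok G dep b r) (n : ℕ) (a : A) (ha : G a) (hn : dep a ≤ n) : S.val n a < 2 ^ b := by
  induction n generalizing a with
  | zero =>
    have hl : S.isLeaf a := by
      by_contra h
      have := hS.d1 a ha h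
      omega
    exact hS.leaf_lt a ha hl
  | succ n ih =>
    unfold Scheme.val
    split_ifs with hl
    · exact hS.leaf_lt a ha hl
    · have h1 := hS.d1 a ha hl
      have h2 := hS.d2 a ha hl
      have hs := hS.sel_lt a ha hl _ (ih _ (hS.g1 a ha hl) (by omega)) _
        (ih _ (hS.g2 a ha hl) (by omega))
      have h3 := hS.dk a ha hl _ hs
      exact ih _ (hS.gk a ha hl _ hs) (by omega)

theorem Scheme.val_stable (S : Scheme A) {G : A → Prop} {dep : A → ℕ} {b r : ℕ}
    (hS : S.Ok G dep b r) (n n' : ℕ) (a : A) (ha : G a) (hn : dep a ≤ n) (hn' : dep a ≤ n') :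
    S.val n a = S.val n' a := by
  induction n generalizing a n' with
  | zero =>
    have hl : S.isLeaf a := by
      by_contra h
      have := hS.d1 a ha h
      omega
    cases n' with
    | zero => rfl
    | succ n' => rw [Scheme.val, Scheme.val, if_pos hl]
  | succ n ih =>
    by_cases hl : S.isLeaf a
    · cases n' with
      | zero => rw [Scheme.val, Scheme.val, if_pos hl]
      | succ n' => rw [Scheme.val, Scheme.val, if_pos hl, if_pos hl]
    · have h1 := hS.d1 a ha hl
      have h2 := hS.d2 a ha hl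
      cases n' with
      | zero => omega
      | succ n' =>
        have hs := hS.sel_lt a ha hl _ (S.val_lt hS n _ (hS.g1 a ha hl) (by omega)) _
          (S.val_lt hS n _ (hS.g2 a ha hl) (by omega))
        have h3 := hS.dk a ha hl _ hs
        rw [Scheme.val, Scheme.val, if_neg hl, if_neg hl,
          ih n' _ (hS.gk a ha hl _ hs) (by omega) (by omega),
          ih n' _ (hS.g1 a ha hl) (by omega) (by omega),
          ih n' _ (hS.g2 a ha hl) (by omega) (by omega)]

/-- The value. -/
noncomputable def Scheme.vv (S : Scheme A) (dep : A → ℕ) (a : A) : ℕ := S.val (dep a) a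

theorem Scheme.vv_leaf (S : Scheme A) (dep : A → ℕ) (a : A) (h : S.isLeaf a) :
    S.vv dep a = S.leafVal a := by
  unfold Scheme.vv
  cases dep a with
  | zero => rfl
  | succ n => rw [Scheme.val, if_pos h]

theorem Scheme.vv_step (S : Scheme A) {G : A → Prop} {dep : A → ℕ} {b r : ℕ}
    (hS : S.Ok G dep b r) (a : A) (ha : G a) (hl : ¬ S.isLeaf a) :
    S.vv dep a = S.vv dep (S.kap a (S.sel a (S.vv dep (S.c1 a)) (S.vv dep (S.c2 a)))) := by
  have h1 := hS.d1 a ha hl
  have h2 := hS.d2 a ha hl
  obtain ⟨n, hn⟩ : ∃ n, dep a = n + 1 := ⟨dep a - 1, by omega⟩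
  have e1 : S.val n (S.c1 a) = S.vv dep (S.c1 a) :=
    S.val_stable hS n _ _ (hS.g1 a ha hl) (by omega) le_rfl
  have e2 : S.val n (S.c2 a) = S.vv dep (S.c2 a) :=
    S.val_stable hS n _ _ (hS.g2 a ha hl) (by omega) le_rfl
  have hs := hS.sel_lt a ha hl _ (S.val_lt hS _ _ (hS.g1 a ha hl) le_rfl) _
    (S.val_lt hS _ _ (hS.g2 a ha hl) le_rfl)
  have h3 := hS.dk a ha hl _ hs
  have hg := hS.gk a ha hl _ hs
  have e3 : S.vv dep a = S.val n (S.kap a (S.sel a (S.val n (S.c1 a)) (S.val n (S.c2 a)))) := by
    unfold Scheme.vv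
    rw [hn, Scheme.val, if_neg hl]
  rw [e3, e1, e2]
  exact S.val_stable hS n _ _ hg (by
    have : dep (S.kap a (S.sel a (S.vv dep (S.c1 a)) (S.vv dep (S.c2 a)))) + S.dig a + 2 ≤
      dep a := h3
    omega) le_rfl

/-! ### lists of items -/

section

variable (S : Scheme A) (r f b : ℕ)

theorem foldl_ge {X : Type} (F : X → ℕ → X) (k r : ℕ) (hk : k ≤ r)
    (h : ∀ R c, k ≤ c → c < r → F R c = R) (R : X) :
    (List.range r).foldl F R = (List.range k).foldl F R := by
  induction r, hk using Nat.le_induction with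
  | base => rfl
  | succ r hk ih =>
    rw [List.range_succ, List.foldl_append, ih (fun R c h1 h2 => h R c h1 (by omega))]
    simp only [List.foldl_cons, List.foldl_nil]
    exact h _ r hk (by omega)

theorem foldl_seven {X : Type} (F : X → ℕ → X) (K : ℕ) (R : X) :
    (List.range (7 * K)).foldl F R = (List.range K).foldl (fun R q =>
      F (F (F (F (F (F (F R (7 * q)) (7 * q + 1)) (7 * q + 2)) (7 * q + 3)) (7 * q + 4))
        (7 * q + 5)) (7 * q + 6)) R := by
  induction K with
  | zero => rfl
  | succ K ih =>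
    rw [show 7 * (K + 1) = 7 * K + 1 + 1 + 1 + 1 + 1 + 1 + 1 by ring]
    simp only [List.range_succ, List.foldl_append, ih, List.foldl_cons, List.foldl_nil]

/-- Effect of the expansion. -/
noncomputable def eff (n : ℕ) (it : Item A) (R : Reg (ZMod f) b) : Reg (ZMod f) b :=
  runL S f b (gen S r f n it) R

theorem eff_zero (it : Item A) (R : Reg (ZMod f) b) : eff S r f b 0 it R = exec S f b it R := rfl

theorem eff_succ (n : ℕ) (it : Item A) (R : Reg (ZMod f) b) :
    eff S r f b (n + 1) it R =
      (List.range r).foldl (fun R c => eff S r f b n (rule S r f it c) R) R := by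
  unfold eff runL
  rw [gen, List.foldl_flatMap]

theorem eff_six (n : ℕ) (a : A) (R : Reg (ZMod f) b) :
    eff S r f b n ⟨6, 0, 0, 0, 0, a⟩ R = R := by
  induction n generalizing R with
  | zero => rw [eff_zero]; simp [exec]
  | succ n ih =>
    rw [eff_succ, foldl_ge _ 0 r (Nat.zero_le _)]
    · rfl
    · intro R c _ _
      have : rule S r f ⟨6, 0, 0, 0, 0, a⟩ c = ⟨6, 0, 0, 0, 0, a⟩ := by
        unfold rule
        split_ifs <;> simp_all
      rw [this, ih]

theorem eff_instr (hr : 0 < r) (n : ℕ) (it : Item A) (h0 : it.tag ≠ 0) (h1 : it.tag ≠ 1)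
    (R : Reg (ZMod f) b) : eff S r f b n it R = exec S f b it R := by
  induction n generalizing R with
  | zero => rfl
  | succ n ih =>
    rw [eff_succ, foldl_ge _ 1 r hr]
    · have : rule S r f it 0 = it := by
        unfold rule
        rw [if_neg h0, if_neg h1, if_pos rfl]
      simp only [List.range_one, List.foldl_cons, List.foldl_nil, this, ih]
    · intro R c hc _
      have : rule S r f it c = ⟨6, 0, 0, 0, 0, it.a⟩ := by
        unfold rule
        rw [if_neg h0, if_neg h1, if_neg (by omega)]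
      rw [this, eff_six]

/-- Add to a block. -/
def upd {f b : ℕ} (R : Reg (ZMod f) b) (k : Fin 4) (v : Blk (ZMod f) b) : Reg (ZMod f) b :=
  Function.update R k (R k + v)

theorem upd_same {f b : ℕ} (R : Reg (ZMod f) b) (k : Fin 4) (v : Blk (ZMod f) b) :
    upd R k v k = R k + v := by simp [upd]

theorem upd_ne {f b : ℕ} (R : Reg (ZMod f) b) {k l : Fin 4} (h : l ≠ k)
    (v : Blk (ZMod f) b) : upd R k v l = R l := by simp [upd, h]

theorem upd_upd {f b : ℕ} (R : Reg (ZMod f) b) (k : Fin 4) (v v' : Blk (ZMod f) b) :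
    upd (upd R k v) k v' = upd R k (v + v') := by
  funext l
  by_cases h : l = k
  · subst h; simp [upd, add_assoc]
  · simp [upd, h]

theorem upd_zero {f b : ℕ} (R : Reg (ZMod f) b) (k : Fin 4) : upd R k 0 = R := by
  simp [upd]

/-- A fold of additions to the same block whose terms do not depend on that block. -/
theorem foldl_upd {f b : ℕ} (k : Fin 4) (g : Reg (ZMod f) b → ℕ → Blk (ZMod f) b)
    (hg : ∀ R v c, g (upd R k v) c = g R c) (F : Reg (ZMod f) b → ℕ → Reg (ZMod f) b) (m : ℕ)
    (hF : ∀ R c, c < m → F R c = upd R k (g R c)) (R : Reg (ZMod f) b) :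
    (List.range m).foldl F R = upd R k (∑ c ∈ Finset.range m, g R c) := by
  induction m with
  | zero => simp [upd]
  | succ m ih =>
    rw [List.range_succ, List.foldl_append, ih (fun R c hc => hF R c (by omega))]
    simp only [List.foldl_cons, List.foldl_nil]
    rw [hF _ m (by omega), hg, upd_upd, Finset.sum_range_succ]

theorem f4_add1 (j : ℕ) : f4 ((j + 1) % 4) = f4 j + 1 := by
  apply Fin.ext
  simp only [f4, Fin.val_add, Fin.val_one]
  omega
theorem f4_add2 (j : ℕ) : f4 ((j + 2) % 4) = f4 j + 2 := by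
  apply Fin.ext
  simp only [f4, Fin.val_add, Fin.val_two]
  omega
theorem f4_add3 (j : ℕ) : f4 ((j + 3) % 4) = f4 j + 3 := by
  apply Fin.ext
  have : ((3 : Fin 4) : ℕ) = 3 := rfl
  simp only [f4, Fin.val_add, this]
  omega

theorem fin4_ne1 (k : Fin 4) : k + 1 ≠ k := by revert k; decide
theorem fin4_ne2 (k : Fin 4) : k + 2 ≠ k := by revert k; decide
theorem fin4_ne3 (k : Fin 4) : k + 3 ≠ k := by revert k; decide
theorem fin4_ne13 (k : Fin 4) : k + 1 ≠ k + 3 := by revert k; decide
theorem fin4_ne23 (k : Fin 4) : k + 2 ≠ k + 3 := by revert k; decide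
theorem fin4_ne12 (k : Fin 4) : k + 1 ≠ k + 2 := by revert k; decide

theorem sum_range_mul {M : Type} [AddCommMonoid M] (q c : ℕ) (g : ℕ → M) :
    ∑ i ∈ Finset.range (c * q), g i =
      ∑ k ∈ Finset.range c, ∑ i ∈ Finset.range q, g (k * q + i) := by
  induction c with
  | zero => simp
  | succ c ih =>
    rw [add_mul, one_mul, Finset.sum_range_add, ih, Finset.sum_range_succ]

theorem sgn_one_sub (sg : ℕ) : sgn f (1 - sg) = - sgn f sg := by
  unfold sgn
  by_cases h : sg = 0
  · subst h; simp
  · have : 1 - sg = 0 := by omega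
    rw [this]
    simp [h]

end

end Pool.Agent.Helper17.UL
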