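import Pool.Agent.Helper17.UL.PrmGood

set_option autoImplicit false

/-!
Uniform version: the largest time bound which can be simulated on a word of a given length.
-/

namespace Pool.Agent.Helper17.UL

/-- Logarithm of the time bound for words of length `len`. -/
def yW (C1 len : ℕ) : ℕ :=
  Nat.findGreatest (fun y => C1 * y ^ 2 ≤ Nat.log 2 len * Nat.log 2 y) (Nat.log 2 len)

/-- The time bound for words of length `len`. -/
def TW (C1 len : ℕ) : ℕ := 2 ^ yW C1 len

end Pool.Agent.Helper17.UL
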