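import Pool.Agent.Helper17.UL.TWDef

set_option autoImplicit false

/-!
Uniform version: sizes of the parameters for the largest time bound.
-/

namespace Pool.Agent.Helper17.UL

open Real

theorem log2_le_real (y : ℕ) (hy : 1 ≤ y) : (Nat.log 2 y : ℝ) * Real.log 2 ≤ Real.log y := by
  have h1 : 2 ^ Nat.log 2 y ≤ y := Nat.pow_log_le_self 2 (by omega)
  have h2 : ((2 : ℝ) ^ Nat.log 2 y) ≤ y := by exact_mod_cast h1
  have h3 := Real.log_le_log (by positivity) h2
  rwa [Real.log_pow] at h3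

theorem real_lt_log2 (y : ℕ) : Real.log y < ((Nat.log 2 y : ℝ) + 1) * Real.log 2 ∨ y = 0 := by
  rcases Nat.eq_zero_or_pos y with h | h
  · exact Or.inr h
  · left
    have h1 : y < 2 ^ (Nat.log 2 y + 1) := Nat.lt_pow_succ_log_self (by norm_num) y
    have h2 : (y : ℝ) < (2 : ℝ) ^ (Nat.log 2 y + 1) := by exact_mod_cast h1
    have h3 := Real.log_lt_log (by exact_mod_cast h) h2
    rw [Real.log_pow] at h3
    push_cast at h3
    exact h3

theorem TW_good (κ K : ℕ) (hκ : 10 ≤ κ) (hK : 0 < K) : ∃ C1 K0 : ℕ, ∀ len, K0 ≤ len →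
    16 ≤ TW C1 len ∧ ∀ s ∈ sizes κ K (TW C1 len), s ≤ len := by
  obtain ⟨C0, hC0, hsize⟩ := prm_size κ K (by omega) hK
  obtain ⟨C1, hC1⟩ := exists_nat_ge (2 * C0)
  refine ⟨C1, 2 ^ (8 * C1 + 16), fun len hlen => ?_⟩
  have hlen0 : len ≠ 0 := by
    have : 0 < 2 ^ (8 * C1 + 16) := by positivity
    omega
  have hL : 8 * C1 + 16 ≤ Nat.log 2 len := Nat.le_log_of_pow_le (by norm_num) hlen
  have h4 : C1 * 4 ^ 2 ≤ Nat.log 2 len * Nat.log 2 4 := by
    have : Nat.log 2 4 = 2 := by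
      rw [show (4 : ℕ) = 2 ^ 2 by norm_num, Nat.log_pow (by norm_num)]
    rw [this]
    omega
  have hy4 : 4 ≤ yW C1 len := Nat.le_findGreatest (by omega) h4
  have hspec : C1 * yW C1 len ^ 2 ≤ Nat.log 2 len * Nat.log 2 (yW C1 len) := by
    have := Nat.findGreatest_spec (P := fun y => C1 * y ^ 2 ≤ Nat.log 2 len * Nat.log 2 y)
      (n := Nat.log 2 len) (m := 4) (by omega) h4
    exact this
  obtain ⟨y, hy⟩ : ∃ y, y = yW C1 len := ⟨_, rfl⟩
  obtain ⟨L, hLdef⟩ : ∃ L, L = Nat.log 2 len := ⟨_, rfl⟩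
  rw [← hy, ← hLdef] at hspec
  rw [← hy] at hy4
  have hT : TW C1 len = 2 ^ y := by rw [hy]; rfl
  rw [hT]
  have hT16 : 16 ≤ 2 ^ y := by
    calc 16 = 2 ^ 4 := by norm_num
      _ ≤ 2 ^ y := Nat.pow_le_pow_right (by norm_num) hy4
  refine ⟨hT16, fun s hs => ?_⟩
  have h1 := hsize _ hT16 s hs
  have hlog2 : (0.6931471803 : ℝ) < Real.log 2 := Real.log_two_gt_d9
  have hlog2' : Real.log 2 < (0.6931471808 : ℝ) := Real.log_two_lt_d9
  have hlogT : Real.log ((2 ^ y : ℕ) : ℝ) = y * Real.log 2 := by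
    push_cast
    rw [Real.log_pow]
  rw [hlogT] at h1
  have hyR : (4 : ℝ) ≤ y := by exact_mod_cast hy4
  have hyl : 1 < (y : ℝ) * Real.log 2 := by nlinarith
  have hll : 0 < Real.log (y * Real.log 2) := Real.log_pos hyl
  have hly : 0 < Real.log (y : ℝ) := Real.log_pos (by linarith)
  have hly2 : Real.log (y : ℝ) ≤ 2 * Real.log (y * Real.log 2) := by
    rw [show 2 * Real.log (y * Real.log 2) = Real.log ((y * Real.log 2) ^ 2) by
      rw [Real.log_pow]; push_cast; ring]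
    apply Real.log_le_log (by linarith)
    have h48 : (0.48 : ℝ) ≤ Real.log 2 ^ 2 := by nlinarith
    have h1 : 1 ≤ (y : ℝ) * Real.log 2 ^ 2 := by nlinarith
    calc (y : ℝ) = y * 1 := by ring
      _ ≤ y * (y * Real.log 2 ^ 2) := by
          apply mul_le_mul_of_nonneg_left h1 (by linarith)
      _ = (y * Real.log 2) ^ 2 := by ring
  have hlen2 : (2 : ℝ) ^ L ≤ len := by
    have := Nat.pow_log_le_self 2 hlen0
    rw [← hLdef] at this
    exact_mod_cast this
  have hkey : C0 * (y * Real.log 2) ^ 2 / Real.log (y * Real.log 2) ≤ L * Real.log 2 := by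
    rw [div_le_iff₀ hll]
    have e1 : (Nat.log 2 y : ℝ) * Real.log 2 ≤ Real.log y := log2_le_real y (by omega)
    have e2 : (C1 : ℝ) * y ^ 2 ≤ L * (Nat.log 2 y : ℝ) := by exact_mod_cast hspec
    have hl2 : 0 < Real.log 2 := by linarith
    have hL0 : (0 : ℝ) ≤ L := Nat.cast_nonneg _
    have hy0 : (0 : ℝ) ≤ (y : ℝ) ^ 2 := by positivity
    calc C0 * (y * Real.log 2) ^ 2 = (C0 * y ^ 2 * Real.log 2) * Real.log 2 := by ring
      _ ≤ (L * Real.log y / 2) * Real.log 2 := by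
          apply mul_le_mul_of_nonneg_right _ hl2.le
          have e3 : 2 * C0 * (y : ℝ) ^ 2 ≤ C1 * y ^ 2 := mul_le_mul_of_nonneg_right hC1 hy0
          have e4 : (2 * C0 * (y : ℝ) ^ 2) * Real.log 2 ≤ (L * (Nat.log 2 y : ℝ)) * Real.log 2 :=
            mul_le_mul_of_nonneg_right (e3.trans e2) hl2.le
          have e5 : (L : ℝ) * ((Nat.log 2 y : ℝ) * Real.log 2) ≤ L * Real.log y :=
            mul_le_mul_of_nonneg_left e1 hL0
          nlinarith
      _ ≤ (L * Real.log (y * Real.log 2)) * Real.log 2 := by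
          apply mul_le_mul_of_nonneg_right _ hl2.le
          nlinarith
      _ = L * Real.log 2 * Real.log (y * Real.log 2) := by ring
  have h2 : (s : ℝ) ≤ len := by
    refine h1.trans (le_trans (Real.exp_le_exp.mpr hkey) ?_)
    rw [show (L : ℝ) * Real.log 2 = Real.log ((2 : ℝ) ^ L) by rw [Real.log_pow],
      Real.exp_log (by positivity)]
    exact hlen2
  exact_mod_cast h2

theorem TW_ge (C1 K0 : ℕ) : ∃ C : ℝ, 0 < C ∧ ∀ T len : ℕ, 16 ≤ T →
    Real.exp (C * Real.log T ^ 2 / Real.log (Real.log T)) ≤ len →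
    2 * T ≤ TW C1 len ∧ K0 ≤ len := by
  refine ⟨18 * C1 + K0 + 10, by positivity, fun T len hT hlen => ?_⟩
  obtain ⟨x, hx⟩ : ∃ x, x = Real.log T := ⟨_, rfl⟩
  rw [← hx] at hlen
  have hlog2 : (0.6931471803 : ℝ) < Real.log 2 := Real.log_two_gt_d9
  have hlog2' : Real.log 2 < (0.6931471808 : ℝ) := Real.log_two_lt_d9
  have hx27 : (2.77 : ℝ) ≤ x := by
    have h1 : Real.log ((16 : ℕ) : ℝ) ≤ Real.log T :=
      Real.log_le_log (by norm_num) (by exact_mod_cast hT)
    have h2 : Real.log ((16 : ℕ) : ℝ) = 4 * Real.log 2 := by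
      rw [show ((16 : ℕ) : ℝ) = (2 : ℝ) ^ 4 by norm_num, Real.log_pow]
      norm_num
    rw [h2, ← hx] at h1
    linarith
  have hlx : 0 < Real.log x := Real.log_pos (by linarith)
  have hlxx : Real.log x ≤ x := (Real.log_le_sub_one_of_pos (by linarith)).trans (by linarith)
  obtain ⟨q, hq⟩ : ∃ q, q = x ^ 2 / Real.log x := ⟨_, rfl⟩
  have hqx : x ≤ q := by
    rw [hq, le_div_iff₀ hlx]
    nlinarith
  have hq0 : 0 < q := by linarith
  have hqlog : q * Real.log x = x ^ 2 := by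
    rw [hq, div_mul_cancel₀ _ hlx.ne']
  rw [mul_div_assoc, ← hq] at hlen
  have hc0 : (0 : ℝ) ≤ C1 := Nat.cast_nonneg _
  have hk0 : (0 : ℝ) ≤ K0 := Nat.cast_nonneg _
  have hlen1 : (18 * C1 + K0 + 10 : ℝ) * q + 1 ≤ len := (Real.add_one_le_exp _).trans hlen
  have hK : (K0 : ℝ) ≤ len := by nlinarith
  have hlenpos : 0 < (len : ℝ) := by nlinarith
  have hlen0 : len ≠ 0 := by
    rintro rfl
    simp at hlenpos
  refine ⟨?_, by exact_mod_cast hK⟩
  -- logarithms
  obtain ⟨L, hL⟩ : ∃ L, L = Nat.log 2 len := ⟨_, rfl⟩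
  have hL1 : (18 * C1 + K0 + 10 : ℝ) * q ≤ ((L : ℝ) + 1) * Real.log 2 := by
    rcases real_lt_log2 len with h | h
    · rw [← hL] at h
      have h1 := Real.log_le_log (Real.exp_pos _) hlen
      rw [Real.log_exp] at h1
      linarith
    · exact absurd h hlen0
  have hL2 : (18 * C1 + 3 : ℝ) * q ≤ L := by nlinarith
  obtain ⟨y, hy⟩ : ∃ y, y = Nat.log 2 T + 2 := ⟨_, rfl⟩
  have hlogT : x / Real.log 2 < (Nat.log 2 T : ℝ) + 1 := by
    rw [div_lt_iff₀ (by linarith)]
    rcases real_lt_log2 T with h | h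
    · rw [hx]; exact h
    · omega
  have hlogT' : (Nat.log 2 T : ℝ) * Real.log 2 ≤ x := by
    rw [hx]; exact log2_le_real T (by omega)
  have hy3 : (y : ℝ) ≤ 3 * x := by
    rw [hy]
    push_cast
    have h1 : (Nat.log 2 T : ℝ) ≤ 1.5 * x := by nlinarith
    linarith
  have hyx : x ≤ y := by
    rw [hy]
    push_cast
    have h1 : x ≤ x / Real.log 2 := by
      rw [le_div_iff₀ (by linarith)]
      nlinarith
    linarith
  have hy6 : 6 ≤ y := by
    have : 4 ≤ Nat.log 2 T := Nat.le_log_of_pow_le (by norm_num) (by norm_num; exact hT)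
    omega
  have hlogy : Real.log x ≤ 2 * (Nat.log 2 y : ℝ) * Real.log 2 := by
    have h1 : Real.log x ≤ Real.log y := Real.log_le_log (by linarith) hyx
    have h2 : (1 : ℝ) ≤ (Nat.log 2 y : ℝ) := by
      have : 1 ≤ Nat.log 2 y := Nat.le_log_of_pow_le (by norm_num) (by omega)
      exact_mod_cast this
    rcases real_lt_log2 y with h | h
    · have h3 : ((Nat.log 2 y : ℝ) + 1) * Real.log 2 ≤ 2 * (Nat.log 2 y : ℝ) * Real.log 2 := by
        apply mul_le_mul_of_nonneg_right _ (by linarith)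
        linarith
      linarith
    · omega
  have hyL : y ≤ L := by
    have : (y : ℝ) ≤ L := by nlinarith
    exact_mod_cast this
  have hrel : C1 * y ^ 2 ≤ L * Nat.log 2 y := by
    have h1 : (C1 : ℝ) * y ^ 2 ≤ L * (Nat.log 2 y : ℝ) := by
      have e1 : (y : ℝ) ^ 2 ≤ 9 * x ^ 2 := by
        have : (0 : ℝ) ≤ y := Nat.cast_nonneg _
        nlinarith
      have e2 : (C1 : ℝ) * y ^ 2 ≤ 9 * C1 * (q * Real.log x) := by
        rw [hqlog]
        nlinarith
      have e3 : 9 * (C1 : ℝ) * (q * Real.log x) ≤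
          9 * C1 * (q * (2 * (Nat.log 2 y : ℝ) * Real.log 2)) := by
        apply mul_le_mul_of_nonneg_left _ (by positivity)
        exact mul_le_mul_of_nonneg_left hlogy hq0.le
      have hly0 : (0 : ℝ) ≤ (Nat.log 2 y : ℝ) := Nat.cast_nonneg _
      have e4 : 9 * (C1 : ℝ) * (q * (2 * (Nat.log 2 y : ℝ) * Real.log 2)) ≤
          (18 * C1 * q) * (Nat.log 2 y : ℝ) := by
        have : 9 * (C1 : ℝ) * (q * (2 * (Nat.log 2 y : ℝ) * Real.log 2)) =
          (18 * C1 * q) * (Nat.log 2 y : ℝ) * Real.log 2 := by ring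
        rw [this]
        have h0 : 0 ≤ (18 * C1 * q) * (Nat.log 2 y : ℝ) := by positivity
        nlinarith
      have e5 : (18 * C1 * q) * (Nat.log 2 y : ℝ) ≤ L * (Nat.log 2 y : ℝ) := by
        apply mul_le_mul_of_nonneg_right _ hly0
        nlinarith
      linarith
    exact_mod_cast h1
  have hyW : y ≤ yW C1 len := by
    unfold yW
    rw [← hL]
    exact Nat.le_findGreatest hyL hrel
  have h2y : 2 * T ≤ 2 ^ y := by
    have h1 : T < 2 ^ (Nat.log 2 T + 1) := Nat.lt_pow_succ_log_self (by norm_num) T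
    rw [hy, pow_succ]
    omega
  exact h2y.trans (Nat.pow_le_pow_right (by norm_num) hyW)

end Pool.Agent.Helper17.UL
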