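import Pool.Agent.Helper17.UL.Uniform
import Pool.Agent.Helper17.UL.AutDefs

set_option autoImplicit false

/-!
Uniform version: the theorem in the model of the frozen statements.
-/

namespace Pool.Agent.Helper17.UL

open Pool.Agent.Helper17.SL

theorem uniform_aut {α Q Γ : Type} [Fintype α] [Fintype Q] [Fintype Γ] {k : ℕ}
    (δ : PDTrans α Q Γ k) (q₀ : Q) (F : Set Q) (c : ℕ) :
    ∃ (C : ℝ) (k' : ℕ) (P : Type) (_ : Fintype P) (η : FDTrans (Option α) P k') (p₀ : P)
      (G : Set P), ∀ (u : List α) (m : ℕ),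
        Real.exp (C * Real.log (u.length + 16) ^ 2 / Real.log (Real.log (u.length + 16))) ≤ m →
        (FDAccepts η p₀ G (padW u m) ↔ AcceptsIn δ q₀ F ((u.length + 2) ^ c) u) := by
  obtain ⟨C, Rr, hR, hC⟩ := uniform δ q₀ F c
  obtain ⟨k', P, hP, η, p₀, G, hA⟩ := Pool.Agent.Helper6.IsL.toAutomaton hR
  refine ⟨C, k', P, hP, η, p₀, G, fun u m hm => ?_⟩
  rw [← hC u m hm, hA (padW u m)]
  rfl

end Pool.Agent.Helper17.UL
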