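import Pool.Agent.Helper17.UL.Uniform2

set_option autoImplicit false

/-!
Uniform version: the theorem for all time bounds in the model of the frozen statements.
-/

namespace Pool.Agent.Helper17.UL

open Pool.Agent.Helper17.SL

theorem uniform_aut_all {α Q Γ : Type} [Fintype α] [Fintype Q] [Fintype Γ] {k : ℕ}
    (δ : PDTrans α Q Γ k) (q₀ : Q) (F : Set Q) :
    ∃ (C : ℝ) (k' : ℕ) (P : Type) (_ : Fintype P) (η : FDTrans (Option α) P k') (p₀ : P)
      (G : Set P),
      (∀ (u : List α) (m : ℕ), FDAccepts η p₀ G (padW u m) → ∃ T, AcceptsIn δ q₀ F T u) ∧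
      ∀ (u : List α) (T m : ℕ), u.length ≤ T → 16 ≤ T →
        Real.exp (C * Real.log T ^ 2 / Real.log (Real.log T)) ≤ m →
        AcceptsIn δ q₀ F T u → FDAccepts η p₀ G (padW u m) := by
  obtain ⟨C, Rr, hR, h1, h2⟩ := uniform_all δ q₀ F
  obtain ⟨k', P, hP, η, p₀, G, hA⟩ := Pool.Agent.Helper6.IsL.toAutomaton hR
  refine ⟨C, k', P, hP, η, p₀, G, fun u m h => h1 u m ((hA _).mpr h),
    fun u T m hu hT hm hacc => (hA _).mp (h2 u T m hu hT hacc hm)⟩

end Pool.Agent.Helper17.UL
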