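import Pool.Agent.Helper17.UL.Ans
import Pool.Agent.Helper17.UL.PrmGood
import Pool.Agent.Helper17.UL.Eval
import Pool.Agent.Helper32.UL.PhiFL
import Pool.Agent.Helper68.UL.Phi0FL
import Pool.Agent.Helper7.UL.Lead
import Pool.Agent.Helper17.UL.TWNum
import Pool.Agent.Helper17.UL.TWFL

set_option autoImplicit false

/-!
Uniform version: assembly for general time bounds.
-/

namespace Pool.Agent.Helper17.UL

open Pool.Agent.Helper17.SL Pool.Agent.Helper6

/-- The core: for each computable time bound `T1` of the padded word, the computation of that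
length is decided on the good words. -/
theorem uniform_core {α Q Γ : Type} [Fintype α] [Fintype Q] [Fintype Γ] {k : ℕ}
    (δ : PDTrans α Q Γ k) (q₀ : Q) (F : Set Q) :
    ∃ κ K : ℕ, 10 ≤ κ ∧ 0 < K ∧ ∀ T1 : List (Option α) → ℕ, FLG (GoodW κ K T1) T1 →
      ∃ Rr : List (Option α) → Prop, IsL (Option α) Empty (fun w _ => Rr w) ∧
      ∀ (u : List α) (m : ℕ), GoodW κ K T1 (padW u m) → u.length + 16 ≤ T1 (padW u m) →
        (Rr (padW u m) ↔ AcceptsIn δ q₀ F (T1 (padW u m)) u) := by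
  classical
  -- the longest word pushed
  obtain ⟨R, hR⟩ : ∃ R, ∀ q v X, (δ q v X).2.2.length ≤ R := by
    refine ⟨Finset.univ.sup (fun x : Q × (Fin k → Bool × Option α) × Option Γ =>
      (δ x.1 x.2.1 x.2.2).2.2.length), fun q v X => ?_⟩
    exact Finset.le_sup (f := fun x : Q × (Fin k → Bool × Option α) × Option Γ =>
      (δ x.1 x.2.1 x.2.2).2.2.length) (Finset.mem_univ (q, v, X))
  haveI : Finite (Pend Γ R) := (List.finite_length_le Γ R).to_subtype
  letI : Fintype (Pend Γ R) := Fintype.ofFinite _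
  let Fb : Q → Bool := fun q => decide (q ∈ F)
  obtain ⟨κ, hκ⟩ : ∃ κ, κ = 12 + R + Fintype.card Q + Fintype.card (Pend Γ R) +
    Fintype.card Γ := ⟨_, rfl⟩
  have hκ10 : 10 ≤ κ := by omega
  obtain ⟨K, hK⟩ : ∃ K, K = Fintype.card (CI (k + 4)) := ⟨_, rfl⟩
  have hK0 : 0 < K := by
    rw [hK]
    haveI : Nonempty (CI (k + 4)) := ⟨CI.ph⟩
    exact Fintype.card_pos
  refine ⟨κ, K, hκ10, hK0, fun T1 hT1 => ?_⟩
  let nW : List (Option α) → ℕ := fun w => (w.takeWhile Option.isSome).length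
  have hnW : FL (Option α) Empty (fun w _ => nW w) := lead_FL
  obtain ⟨gT0, fT0, eT0⟩ := id hT1
  obtain ⟨gM, fM, eM⟩ := flg_pM (K := K) hκ10 hT1
  obtain ⟨gm, fm, em⟩ := flg_m (K := K) hκ10 hT1
  obtain ⟨gD, fD, eD⟩ := flg_pD (K := K) hκ10 hT1
  obtain ⟨gB, fB, eB⟩ := flg_B (K := K) hκ10 hT1
  obtain ⟨gN, fN, eN⟩ := flg_N (K := K) hκ10 hT1
  obtain ⟨gb, fb, eb⟩ := flg_pb (K := K) hκ10 hT1
  obtain ⟨gf, ff, ef⟩ := flg_pf (K := K) hκ10 hK0 hT1
  obtain ⟨gr, fr, er⟩ := flg_pr (K := K) hκ10 hK0 hT1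
  obtain ⟨gt, ft, et⟩ := flg_pt2 (K := K) hκ10 hK0 hT1
  obtain ⟨gn, fn, en⟩ := flg_pn (K := K) hκ10 hK0 hT1
  -- the scheme
  let p : List (Option α) → Prm := fun w => ⟨gB w, gb w, gM w, gm w, gt w⟩
  have hp : PrmFL (Option α) p := ⟨fB, fb, fM, fm, ft⟩
  let phi0W : List (Option α) → (Fin (k + 4 + 2) → ℕ) → (Fin (k + 4 + 2) → ℕ) →
      RI (k + 4) → ℕ := fun w g x q =>
    min (phi0num δ Fb R (gN w) (gT0 w) (nW w) (fun j => oc ((w[x (pj j) - 1]?).join)) g x q)
      (w.length + 1)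
  have hphiFL : ∀ q : RI (k + 4), FL (Option α) (Fin (k + 4 + 2) ⊕ Fin (k + 4 + 2))
      (fun w z => phi0W w (z ∘ Sum.inl) (z ∘ Sum.inr) q) := fun q =>
    phi0_FL δ Fb R fN fT0 hnW q
  obtain ⟨S, hS, hagree⟩ := PhiS_FL p hp phi0W hphiFL
  let A0 : List (Option α) → Fin (k + 4 + 2) → ℕ := fun w i =>
    min (a0 k q₀ Γ R i) (w.length + 1)
  have hA0 : ∀ i, FL (Option α) Empty (fun w _ => A0 w i) := fun i => FL.const _
  have ha0 : ∀ v : NI (k + 4), FL (Option α) Empty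
      (fun w _ => mkN 1 (gD w) 0 0 0 (A0 w) (A0 w) v) := by
    intro v
    cases v with
    | tag => exact FL.one
    | d => exact fD
    | i => exact FL.zero
    | l => exact FL.zero
    | s => exact FL.zero
    | g j => exact hA0 j
    | x j => exact hA0 j
  obtain ⟨out, hout, heval⟩ := uniform_eval S hS fb ff fr fn ha0
  obtain ⟨ps, hps⟩ : ∃ ps, ps = pos (RI.x (⟨3, by omega⟩ : Fin (k + 4 + 2))) := ⟨_, rfl⟩
  have hpsK : ps ≤ K := by
    rw [hps, hK]
    exact ((Fintype.equivFin _ _).isLt.le).trans card_RI_le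
  refine ⟨fun w => tabF Fb (out w / min (gB w ^ (min ps (w.length + 1)))
    (w.length + 1) % gB w) = 1, tabF_isL Fb ((hout.div (fB.pow (FL.const ps))).mod fB), ?_⟩
  intro u m hgood hn16
  obtain ⟨w, hw⟩ : ∃ w, w = padW u m := ⟨_, rfl⟩
  rw [← hw] at hgood hn16
  have hlen : w.length = u.length + m := by rw [hw, padW_length]
  have hnw : nW w = u.length := by rw [hw]; exact padW_lead u m
  obtain ⟨g1, g2, g3, g4, g5, g6, g7, g8, g9⟩ := hgood.all
  obtain ⟨x1, x2, x3, x4, x5, x6, x7, x8⟩ := prm_exact κ K (T1 w) (by omega) hK0 g1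
  rw [← hw]
  simp only [eB w hgood]
  -- values of the parameters
  obtain ⟨T, hT⟩ : ∃ T, T = T1 w := ⟨_, rfl⟩
  rw [← hT] at g1 g2 g3 g4 g5 g6 g7 g8 g9 x1 x2 x3 x4 x5 x6 x7 x8 ⊢
  have EM : gM w = pM T := by rw [eM w hgood, hT]
  have Em : gm w = 4 * pM T + 6 := by rw [em w hgood, hT]
  have ED : gD w = pD κ T := by rw [eD w hgood, hT]
  have EB : gB w = 2 ^ pB0 κ T := by rw [eB w hgood, hT]
  have EN : gN w = pM T ^ pD κ T := by rw [eN w hgood, hT]
  have Eb : gb w = pb κ K T := by rw [eb w hgood, hT]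
  have Ef : gf w = pf κ K T := by rw [ef w hgood, hT]
  have Er : gr w = pr κ K T := by rw [er w hgood, hT]
  have Et : gt w = pt2 κ K T := by rw [et w hgood, hT]
  have En : gn w = pn κ K T := by rw [en w hgood, hT]
  have ET0 : gT0 w = T := by rw [eT0 w hgood, hT]
  have hpw : p w = ⟨2 ^ pB0 κ T, pb κ K T, pM T, 4 * pM T + 6, pt2 κ K T⟩ := by
    simp only [p, EM, Em, EB, Eb, Et]
  have hnT : u.length + 16 ≤ T := by rw [hT]; exact hn16
  have hNB : κ * pM T ^ pD κ T < 2 ^ pB0 κ T := x4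
  have hN1 : 1 ≤ pM T ^ pD κ T := Nat.one_le_pow _ _ x1
  have hTN : T ≤ pM T ^ pD κ T := le_trans (Nat.le_mul_of_pos_left _ (by omega)) x3
  have hNN : pM T ^ pD κ T ≤ κ * pM T ^ pD κ T := Nat.le_mul_of_pos_left _ (by omega)
  have hκN : κ ≤ κ * pM T ^ pD κ T := Nat.le_mul_of_pos_right _ hN1
  have hBlen : 2 ^ pB0 κ T ≤ w.length := le_trans (Nat.le_add_right _ _) g6
  have hBOK : BOK Q Γ u.length T R (pM T ^ pD κ T) (2 ^ pB0 κ T) := by
    refine ⟨?_, ?_, ?_, ?_, ?_, ?_, ?_⟩ <;> omega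
  have hMN : pM T ≤ pM T ^ pD κ T := Nat.le_self_pow (by omega) _
  have hmB : 4 * pM T + 6 < 2 ^ pB0 κ T := by
    have h1 : 10 * pM T ^ pD κ T ≤ κ * pM T ^ pD κ T := Nat.mul_le_mul_right _ hκ10
    omega
  have hbK : 2 ^ pb κ K T = (2 ^ pB0 κ T) ^ Fintype.card (CI (k + 4)) := by
    rw [← hK, ← pow_mul]
    rfl
  have hmr : 4 * pM T + 6 ≤ pr κ K T := Nat.le_add_left _ _
  have hA0w : A0 w = a0 k q₀ Γ R := by
    funext i
    have := a0_lt hBOK (k := k) q₀ i
    exact min_eq_left (by omega)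
  -- the one-step function
  have hphilt : ∀ g x q, (∀ j, g j < 2 ^ pB0 κ T) → (∀ j, x j < 2 ^ pB0 κ T) →
      phi0num δ Fb R (gN w) (gT0 w) (nW w) (fun j => oc ((w[x (pj j) - 1]?).join)) g x q <
        2 ^ pB0 κ T := by
    intro g x q hg hx
    rw [EN, ET0, hnw]
    exact phi0num_lt hBOK δ Fb _ g x hg hx q
  have hphi0 : ∀ g x : VT Q Γ k u.length T R (pM T ^ pD κ T),
      phi0W w (cV g) (cV x) = cRes cV (phi0 (wstp δ Fb u) g x) := by
    intro g x
    rw [phi0_num]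
    funext q
    have h1 := hphilt (cV g) (cV x) q (cV_lt hBOK g) (cV_lt hBOK x)
    have h2 : phi0W w (cV g) (cV x) q = phi0num δ Fb R (gN w) (gT0 w) (nW w)
        (fun j => oc ((w[cV x (pj j) - 1]?).join)) (cV g) (cV x) q := min_eq_left (by omega)
    rw [h2, EN, ET0, hnw]
    congr 2
    funext j
    rw [hw, padW_get, cV_pj]
  -- agreement
  have hag := hagree w (pD κ T) (pr κ K T) (by rw [hpw]; exact hBOK.h2) (by rw [hpw]; exact x1)
    (by rw [hpw]; exact Nat.succ_pos _) (by rw [hpw]; exact hmB) (by rw [hpw]; exact hbK)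
    (fun g x q hg hx => by
      rw [hpw] at hg hx ⊢
      exact lt_of_le_of_lt (min_le_left _ _) (hphilt g x q hg hx))
    (by rw [hpw]; exact g5) (by rw [hpw]; exact g6)
    (by
      rw [hpw]
      have : 4 * pM T + 4 ≤ w.length := by omega
      exact this) g8
  have hok := PhiS_ok (p w) (phi0W w) (D := pD κ T) (r := pr κ K T)
    (by rw [hpw]; exact Nat.pos_of_ne_zero (by positivity)) (by rw [hpw]; exact Nat.succ_pos _)
    (by rw [hpw]; exact hmr) (by rw [hpw]; exact x8)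
  have hG : PhiG (p w) (pD κ T) (pr κ K T)
      (mkN 1 (pD κ T) 0 0 0 (a0 k q₀ Γ R) (a0 k q₀ Γ R)) := by
    refine ⟨by norm_num [mkN], le_rfl, Nat.zero_le _, ?_, ?_, fun j => ?_⟩
    · simp only [mkN]; omega
    · simp only [mkN]; positivity
    · rw [hpw]
      exact ⟨a0_lt hBOK q₀ j, a0_lt hBOK q₀ j⟩
  have hdep : PhiDep (p w) (mkN 1 (pD κ T) 0 0 0 (a0 k q₀ Γ R) (a0 k q₀ Γ R)) =
      pD κ T * (p w).Del := dep_mk1 _ _ _ _ _ _ _
  have hDel : pD κ T * (p w).Del + 1 = pn κ K T := by rw [hpw]; rfl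
  have hDw : pD κ T ≤ w.length := (pD_le_pow κ T).trans ((Nat.le_add_left _ _).trans g6)
  have hev := heval w (PhiG (p w) (pD κ T) (pr κ K T)) (PhiDep (p w))
    (by rw [Eb, Er]; have := hag.ok hok; rwa [hpw] at this ⊢)
    (by
      rintro a ⟨h1, h2, h3, h4, h5, h6⟩ v
      rw [hpw] at h3 h5 h6
      simp only at h3 h5 h6
      have h7 : 2 ^ pb κ K T ≤ 2 ^ (2 * pb κ K T) :=
        Nat.pow_le_pow_right (by norm_num) (by omega)
      cases v with
      | tag => omega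
      | d => omega
      | i => omega
      | l => omega
      | s => omega
      | g j => have := (h6 j).1; omega
      | x j => have := (h6 j).2; omega)
    (by rw [ED, hA0w]; exact hG)
    (by rw [ED, hA0w, En, hdep, hDel])
    (by rw [Ef]; exact x5) (by rw [Eb, Ef]; exact x6)
    (by rw [Ef, Er]; exact Nat.le_add_right _ _)
    (by rw [Er, En]; exact g2) (by rw [Ef, Eb]; exact g3) (by rw [Ef]; exact g4)
    (by rw [Eb]; exact g5)
  rw [ED, hA0w, En] at hev
  have hval := hag.val_eq hok (pn κ K T) _ hG (by rw [hdep]; omega)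
  rw [hval] at hev
  have hans := answer δ q₀ Fb hR u (T := T) (D := pD κ T) (p w)
    (by rw [hpw]; exact x1)
    (by
      rw [hpw]
      calc T * (R + 1) ≤ T * κ := Nat.mul_le_mul_left _ (by omega)
        _ = κ * T := mul_comm _ _
        _ ≤ _ := x3)
    (by rw [hpw]; exact hBOK) (by rw [hpw]; exact hmB) (by rw [hpw]) (by rw [hpw]; exact hbK)
    (r := pr κ K T) (by rw [hpw]; exact hmr) (by rw [hpw]; exact x8) (phi0W w)
    (by rw [hpw]; exact hphi0) (pn κ K T) (by omega)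
  have hF : {q | Fb q = true} = F := by ext q; simp [Fb]
  rw [hF] at hans
  rw [← hans, ← hev]
  have hps1 : min ps (w.length + 1) = ps := by
    apply min_eq_left
    have h1 : K ≤ pb κ K T := Nat.le_mul_of_pos_left _ (pB0_pos κ T)
    have h2 : 2 * pb κ K T < 2 ^ (2 * pb κ K T) := Nat.lt_two_pow_self
    omega
  have hps2 : min ((2 ^ pB0 κ T) ^ ps) (w.length + 1) = (2 ^ pB0 κ T) ^ ps := by
    apply min_eq_left
    have h1 : (2 ^ pB0 κ T) ^ ps ≤ (2 ^ pB0 κ T) ^ K :=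
      Nat.pow_le_pow_right (by positivity) hpsK
    have h2 : (2 ^ pB0 κ T) ^ K = 2 ^ pb κ K T := by rw [← pow_mul]; rfl
    have h7 : 2 ^ pb κ K T ≤ 2 ^ (2 * pb κ K T) :=
      Nat.pow_le_pow_right (by norm_num) (by omega)
    omega
  rw [hps1, hps2, hpw]
  simp only [decI, hps]

theorem acceptsIn_mono {α Q Γ : Type} {k : ℕ} {δ : PDTrans α Q Γ k} {q₀ : Q} {F : Set Q}
    {T T' : ℕ} {u : List α} (h : AcceptsIn δ q₀ F T u) (hT : T ≤ T') :
    AcceptsIn δ q₀ F T' u := by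
  obtain ⟨m, hm, h⟩ := h
  exact ⟨m, hm.trans hT, h⟩

/-- One automaton for all time bounds. -/
theorem uniform_all {α Q Γ : Type} [Fintype α] [Fintype Q] [Fintype Γ] {k : ℕ}
    (δ : PDTrans α Q Γ k) (q₀ : Q) (F : Set Q) :
    ∃ (C : ℝ) (Rr : List (Option α) → Prop), IsL (Option α) Empty (fun w _ => Rr w) ∧
      (∀ (u : List α) (m : ℕ), Rr (padW u m) → ∃ t, AcceptsIn δ q₀ F t u) ∧
      ∀ (u : List α) (T m : ℕ), u.length ≤ T → 16 ≤ T → AcceptsIn δ q₀ F T u →
        Real.exp (C * Real.log T ^ 2 / Real.log (Real.log T)) ≤ m → Rr (padW u m) := by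
  obtain ⟨κ, K, hκ, hK, hcore⟩ := uniform_core δ q₀ F
  obtain ⟨C1, K0, hgood⟩ := TW_good κ K hκ hK
  obtain ⟨C, hC0, hC⟩ := TW_ge C1 K0
  obtain ⟨R0, hR0, hans⟩ := hcore (fun w => TW C1 w.length) (FLG.ofFL (TW_FL C1))
  refine ⟨C, fun w => K0 < w.length + 1 ∧ (w.takeWhile Option.isSome).length + 15 <
    TW C1 w.length ∧ R0 w, ?_, ?_, ?_⟩
  · have h1 : IsL (Option α) Empty (fun w _ => K0 < w.length + 1) :=
      (isL_lt (FL.const K0) FL.len).congr fun w x _ => by omega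
    have h2 : IsL (Option α) Empty (fun w _ => (w.takeWhile Option.isSome).length + 15 <
        TW C1 w.length) := by
      have h3 := isL_lt (FL.add (lead_FL (α := α)) (FL.const 15)) (TW_FL (β := Option α) C1)
      refine h3.congr fun w x _ => ?_
      have := TW_le C1 w.length
      omega
    exact h1.and (h2.and hR0)
  · rintro u m ⟨h1, h2, h3⟩
    rw [padW_lead] at h2
    have hg : GoodW κ K (fun w => TW C1 w.length) (padW u m) := hgood _ (by omega)
    exact ⟨_, (hans u m hg (by omega)).mp h3⟩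
  · intro u T m hu hT hacc hm
    have h1 := hC T (padW u m).length hT (hm.trans (by
      rw [padW_length]
      push_cast
      have : (0 : ℝ) ≤ u.length := Nat.cast_nonneg _
      linarith))
    have hg : GoodW κ K (fun w => TW C1 w.length) (padW u m) := hgood _ h1.2
    refine ⟨by omega, ?_, ?_⟩
    · rw [padW_lead]
      omega
    · exact (hans u m hg (by omega)).mpr (acceptsIn_mono hacc (by omega))

end Pool.Agent.Helper17.UL
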